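import Pool.Agent.H5Thr.Stm

/-!
# Piece CIR: the circuit
-/

set_option autoImplicit false

namespace Pool.Agent.H5Thr

open Module Equiv Pool.Agent.H5Sym Pool.Agent.H5Lin

universe u

namespace Cir

/-- small sets -/
abbrev Sm (X : Type) (r : ℕ) : Type := {A : Finset X // A.card ≤ r}

section

variable {X : Type} {r : ℕ}

/-- the image of a small set -/
def smap (τ : Perm X) (A : Sm X r) : Sm X r :=
  ⟨A.1.map τ.toEmbedding, by rw [Finset.card_map]; exact A.2⟩

theorem mem_smap (τ : Perm X) (A : Sm X r) (x : X) : x ∈ (smap τ A).1 ↔ τ.symm x ∈ A.1 :=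
  Finset.mem_map_equiv

theorem mem_smap' (τ : Perm X) (A : Sm X r) (x : X) : τ x ∈ (smap τ A).1 ↔ x ∈ A.1 := by
  rw [mem_smap, Equiv.symm_apply_apply]

theorem smap_mul (τ τ' : Perm X) (A : Sm X r) : smap (τ * τ') A = smap τ (smap τ' A) := by
  apply Subtype.ext
  ext x
  rw [mem_smap, mem_smap, mem_smap]
  rfl

theorem smap_one (A : Sm X r) : smap 1 A = A := by
  apply Subtype.ext
  ext x
  rw [mem_smap]
  rfl

/-- the permutation of the small sets -/
def sperm (τ : Perm X) : Perm (Sm X r) where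
  toFun := smap τ
  invFun := smap τ⁻¹
  left_inv A := by rw [← smap_mul, inv_mul_cancel, smap_one]
  right_inv A := by rw [← smap_mul, mul_inv_cancel, smap_one]

end

/-- the gates -/
inductive Gt (X : Type) (r : ℕ) : Type
  | inp (t : X × X)
  | cov (A : Sm X r)
  | sat (A b : Sm X r)
  | fr (A b : Sm X r) (p : X)
  | ev (A b : Sm X r)
  | gg (A : Sm X r)
  | out

section

variable {X : Type} {r : ℕ}

/-- the action on the gates -/
def gmap (τ : Perm X) : Gt X r → Gt X r
  | .inp t => .inp (pairPerm τ t)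
  | .cov A => .cov (smap τ A)
  | .sat A b => .sat (smap τ A) (smap τ b)
  | .fr A b p => .fr (smap τ A) (smap τ b) (τ p)
  | .ev A b => .ev (smap τ A) (smap τ b)
  | .gg A => .gg (smap τ A)
  | .out => .out

theorem gmap_mul (τ τ' : Perm X) (g : Gt X r) : gmap (τ * τ') g = gmap τ (gmap τ' g) := by
  cases g <;> simp only [gmap, smap_mul, pairPerm_mul] <;> rfl

theorem gmap_one (g : Gt X r) : gmap 1 g = g := by
  cases g <;> simp only [gmap, smap_one] <;> rfl

/-- the permutation of the gates -/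
def gperm (τ : Perm X) : Perm (Gt X r) where
  toFun := gmap τ
  invFun := gmap τ⁻¹
  left_inv A := by rw [← gmap_mul, inv_mul_cancel, gmap_one]
  right_inv A := by rw [← gmap_mul, mul_inv_cancel, gmap_one]

/-- the sum of the values with label `0` -/
def s0 (M : Multiset (ℕ × ℕ)) : ℕ := (M.map fun e => if e.1 = 0 then e.2 else 0).sum
/-- the sum of the values with label `1` -/
def s1 (M : Multiset (ℕ × ℕ)) : ℕ := (M.map fun e => if e.1 = 1 then e.2 else 0).sum
/-- nothing -/
def fz (M : Multiset (ℕ × ℕ)) : ℕ := if s0 M = 0 then 1 else 0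
/-- powers of two -/
def fe (M : Multiset (ℕ × ℕ)) : ℕ := s0 M * 2 ^ s1 M
/-- product -/
def fg (M : Multiset (ℕ × ℕ)) : ℕ := s0 M * s1 M
open Classical in
/-- threshold -/
noncomputable def fo (T : ℕ) (M : Multiset (ℕ × ℕ)) : ℕ := if ∃ e ∈ M, T ≤ e.2 then 1 else 0

variable [Fintype X]

open Classical in
/-- the wires -/
noncomputable def wr : Gt X r → Multiset (ℕ × Gt X r)
  | .inp _ => 0
  | .cov A => (Finset.univ.filter fun t : X × X => t.1 ∉ A.1 ∧ t.2 ∉ A.1).val.map
      fun t => (0, .inp t)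
  | .sat A b => (Finset.univ.filter fun t : X × X =>
      t.1 ∈ A.1 ∧ t.2 ∈ A.1 ∧ t.1 ∉ b.1 ∧ t.2 ∉ b.1).val.map fun t => (0, .inp t)
  | .fr A b p => (Finset.univ.filter fun t : X × X => (t.1 = p ∧ t.2 ∈ A.1 ∧ t.2 ∉ b.1) ∨
      (t.2 = p ∧ t.1 ∈ A.1 ∧ t.1 ∉ b.1)).val.map fun t => (0, .inp t)
  | .ev A b => (0, .sat A b) ::ₘ (Finset.univ.filter fun p : X => p ∉ A.1).val.map
      fun p => (1, .fr A b p)
  | .gg A => (0, .cov A) ::ₘ (Finset.univ.filter fun b : Sm X r => b.1 ⊆ A.1).val.map
      fun b => (1, .ev A b)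
  | .out => (Finset.univ : Finset (Sm X r)).val.map fun A => (0, .gg A)

theorem filt {α : Type} [Fintype α] (e : Perm α) (P Q : α → Prop) [DecidablePred P]
    [DecidablePred Q] (h : ∀ a, Q (e a) ↔ P a) :
    (Finset.univ.filter Q).val = (Finset.univ.filter P).val.map e := by
  have h1 : (Finset.univ.filter P).map e.toEmbedding = Finset.univ.filter Q := by
    ext a
    rw [Finset.mem_map_equiv, Finset.mem_filter, Finset.mem_filter, ← h, Equiv.apply_symm_apply]
    simp
  rw [← h1]
  rfl

theorem pair_fst (τ : Perm X) (t : X × X) : (pairPerm τ t).1 = τ t.1 := rfl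
theorem pair_snd (τ : Perm X) (t : X × X) : (pairPerm τ t).2 = τ t.2 := rfl

theorem wr_gmap (τ : Perm X) (g : Gt X r) :
    wr (gmap τ g) = (wr g).map (Prod.map id (gmap τ)) := by
  classical
  cases g with
  | inp t => rfl
  | cov A =>
    simp only [gmap, wr]
    rw [filt (pairPerm τ) (fun t : X × X => t.1 ∉ A.1 ∧ t.2 ∉ A.1) _ (fun a => by
      rw [pair_fst, pair_snd, mem_smap', mem_smap']), Multiset.map_map, Multiset.map_map]
    rfl
  | sat A b =>
    simp only [gmap, wr]
    rw [filt (pairPerm τ) (fun t : X × X => t.1 ∈ A.1 ∧ t.2 ∈ A.1 ∧ t.1 ∉ b.1 ∧ t.2 ∉ b.1) _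
      (fun a => by
        rw [pair_fst, pair_snd, mem_smap', mem_smap', mem_smap', mem_smap']),
      Multiset.map_map, Multiset.map_map]
    rfl
  | fr A b p =>
    simp only [gmap, wr]
    rw [filt (pairPerm τ) (fun t : X × X => (t.1 = p ∧ t.2 ∈ A.1 ∧ t.2 ∉ b.1) ∨
      (t.2 = p ∧ t.1 ∈ A.1 ∧ t.1 ∉ b.1)) _
      (fun a => by
        rw [pair_fst, pair_snd, mem_smap', mem_smap', mem_smap', mem_smap',
          EmbeddingLike.apply_eq_iff_eq, EmbeddingLike.apply_eq_iff_eq]),
      Multiset.map_map, Multiset.map_map]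
    rfl
  | ev A b =>
    simp only [gmap, wr]
    rw [filt τ (fun p : X => p ∉ A.1) _ (fun a => by rw [mem_smap']), Multiset.map_cons,
      Multiset.map_map, Multiset.map_map]
    rfl
  | gg A =>
    simp only [gmap, wr]
    rw [filt (sperm τ) (fun b : Sm X r => b.1 ⊆ A.1) _ (fun b => by
      show (b.1.map τ.toEmbedding) ⊆ (A.1.map τ.toEmbedding) ↔ _
      exact Finset.map_subset_map), Multiset.map_cons, Multiset.map_map, Multiset.map_map]
    rfl
  | out =>
    simp only [gmap, wr]
    have h1 : (Finset.univ : Finset (Sm X r)).val = (Finset.univ : Finset (Sm X r)).val.map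
        (sperm τ) := by
      have h2 : Finset.univ.map (sperm τ).toEmbedding = (Finset.univ : Finset (Sm X r)) :=
        Finset.map_univ_equiv _
      exact (congrArg Finset.val h2).symm
    conv_lhs => rw [h1]
    rw [Multiset.map_map, Multiset.map_map]
    rfl

/-- the levels -/
def lv : Gt X r → ℕ
  | .inp _ => 0
  | .cov _ => 1
  | .sat _ _ => 1
  | .fr _ _ _ => 1
  | .ev _ _ => 2
  | .gg _ => 3
  | .out => 4

/-- the kinds of the gates -/
noncomputable def lb (T : ℕ) : Gt X r → Label (X × X) ℕ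
  | .inp t => .input t
  | .cov _ => .sym fz
  | .sat _ _ => .sym fz
  | .fr _ _ _ => .sym fz
  | .ev _ _ => .sym fe
  | .gg _ => .sym fg
  | .out => .sym (fo T)

theorem lv_wr (g : Gt X r) : ∀ e ∈ wr g, lv e.2 < lv g := by
  intro e he
  cases g with
  | inp t => exact absurd he (Multiset.notMem_zero _)
  | cov A =>
    obtain ⟨t, -, rfl⟩ := Multiset.mem_map.1 he
    exact Nat.zero_lt_one
  | sat A b =>
    obtain ⟨t, -, rfl⟩ := Multiset.mem_map.1 he
    exact Nat.zero_lt_one
  | fr A b p =>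
    obtain ⟨t, -, rfl⟩ := Multiset.mem_map.1 he
    exact Nat.zero_lt_one
  | ev A b =>
    rcases Multiset.mem_cons.1 he with rfl | he
    · exact Nat.lt_succ_self 1
    · obtain ⟨t, -, rfl⟩ := Multiset.mem_map.1 he
      exact Nat.lt_succ_self 1
  | gg A =>
    rcases Multiset.mem_cons.1 he with rfl | he
    · show 1 < 3
      omega
    · obtain ⟨t, -, rfl⟩ := Multiset.mem_map.1 he
      exact Nat.lt_succ_self 2
  | out =>
    obtain ⟨t, -, rfl⟩ := Multiset.mem_map.1 he
    exact Nat.lt_succ_self 3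

end

/-- the circuit -/
noncomputable def cir (X : Type) [Fintype X] (r T : ℕ) : LCircuit.{0, 0} (X × X) ℕ where
  Gate := Gt X r
  Row := Empty
  finite := inferInstance
  owner i := i.elim
  label := lb T
  wires := wr
  entry i := i.elim
  level := lv
  level_wires := lv_wr
  level_entry i := i.elim
  out := .out

/-- the action -/
noncomputable def act (X : Type) [Fintype X] (r T : ℕ) {V : Type u} [AddCommGroup V]
    (θ : V → Perm X) (hθ : ∀ v w, θ (v + w) = θ v * θ w) :
    (cir X r T).Action fun v => pairPerm (θ v) where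
  gate v := gperm (θ v)
  row _ := Equiv.refl _
  gate_add v w := by
    refine Equiv.ext fun g => ?_
    rw [hθ]
    exact gmap_mul _ _ g
  row_add _ _ := rfl
  label v g := by
    cases g <;> rfl
  wires v g := wr_gmap (θ v) g
  owner v i := i.elim
  entry v i := i.elim
  out v := rfl

section

variable (X : Type) [Fintype X] (r T : ℕ) (x : X × X → Bool)

/-- the values -/
noncomputable def vl (g : Gt X r) : ℕ := (cir X r T).eval (fun t => if x t then 1 else 0) g

theorem vl_inp (t : X × X) : vl X r T x (.inp t) = if x t then 1 else 0 :=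
  LCircuit.eval_input (C := cir X r T) (g := Gt.inp t) rfl

theorem vl_z (g : Gt X r) (h : lb T g = .sym fz) (P : X × X → Prop) [DecidablePred P]
    (hw : wr g = (Finset.univ.filter P).val.map fun t => (0, .inp t)) :
    vl X r T x g = if ∀ t, P t → x t = false then 1 else 0 := by
  classical
  have h1 : vl X r T x g = fz ((wr g).map fun e => (e.1, vl X r T x e.2)) :=
    LCircuit.eval_sym (C := cir X r T) (g := g) h
  have h2 : s0 ((wr g).map fun e => (e.1, vl X r T x e.2)) =
      ∑ t ∈ Finset.univ.filter P, if x t then 1 else 0 := by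
    unfold s0
    rw [hw, Multiset.map_map, Multiset.map_map]
    simp only [Function.comp_def, if_true, vl_inp]
    rfl
  rw [h1, fz, h2]
  have h3 : (∑ t ∈ Finset.univ.filter P, if x t then 1 else 0) = 0 ↔ ∀ t, P t → x t = false := by
    rw [Finset.sum_eq_zero_iff]
    constructor
    · intro h t ht
      have := h t (Finset.mem_filter.2 ⟨Finset.mem_univ _, ht⟩)
      by_contra hx
      rw [Bool.not_eq_false] at hx
      rw [if_pos hx] at this
      exact one_ne_zero this
    · intro h t ht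
      rw [h t (Finset.mem_filter.1 ht).2]
      rfl
  by_cases h4 : ∀ t, P t → x t = false
  · rw [if_pos h4, if_pos (h3.2 h4)]
  · rw [if_neg h4, if_neg (fun h5 => h4 (h3.1 h5))]

open Classical in
theorem vl_cov (A : Sm X r) : vl X r T x (.cov A) = if IsCover x A.1 then 1 else 0 := by
  rw [vl_z X r T x (.cov A) rfl (fun t : X × X => t.1 ∉ A.1 ∧ t.2 ∉ A.1) rfl]
  congr 1
  rw [eq_iff_iff]
  constructor
  · intro h p q hpq
    by_contra hcon
    rw [not_or] at hcon
    rw [h (p, q) hcon] at hpq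
    exact Bool.false_ne_true hpq
  · intro h t ht
    by_contra hx
    rw [Bool.not_eq_false] at hx
    rcases h t.1 t.2 hx with h1 | h1
    · exact ht.1 h1
    · exact ht.2 h1

open Classical in
theorem vl_sat (A b : Sm X r) : vl X r T x (.sat A b) =
    if (∀ p ∈ A.1, ∀ q ∈ A.1, x (p, q) = true → p ∈ b.1 ∨ q ∈ b.1) then 1 else 0 := by
  rw [vl_z X r T x (.sat A b) rfl
    (fun t : X × X => t.1 ∈ A.1 ∧ t.2 ∈ A.1 ∧ t.1 ∉ b.1 ∧ t.2 ∉ b.1) rfl]
  congr 1
  rw [eq_iff_iff]
  constructor
  · intro h p hp q hq hpq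
    by_contra hcon
    rw [not_or] at hcon
    rw [h (p, q) ⟨hp, hq, hcon⟩] at hpq
    exact Bool.false_ne_true hpq
  · intro h t ht
    by_contra hx
    rw [Bool.not_eq_false] at hx
    rcases h t.1 ht.1 t.2 ht.2.1 hx with h1 | h1
    · exact ht.2.2.1 h1
    · exact ht.2.2.2 h1

open Classical in
theorem vl_fr (A b : Sm X r) (p : X) : vl X r T x (.fr A b p) =
    if (∀ q ∈ A.1, x (p, q) = true ∨ x (q, p) = true → q ∈ b.1) then 1 else 0 := by
  rw [vl_z X r T x (.fr A b p) rfl (fun t : X × X => (t.1 = p ∧ t.2 ∈ A.1 ∧ t.2 ∉ b.1) ∨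
      (t.2 = p ∧ t.1 ∈ A.1 ∧ t.1 ∉ b.1)) rfl]
  congr 1
  rw [eq_iff_iff]
  constructor
  · intro h q hq hpq
    by_contra hcon
    rcases hpq with hpq | hpq
    · rw [h (p, q) (Or.inl ⟨rfl, hq, hcon⟩)] at hpq
      exact Bool.false_ne_true hpq
    · rw [h (q, p) (Or.inr ⟨rfl, hq, hcon⟩)] at hpq
      exact Bool.false_ne_true hpq
  · rintro h ⟨t, s⟩ ht
    by_contra hx
    rw [Bool.not_eq_false] at hx
    rcases ht with ⟨h1, h2, h3⟩ | ⟨h1, h2, h3⟩
    · simp only at h1 h2 h3
      subst h1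
      exact h3 (h s h2 (Or.inl hx))
    · simp only at h1 h2 h3
      subst h1
      exact h3 (h t h2 (Or.inr hx))

open Classical in
theorem vl_ev (A b : Sm X r) : vl X r T x (.ev A b) =
    if (∀ p ∈ A.1, ∀ q ∈ A.1, x (p, q) = true → p ∈ b.1 ∨ q ∈ b.1) then
    2 ^ (Finset.univ.filter fun p => p ∉ A.1 ∧
      ∀ q ∈ A.1, x (p, q) = true ∨ x (q, p) = true → q ∈ b.1).card else 0 := by
  have h1 : vl X r T x (.ev A b) = fe ((wr (.ev A b)).map fun e => (e.1, vl X r T x e.2)) :=
    LCircuit.eval_sym (C := cir X r T) (g := Gt.ev A b) rfl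
  have h2 : s0 ((wr (.ev A b)).map fun e => (e.1, vl X r T x e.2)) = vl X r T x (.sat A b) := by
    unfold s0
    simp only [wr, Multiset.map_cons, Multiset.map_map, Function.comp_def, if_true,
      Multiset.sum_cons, one_ne_zero, if_false, Multiset.map_const', Multiset.sum_replicate,
      smul_zero, add_zero]
  have h3 : s1 ((wr (.ev A b)).map fun e => (e.1, vl X r T x e.2)) =
      (Finset.univ.filter fun p => p ∉ A.1 ∧
      ∀ q ∈ A.1, x (p, q) = true ∨ x (q, p) = true → q ∈ b.1).card := by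
    unfold s1
    simp only [wr, Multiset.map_cons, Multiset.map_map, Function.comp_def, if_true,
      Multiset.sum_cons, zero_ne_one, if_false, zero_add, vl_fr]
    rw [Finset.filter_and, ← Finset.filter_and, ← Finset.filter_filter, Finset.card_filter]
    rfl
  rw [h1, fe, h2, h3, vl_sat]
  split_ifs
  · rw [one_mul]
  · rw [zero_mul]

open Classical in
theorem vl_gg (A : Sm X r) : vl X r T x (.gg A) = if IsCover x A.1 then cnt x A.1 else 0 := by
  have h1 : vl X r T x (.gg A) = fg ((wr (.gg A)).map fun e => (e.1, vl X r T x e.2)) :=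
    LCircuit.eval_sym (C := cir X r T) (g := Gt.gg A) rfl
  have h2 : s0 ((wr (.gg A)).map fun e => (e.1, vl X r T x e.2)) = vl X r T x (.cov A) := by
    unfold s0
    simp only [wr, Multiset.map_cons, Multiset.map_map, Function.comp_def, if_true,
      Multiset.sum_cons, one_ne_zero, if_false, Multiset.map_const', Multiset.sum_replicate,
      smul_zero, add_zero]
  have h3 : s1 ((wr (.gg A)).map fun e => (e.1, vl X r T x e.2)) = cnt x A.1 := by
    unfold s1
    simp only [wr, Multiset.map_cons, Multiset.map_map, Function.comp_def, if_true,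
      Multiset.sum_cons, zero_ne_one, if_false, zero_add]
    show ∑ b ∈ Finset.univ.filter (fun b : Sm X r => b.1 ⊆ A.1), vl X r T x (.ev A b) = cnt x A.1
    unfold cnt
    refine Finset.sum_bij (fun b _ => b.1) ?_ ?_ ?_ ?_
    · intro b hb
      exact Finset.mem_powerset.2 (Finset.mem_filter.1 hb).2
    · intro b _ b' _ h
      exact Subtype.ext h
    · intro b hb
      rw [Finset.mem_powerset] at hb
      exact ⟨⟨b, (Finset.card_le_card hb).trans A.2⟩,
        Finset.mem_filter.2 ⟨Finset.mem_univ _, hb⟩, rfl⟩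
    · intro b _
      exact vl_ev X r T x A b
  rw [h1, fg, h2, h3, vl_cov]
  split_ifs
  · rw [one_mul]
  · rw [zero_mul]

theorem vl_out (hT : 0 < T) : vl X r T x .out = 1 ↔
    ∃ A : Finset X, A.card ≤ r ∧ IsCover x A ∧ T ≤ cnt x A := by
  classical
  have h1 : vl X r T x .out = fo T ((wr .out).map fun e => (e.1, vl X r T x e.2)) :=
    LCircuit.eval_sym (C := cir X r T) (g := Gt.out) rfl
  rw [h1, fo]
  have h2 : (∃ e ∈ (wr (.out : Gt X r)).map fun e => (e.1, vl X r T x e.2), T ≤ e.2) ↔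
      ∃ A : Finset X, A.card ≤ r ∧ IsCover x A ∧ T ≤ cnt x A := by
    constructor
    · rintro ⟨e, he, hTe⟩
      simp only [wr, Multiset.map_map, Multiset.mem_map] at he
      obtain ⟨A, -, rfl⟩ := he
      simp only [Function.comp_def, vl_gg] at hTe
      by_cases hc : IsCover x A.1
      · rw [if_pos hc] at hTe
        exact ⟨A.1, A.2, hc, hTe⟩
      · rw [if_neg hc] at hTe
        omega
    · rintro ⟨A, hA, hc, hT'⟩
      refine ⟨(0, vl X r T x (.gg ⟨A, hA⟩)), ?_, ?_⟩
      · simp only [wr, Multiset.map_map, Multiset.mem_map]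
        exact ⟨⟨A, hA⟩, Finset.mem_univ_val _, rfl⟩
      · simp only [vl_gg]
        rw [if_pos hc]
        exact hT'
  by_cases h : ∃ A : Finset X, A.card ≤ r ∧ IsCover x A ∧ T ≤ cnt x A
  · rw [if_pos (h2.2 h)]
    exact ⟨fun _ => h, fun _ => rfl⟩
  · rw [if_neg (fun h3 => h (h2.1 h3))]
    exact ⟨fun h4 => absurd h4 zero_ne_one, fun h4 => absurd h4 h⟩

end

/-! ### counting -/

section

variable (X : Type) [Fintype X] (r : ℕ)

theorem card_sm : Nat.card (Sm X r) ≤ (Nat.card X + 1) ^ r := by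
  classical
  let F : (Fin r → Option X) → Sm X r := fun f =>
    ⟨Finset.univ.filter fun a => ∃ i, f i = some a, by
      have h1 : ((Finset.univ.filter fun a => ∃ i, f i = some a).map
          Function.Embedding.some) ⊆ Finset.univ.image f := by
        intro o ho
        rw [Finset.mem_map] at ho
        obtain ⟨a, ha, rfl⟩ := ho
        obtain ⟨i, hi⟩ := (Finset.mem_filter.1 ha).2
        exact Finset.mem_image.2 ⟨i, Finset.mem_univ _, hi⟩
      have h2 := Finset.card_le_card h1
      rw [Finset.card_map] at h2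
      refine h2.trans (Finset.card_image_le.trans ?_)
      rw [Finset.card_univ, Fintype.card_fin]⟩
  have hF : Function.Surjective F := by
    rintro ⟨A, hA⟩
    let e := A.equivFin
    refine ⟨fun i => if h : (i : ℕ) < A.card then some (e.symm ⟨i, h⟩).1 else none, ?_⟩
    apply Subtype.ext
    ext a
    show a ∈ Finset.univ.filter _ ↔ _
    rw [Finset.mem_filter]
    constructor
    · rintro ⟨-, i, hi⟩
      beta_reduce at hi
      by_cases h : (i : ℕ) < A.card
      · rw [dif_pos h] at hi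
        rw [← Option.some.inj hi]
        exact (e.symm ⟨i, h⟩).2
      · rw [dif_neg h] at hi
        exact absurd hi (by simp)
    · intro ha
      refine ⟨Finset.mem_univ _, ⟨(e ⟨a, ha⟩ : ℕ), (e ⟨a, ha⟩).2.trans_le hA⟩, ?_⟩
      beta_reduce
      rw [dif_pos (e ⟨a, ha⟩).2]
      simp
  have h1 := Nat.card_le_card_of_surjective F hF
  refine h1.trans ?_
  rw [Nat.card_fun, Nat.card_eq_fintype_card (α := Fin r), Fintype.card_fin,
    Nat.card_eq_fintype_card, Fintype.card_option, ← Nat.card_eq_fintype_card]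

/-- names for the gates -/
def code : Gt X r → (X × X) ⊕ (Sm X r × Sm X r × (Option X ⊕ Fin 4))
  | .inp t => .inl t
  | .cov A => .inr (A, A, .inr 0)
  | .sat A b => .inr (A, b, .inr 1)
  | .fr A b p => .inr (A, b, .inl (some p))
  | .ev A b => .inr (A, b, .inr 2)
  | .gg A => .inr (A, A, .inr 3)
  | .out => .inr (⟨∅, by simp⟩, ⟨∅, by simp⟩, .inl none)

theorem code_inj : Function.Injective (code X r) := by
  intro g g' h
  cases g <;> cases g' <;> simp_all [code]

instance : Finite (Gt X r) := Finite.of_injective (code X r) (code_inj X r)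

theorem size_le (T : ℕ) : (cir X r T).size ≤ (Nat.card X + 2) ^ (2 * r + 4) := by
  have h0 : (cir X r T).size = Nat.card (Gt X r) := by
    show Nat.card (Gt X r) + Nat.card Empty = _
    rw [Nat.card_eq_fintype_card (α := Empty), Fintype.card_empty, add_zero]
  rw [h0]
  have h1 := Nat.card_le_card_of_injective (code X r) (code_inj X r)
  rw [Nat.card_sum, Nat.card_prod, Nat.card_prod, Nat.card_prod, Nat.card_sum] at h1
  have h2 : Nat.card (Option X) = Nat.card X + 1 := by
    rw [Nat.card_eq_fintype_card, Fintype.card_option, Nat.card_eq_fintype_card]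
  have h3 : Nat.card (Fin 4) = 4 := by rw [Nat.card_eq_fintype_card, Fintype.card_fin]
  rw [h2, h3] at h1
  have h4 := card_sm X r
  obtain ⟨n, hn⟩ : ∃ n, n = Nat.card X := ⟨_, rfl⟩
  obtain ⟨s, hs⟩ : ∃ s, s = Nat.card (Sm X r) := ⟨_, rfl⟩
  rw [← hn, ← hs] at h1 h4
  rw [← hn]
  refine h1.trans ?_
  have h5 : s ≤ (n + 2) ^ r := h4.trans (Nat.pow_le_pow_left (by omega) r)
  obtain ⟨w, hw⟩ : ∃ w, w = (n + 2) ^ r := ⟨_, rfl⟩
  have hw1 : 1 ≤ w := by rw [hw]; exact Nat.one_le_pow _ _ (by omega)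
  have h6 : (n + 2) ^ (2 * r + 4) = w * w * (n + 2) ^ 4 := by
    rw [hw, pow_add, two_mul, pow_add]
  rw [h6]
  rw [← hw] at h5
  have h7 : s * (s * (n + 1 + 4)) ≤ w * w * (n + 5) := by
    calc s * (s * (n + 1 + 4)) ≤ w * (w * (n + 1 + 4)) :=
          Nat.mul_le_mul h5 (Nat.mul_le_mul h5 le_rfl)
      _ = w * w * (n + 5) := by ring
  have h8 : n * n ≤ w * w * (n * n) := Nat.le_mul_of_pos_left _ (by positivity)
  have h9 : n * n + (n + 5) ≤ (n + 2) ^ 4 := by nlinarith [Nat.zero_le n]
  calc n * n + s * (s * (n + 1 + 4)) ≤ w * w * (n * n) + w * w * (n + 5) := add_le_add h8 h7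
    _ = w * w * (n * n + (n + 5)) := by ring
    _ ≤ w * w * (n + 2) ^ 4 := Nat.mul_le_mul_left _ h9

end

end Cir

open Cir in
theorem t_CIR : S_CIR.{u} := by
  intro X _ r T hT
  refine ⟨cir X r T, inferInstanceAs (Finite (Gt X r)), ?_, size_le X r T, ?_, ?_⟩
  · intro g
    change Gt X r at g
    cases g with
    | inp t => exact Or.inl ⟨t, rfl⟩
    | cov A => exact Or.inr ⟨fz, rfl⟩
    | sat A b => exact Or.inr ⟨fz, rfl⟩
    | fr A b p => exact Or.inr ⟨fz, rfl⟩
    | ev A b => exact Or.inr ⟨fe, rfl⟩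
    | gg A => exact Or.inr ⟨fg, rfl⟩
    | out => exact Or.inr ⟨fo T, rfl⟩
  · intro V _ θ hθ
    exact ⟨act X r T θ hθ⟩
  · intro x
    exact vl_out X r T x hT

end Pool.Agent.H5Thr

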