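import Pool.Agent.H5Thr.Stm

/-! H5Thr piece EXP (helper98) -/

set_option autoImplicit false

namespace Pool.Agent.H5Thr

open Module Equiv Pool.Agent.H5Sym Pool.Agent.H5Lin

/-- counting the functions with few nonzero values -/
theorem count_few {β A : Type} [Fintype β] [DecidableEq β] [Fintype A] [DecidableEq A] [Zero A]
    (m s0 M : ℕ) (hM : 1 ≤ M) (hA : Fintype.card A = m + 1) :
    (Finset.univ.filter (fun f : β → A =>
      (Finset.univ.filter (fun b => f b ≠ 0)).card ≤ s0)).card * M ^ (Fintype.card β) ≤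
      (M + m) ^ (Fintype.card β) * M ^ s0 := by
  have hsum : (∑ a : A, if a = 0 then M else 1) = M + m := by
    rw [Finset.sum_ite, Finset.sum_const, Finset.sum_const]
    have h1 : (Finset.univ.filter (fun a : A => a = 0)).card = 1 := by
      rw [Finset.card_eq_one]
      exact ⟨0, by ext a; simp⟩
    have h2 : (Finset.univ.filter (fun a : A => a = 0)).card +
        (Finset.univ.filter (fun a : A => ¬ a = 0)).card = m + 1 := by
      rw [Finset.card_filter_add_card_filter_not, Finset.card_univ, hA]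
    rw [h1] at h2 ⊢
    simp only [smul_eq_mul, one_mul, mul_one]
    omega
  have hprod : (M + m) ^ (Fintype.card β) =
      ∑ f : β → A, ∏ b, (if f b = 0 then M else 1) := by
    rw [← hsum, ← Finset.card_univ, ← Finset.prod_const, Finset.prod_univ_sum,
      Fintype.piFinset_univ]
  rw [hprod, Finset.sum_mul, Finset.card_eq_sum_ones, Finset.sum_mul]
  refine le_trans (Finset.sum_le_sum fun f hf => ?_)
    (Finset.sum_le_sum_of_subset (Finset.filter_subset _ _))
  rw [Finset.mem_filter] at hf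
  rw [one_mul, Finset.prod_ite, Finset.prod_const, Finset.prod_const_one, mul_one, ← pow_add]
  refine Nat.pow_le_pow_right hM ?_
  have h3 : (Finset.univ.filter (fun b => f b = 0)).card +
      (Finset.univ.filter (fun b => ¬ f b = 0)).card = Fintype.card β := by
    rw [Finset.card_filter_add_card_filter_not, Finset.card_univ]
  have h4 := hf.2
  simp only [ne_eq] at h4
  omega

theorem csup_eq {β : Type} [Fintype β] [d : DecidableEq β] (ζ : Dual F2 (β → K4)) :
    csup ζ = (Finset.univ.filter (fun b : β => (fun a : K4 => ζ (Pi.single b a)) ≠ 0)).card := by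
  rw [Subsingleton.elim d (fun a b => Classical.propDecidable (a = b))]
  unfold csup
  rw [Nat.card_eq_fintype_card, Fintype.card_subtype]
  congr 1
  ext b
  simp only [Finset.mem_filter, Finset.mem_univ, true_and, ne_eq, funext_iff, Pi.zero_apply,
    not_forall]

theorem ncard_few {β : Type} [Fintype β] [DecidableEq β] (s0 M : ℕ) (hM : 1 ≤ M) :
    {ζ : Dual F2 (β → K4) | csup ζ ≤ s0}.ncard * M ^ (Fintype.card β) ≤
      (M + 15) ^ (Fintype.card β) * M ^ s0 := by
  classical
  have hcard : Fintype.card (K4 → F2) = 15 + 1 := by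
    simp [ZMod.card]
  refine le_trans (Nat.mul_le_mul_right _ ?_) (count_few 15 s0 M hM hcard (β := β))
  rw [← Set.ncard_coe_finset]
  refine Set.ncard_le_ncard_of_injOn (fun ζ b a => ζ (Pi.single b a)) ?_ ?_ (Set.toFinite _)
  · intro ζ hζ
    simp only [Finset.coe_filter, Finset.mem_univ, true_and, Set.mem_ofPred_eq] at hζ ⊢
    rw [csup_eq] at hζ
    exact hζ
  · intro ζ _ ζ' _ h
    refine LinearMap.pi_ext fun b a => ?_
    exact congrFun (congrFun h b) a

theorem cube_lt (κ : ℕ) (h : 30 ≤ κ) : (6 * κ) ^ 3 < 2 ^ κ := by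
  induction κ, h using Nat.le_induction with
  | base => norm_num
  | succ n hn ih =>
    rw [pow_succ 2 n]
    nlinarith [mul_pos (show 0 < n by omega) (show 0 < n by omega)]

theorem t_EXP : S_EXP := by
  refine ⟨30, by norm_num, fun κ hκ => ?_⟩
  have hfin : Finite (Dual F2 (Bool × Fin (12 * κ) → K4)) :=
    Finite.of_injective (fun q : Dual F2 (Bool × Fin (12 * κ) → K4) =>
      (q : (Bool × Fin (12 * κ) → K4) → F2)) DFunLike.coe_injective
  set Φ : Set (Dual F2 (Bool × Fin (12 * κ) → K4)) := {ζ | 30 * csup ζ < κ} with hΦ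
  have h1 : Φ.ncard * 360 ^ (24 * κ) ≤ 375 ^ (24 * κ) * 360 ^ (κ / 30) := by
    have h2 := ncard_few (β := Bool × Fin (12 * κ)) (κ / 30) 360 (by norm_num)
    have hc : Fintype.card (Bool × Fin (12 * κ)) = 24 * κ := by
      simp [Fintype.card_prod]
      ring
    rw [hc] at h2
    refine le_trans (Nat.mul_le_mul_right _ ?_) h2
    refine Set.ncard_le_ncard ?_ (Set.toFinite _)
    intro ζ hζ
    have hζ' : 30 * csup ζ < κ := hζ
    show csup ζ ≤ κ / 30
    omega
  have h2 : Φ.ncard ≤ 6 ^ κ := by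
    have h3 : 375 ^ (24 * κ) ≤ 3 ^ κ * 360 ^ (24 * κ) := by
      rw [pow_mul, pow_mul, ← mul_pow]
      exact Nat.pow_le_pow_left (by norm_num) κ
    have h4 : 360 ^ (κ / 30) ≤ 2 ^ κ := by
      calc 360 ^ (κ / 30) ≤ (2 ^ 9) ^ (κ / 30) := Nat.pow_le_pow_left (by norm_num) _
        _ = 2 ^ (9 * (κ / 30)) := by rw [pow_mul]
        _ ≤ 2 ^ κ := Nat.pow_le_pow_right (by norm_num) (by omega)
    have h5 : Φ.ncard * 360 ^ (24 * κ) ≤ 6 ^ κ * 360 ^ (24 * κ) := by
      calc Φ.ncard * 360 ^ (24 * κ) ≤ 375 ^ (24 * κ) * 360 ^ (κ / 30) := h1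
        _ ≤ (3 ^ κ * 360 ^ (24 * κ)) * 2 ^ κ := Nat.mul_le_mul h3 h4
        _ = 6 ^ κ * 360 ^ (24 * κ) := by
          rw [show (6 : ℕ) = 3 * 2 by norm_num, mul_pow]
          ring
    exact Nat.le_of_mul_le_mul_right h5 (by positivity)
  have h3 : Φ.ncard * (6 * κ) ^ 3 < (12 * κ).choose κ := by
    have h4 : 12 ^ κ ≤ (12 * κ).choose κ := pow_le_choose κ (12 * κ) le_rfl
    have h5 := cube_lt κ hκ
    calc Φ.ncard * (6 * κ) ^ 3 ≤ 6 ^ κ * (6 * κ) ^ 3 := Nat.mul_le_mul_right _ h2
      _ < 6 ^ κ * 2 ^ κ := Nat.mul_lt_mul_of_pos_left h5 (by positivity)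
      _ = 12 ^ κ := by
        rw [← mul_pow]
        norm_num
      _ ≤ _ := h4
  obtain ⟨σ, hσ⟩ := exists_good le_rfl (idn (12 * κ)) Φ h3
  refine ⟨σ, fun q hq1 hq2 => ?_⟩
  have h4 := hσ q hq1 hq2
  by_contra hcon
  exact h4 (not_le.1 hcon)

end Pool.Agent.H5Thr
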