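import Pool.Agent.H5Thr.Stm
import Pool.Agent.H5Sym.TwoSat

/-!
# Piece CNT of the threshold counting project
-/

set_option autoImplicit false

namespace Pool.Agent.H5Thr

open Module Equiv Pool.Agent.H5Sym Pool.Agent.H5Lin

namespace Cnt

theorem adj_perm {P : ℕ} {β : Type} {ι ι' : Bool × Fin P ↪ β} (π : Perm β)
    (hπ : ∀ a, π (ι a) = ι' a) (σ : Fin 3 → Perm (Fin P)) (w : Fin 3 × Fin P → F2)
    (p q : β × K4) : Adj ι' σ w (π p.1, p.2) (π q.1, q.2) ↔ Adj ι σ w p q := by
  have key : ∀ (x : β) (s : Bool × Fin P), π x = ι' s ↔ x = ι s := by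
    intro x s
    rw [← hπ s]
    exact π.injective.eq_iff
  unfold Adj
  simp only [key]

end Cnt

theorem t_CNT : S_CNT := by
  intro P β X _ e ι ι' σ
  classical
  constructor
  · obtain ⟨π, hπ⟩ := Perm.exists_extending_pair ι ι' ι.injective ι'.injective
    rw [numSat_mat, numSat_mat]
    congr 1
    refine Nat.card_congr ((Equiv.arrowCongr (π.prodCongr (Equiv.refl K4))
      (Equiv.refl Bool)).subtypeEquiv fun a => ?_)
    constructor
    · intro h p q hpq
      have h1 : Adj ι σ 1 (π.symm p.1, p.2) (π.symm q.1, q.2) := by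
        rw [← Cnt.adj_perm π hπ σ 1]
        simpa using hpq
      exact h _ _ h1
    · intro h p q hpq
      have h1 := h (π p.1, p.2) (π q.1, q.2) ((Cnt.adj_perm π hπ σ 1 p q).mpr hpq)
      simpa [Equiv.arrowCongr] using h1
  · set g : (Bool × Fin P) × K4 → X := fun s => e (ι s.1, s.2) with hg
    have hsat : ∀ a : X → Bool, ∀ p q, mat e ι σ 1 (p, q) = true →
        (if p ∈ Set.range g then true else a p) = true ∨
          (if q ∈ Set.range g then true else a q) = true := by
      intro a p q hpq
      rw [mat_true] at hpq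
      obtain ⟨p', q', rfl, rfl, c, i, _, h | h⟩ := hpq
      · left
        rw [if_pos]
        refine ⟨((false, i), p'.2), ?_⟩
        rw [hg]
        show e (ι (false, i), p'.2) = e p'
        rw [← h.1]
      · left
        rw [if_pos]
        refine ⟨((true, σ c i), p'.2), ?_⟩
        rw [hg]
        show e (ι (true, σ c i), p'.2) = e p'
        rw [← h.1]
    let F : (X → Bool) → {a : X → Bool // ∀ p q, mat e ι σ 1 (p, q) = true →
        a p = true ∨ a q = true} × ((Bool × Fin P) × K4 → Bool) := fun a =>
      (⟨fun x => if x ∈ Set.range g then true else a x, hsat a⟩, fun s => a (g s))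
    have hF : Function.Injective F := by
      intro a b hab
      rw [Prod.mk.injEq] at hab
      funext x
      by_cases hx : x ∈ Set.range g
      · obtain ⟨s, rfl⟩ := hx
        exact congrFun hab.2 s
      · have h1 := congrFun (congrArg Subtype.val hab.1) x
        simp only [if_neg hx] at h1
        exact h1
    have h1 := Nat.card_le_card_of_injective F hF
    rw [Nat.card_prod, Nat.card_fun, Nat.card_fun] at h1
    have h2 : Nat.card Bool = 2 := by simp
    have h3 : Nat.card ((Bool × Fin P) × K4) = 8 * P := by
      simp only [Nat.card_eq_fintype_card, Fintype.card_prod, Fintype.card_bool, Fintype.card_fin,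
        ZMod.card]
      ring
    rw [h2, h3] at h1
    exact h1

end Pool.Agent.H5Thr
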