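import Pool.Agent.H5Thr.Stm

/-!
# Threshold counting for monotone 2-CNF formulas, piece COV (helper3)
-/

set_option autoImplicit false

namespace Pool.Agent.H5Thr

open Pool.Agent.H5Sym

namespace Cov

open Classical in
/-- the assignments which satisfy the clauses in `M` -/
noncomputable def SS {X : Type} [Fintype X] (M : Finset (X × X)) : Finset (X → Bool) :=
  Finset.univ.filter fun a => ∀ c ∈ M, a c.1 = true ∨ a c.2 = true

/-- pairwise disjoint clauses -/
def Dis {X : Type} (M : Finset (X × X)) : Prop :=
  ∀ c ∈ M, ∀ c' ∈ M, c ≠ c' → c.1 ≠ c'.1 ∧ c.1 ≠ c'.2 ∧ c.2 ≠ c'.1 ∧ c.2 ≠ c'.2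

open Classical in
theorem card_SS {X : Type} [Fintype X] (M : Finset (X × X)) : Dis M →
    4 ^ M.card * (SS M).card ≤ 3 ^ M.card * 2 ^ Fintype.card X := by
  induction M using Finset.induction_on with
  | empty =>
    intro _
    have h : (SS (∅ : Finset (X × X))).card ≤ 2 ^ Fintype.card X := by
      refine (Finset.card_le_univ _).trans ?_
      rw [Fintype.card_fun, Fintype.card_bool]
    simpa using h
  | insert c M hc ih =>
    intro hd
    have hd' : Dis M := fun a ha b hb => hd a (Finset.mem_insert_of_mem ha) b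
      (Finset.mem_insert_of_mem hb)
    have h1 := ih hd'
    obtain ⟨B, hB⟩ : ∃ B, B = (SS M).filter (fun a => a c.1 = false ∧ a c.2 = false) := ⟨_, rfl⟩
    have h2 : SS (insert c M) = (SS M).filter (fun a => ¬ (a c.1 = false ∧ a c.2 = false)) := by
      ext a
      simp only [SS, Finset.mem_filter, Finset.mem_univ, true_and, Finset.mem_insert,
        forall_eq_or_imp]
      constructor
      · rintro ⟨h3, h4⟩
        refine ⟨h4, ?_⟩
        rintro ⟨h5, h6⟩
        rcases h3 with h3 | h3
        · rw [h5] at h3
          exact absurd h3 (by decide)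
        · rw [h6] at h3
          exact absurd h3 (by decide)
      · rintro ⟨h4, h5⟩
        refine ⟨?_, h4⟩
        by_contra h6
        push Not at h6
        exact h5 ⟨by simpa using h6.1, by simpa using h6.2⟩
    have h3 : B.card + (SS (insert c M)).card = (SS M).card := by
      rw [h2, hB]
      exact Finset.card_filter_add_card_filter_not _
    have h4 : (SS M).card ≤ B.card * 4 := by
      have h5 : (SS M).card ≤ (B ×ˢ (Finset.univ : Finset (Bool × Bool))).card := by
        refine Finset.card_le_card_of_injOn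
          (fun a => (Function.update (Function.update a c.1 false) c.2 false, (a c.1, a c.2))) ?_ ?_
        · intro a ha
          rw [Finset.mem_coe, Finset.mem_product]
          refine ⟨?_, Finset.mem_univ _⟩
          show Function.update (Function.update a c.1 false) c.2 false ∈ B
          rw [hB, Finset.mem_filter]
          refine ⟨?_, ?_, ?_⟩
          · rw [Finset.mem_coe, SS, Finset.mem_filter] at ha
            rw [SS, Finset.mem_filter]
            refine ⟨Finset.mem_univ _, fun c' hc' => ?_⟩
            have hne : c' ≠ c := fun h => hc (h ▸ hc')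
            obtain ⟨e1, e2, e3, e4⟩ := hd c' (Finset.mem_insert_of_mem hc') c
              (Finset.mem_insert_self _ _) hne
            rw [Function.update_of_ne e2, Function.update_of_ne e1, Function.update_of_ne e4,
              Function.update_of_ne e3]
            exact ha.2 c' hc'
          · by_cases h : c.1 = c.2
            · rw [h, Function.update_self]
            · rw [Function.update_of_ne h, Function.update_self]
          · rw [Function.update_self]
        · intro a _ b _ hab
          simp only [Prod.mk.injEq] at hab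
          obtain ⟨h6, h7, h8⟩ := hab
          funext p
          by_cases hp2 : p = c.2
          · rw [hp2]
            exact h8
          · by_cases hp1 : p = c.1
            · rw [hp1]
              exact h7
            · have h9 := congrFun h6 p
              rw [Function.update_of_ne hp2, Function.update_of_ne hp1, Function.update_of_ne hp2,
                Function.update_of_ne hp1] at h9
              exact h9
      rw [Finset.card_product] at h5
      simpa using h5
    have h5 : 4 * (SS (insert c M)).card ≤ 3 * (SS M).card := by omega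
    rw [Finset.card_insert_of_notMem hc, pow_succ, pow_succ]
    calc 4 ^ M.card * 4 * (SS (insert c M)).card = 4 ^ M.card * (4 * (SS (insert c M)).card) := by
          ring
      _ ≤ 4 ^ M.card * (3 * (SS M).card) := Nat.mul_le_mul_left _ h5
      _ = 3 * (4 ^ M.card * (SS M).card) := by ring
      _ ≤ 3 * (3 ^ M.card * 2 ^ Fintype.card X) := Nat.mul_le_mul_left _ h1
      _ = 3 ^ M.card * 3 * 2 ^ Fintype.card X := by ring

end Cov

open Cov

open Classical in
theorem t_COV : S_COV := by
  intro X _ x j h
  haveI := Fintype.ofFinite X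
  -- a maximal set of disjoint clauses
  obtain ⟨M, hM, hmax⟩ : ∃ M : Finset (X × X), (Dis M ∧ ∀ c ∈ M, x c = true) ∧
      ∀ M' : Finset (X × X), (Dis M' ∧ ∀ c ∈ M', x c = true) → M'.card ≤ M.card := by
    have hne : ((Finset.univ : Finset (Finset (X × X))).filter fun M =>
        Dis M ∧ ∀ c ∈ M, x c = true).Nonempty :=
      ⟨∅, by
        rw [Finset.mem_filter]
        exact ⟨Finset.mem_univ _, fun c hc => absurd hc (Finset.notMem_empty _),
          fun c hc => absurd hc (Finset.notMem_empty _)⟩⟩
    obtain ⟨M, hM, hM2⟩ := Finset.exists_max_image _ Finset.card hne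
    rw [Finset.mem_filter] at hM
    refine ⟨M, hM.2, fun M' hM' => hM2 M' ?_⟩
    rw [Finset.mem_filter]
    exact ⟨Finset.mem_univ _, hM'⟩
  have hcount := card_SS M hM.1
  have hsat : numSat x ≤ (SS M).card := by
    unfold numSat
    rw [Nat.card_eq_fintype_card, Fintype.card_subtype]
    refine Finset.card_le_card ?_
    intro a ha
    rw [Finset.mem_filter] at ha
    rw [SS, Finset.mem_filter]
    exact ⟨Finset.mem_univ _, fun c hc => ha.2 c.1 c.2 (hM.2 c hc)⟩
  have ht : M.card ≤ 3 * j := by
    by_contra hlt
    push Not at hlt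
    have hpos : 0 < numSat x := by
      rcases Nat.eq_zero_or_pos (numSat x) with h0 | h0
      · rw [h0, zero_mul] at h
        have h9 : 0 < 2 ^ Nat.card X := by positivity
        omega
      · exact h0
    rw [Nat.card_eq_fintype_card] at h
    have h1 : 4 ^ M.card * numSat x ≤ 3 ^ M.card * 2 ^ j * numSat x := by
      calc 4 ^ M.card * numSat x ≤ 4 ^ M.card * (SS M).card := Nat.mul_le_mul_left _ hsat
        _ ≤ 3 ^ M.card * 2 ^ Fintype.card X := hcount
        _ ≤ 3 ^ M.card * (numSat x * 2 ^ j) := Nat.mul_le_mul_left _ h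
        _ = 3 ^ M.card * 2 ^ j * numSat x := by ring
    have h2 : 4 ^ M.card ≤ 3 ^ M.card * 2 ^ j := Nat.le_of_mul_le_mul_right h1 hpos
    obtain ⟨r, hr⟩ : ∃ r, M.card = 3 * j + (r + 1) := ⟨M.card - 3 * j - 1, by omega⟩
    rw [hr, pow_add 4 (3 * j) (r + 1), pow_add 3 (3 * j) (r + 1), pow_mul 4 3 j,
      pow_mul 3 3 j] at h2
    have h3 : (3 ^ 3) ^ j * 2 ^ j ≤ (4 ^ 3) ^ j := by
      rw [← mul_pow]
      exact Nat.pow_le_pow_left (by norm_num) j
    have h4 : 3 ^ (r + 1) < 4 ^ (r + 1) := Nat.pow_lt_pow_left (by norm_num) (by omega)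
    have h5 : (3 ^ 3) ^ j * 3 ^ (r + 1) * 2 ^ j < (4 ^ 3) ^ j * 4 ^ (r + 1) := by
      calc (3 ^ 3) ^ j * 3 ^ (r + 1) * 2 ^ j = ((3 ^ 3) ^ j * 2 ^ j) * 3 ^ (r + 1) := by ring
        _ ≤ (4 ^ 3) ^ j * 3 ^ (r + 1) := Nat.mul_le_mul_right _ h3
        _ < (4 ^ 3) ^ j * 4 ^ (r + 1) := Nat.mul_lt_mul_of_pos_left h4 (by positivity)
    omega
  refine ⟨M.image Prod.fst ∪ M.image Prod.snd, ?_, ?_⟩
  · have h1 := Finset.card_union_le (M.image Prod.fst) (M.image Prod.snd)
    have h2 : (M.image Prod.fst).card ≤ M.card := Finset.card_image_le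
    have h3 : (M.image Prod.snd).card ≤ M.card := Finset.card_image_le
    omega
  · intro p q hpq
    by_contra hcon
    push Not at hcon
    obtain ⟨hp, hq⟩ := hcon
    have hA : ∀ c ∈ M, c.1 ≠ p ∧ c.1 ≠ q ∧ c.2 ≠ p ∧ c.2 ≠ q := by
      intro c hc
      have e1 : c.1 ∈ M.image Prod.fst ∪ M.image Prod.snd :=
        Finset.mem_union_left _ (Finset.mem_image_of_mem _ hc)
      have e2 : c.2 ∈ M.image Prod.fst ∪ M.image Prod.snd :=
        Finset.mem_union_right _ (Finset.mem_image_of_mem _ hc)
      exact ⟨fun e => hp (e ▸ e1), fun e => hq (e ▸ e1), fun e => hp (e ▸ e2),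
        fun e => hq (e ▸ e2)⟩
    have hnot : (p, q) ∉ M := fun hm => (hA _ hm).1 rfl
    have h1 := hmax (insert (p, q) M) ⟨?_, ?_⟩
    · rw [Finset.card_insert_of_notMem hnot] at h1
      omega
    · intro c hc c' hc' hne
      rw [Finset.mem_insert] at hc hc'
      rcases hc with rfl | hc
      · rcases hc' with rfl | hc'
        · exact absurd rfl hne
        · obtain ⟨e1, e2, e3, e4⟩ := hA c' hc'
          exact ⟨e1.symm, e3.symm, e2.symm, e4.symm⟩
      · rcases hc' with rfl | hc'
        · obtain ⟨e1, e2, e3, e4⟩ := hA c hc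
          exact ⟨e1, e2, e3, e4⟩
        · exact hM.1 c hc c' hc' hne
    · intro c hc
      rw [Finset.mem_insert] at hc
      rcases hc with rfl | hc
      · exact hpq
      · exact hM.2 c hc

end Pool.Agent.H5Thr
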