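import Pool.Agent.H5Thr.Stm3
import Pool.Agent.H5Thr.Cir

/-!
# Piece CR2: the circuit that counts the small independent sets (helper98)
-/

set_option autoImplicit false

namespace Pool.Agent.H5Thr

open Module Equiv Pool.Agent.H5Sym Pool.Agent.H5Lin

universe u

namespace Cr2

open Cir

/-- the gates -/
inductive Gt (X : Type) (r : ℕ) : Type
  | inp (t : X × X)
  | ind (A : Sm X r)
  | out

section

variable {X : Type} {r : ℕ}

/-- the action on the gates -/
def gmap (τ : Perm X) : Gt X r → Gt X r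
  | .inp t => .inp (pairPerm τ t)
  | .ind A => .ind (smap τ A)
  | .out => .out

theorem gmap_mul (τ τ' : Perm X) (g : Gt X r) : gmap (τ * τ') g = gmap τ (gmap τ' g) := by
  cases g <;> simp only [gmap, smap_mul, pairPerm_mul] <;> rfl

theorem gmap_one (g : Gt X r) : gmap 1 g = g := by
  cases g <;> simp only [gmap, smap_one] <;> rfl

/-- the permutation of the gates -/
def gperm (τ : Perm X) : Perm (Gt X r) where
  toFun := gmap τ
  invFun := gmap τ⁻¹
  left_inv A := by rw [← gmap_mul, inv_mul_cancel, gmap_one]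
  right_inv A := by rw [← gmap_mul, mul_inv_cancel, gmap_one]

/-- threshold of the sum -/
def ft (T : ℕ) (M : Multiset (ℕ × ℕ)) : ℕ := if T ≤ s0 M then 1 else 0

variable [Fintype X]

open Classical in
/-- the wires -/
noncomputable def wr : Gt X r → Multiset (ℕ × Gt X r)
  | .inp _ => 0
  | .ind A => (Finset.univ.filter fun t : X × X => t.1 ∈ A.1 ∧ t.2 ∈ A.1).val.map
      fun t => (0, .inp t)
  | .out => (Finset.univ : Finset (Sm X r)).val.map fun A => (0, .ind A)

theorem wr_gmap (τ : Perm X) (g : Gt X r) :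
    wr (gmap τ g) = (wr g).map (Prod.map id (gmap τ)) := by
  classical
  cases g with
  | inp t => rfl
  | ind A =>
    simp only [gmap, wr]
    rw [filt (pairPerm τ) (fun t : X × X => t.1 ∈ A.1 ∧ t.2 ∈ A.1) _ (fun a => by
      rw [pair_fst, pair_snd, mem_smap', mem_smap']), Multiset.map_map, Multiset.map_map]
    rfl
  | out =>
    simp only [gmap, wr]
    have h1 : (Finset.univ : Finset (Sm X r)).val = (Finset.univ : Finset (Sm X r)).val.map
        (sperm τ) := by
      have h2 : Finset.univ.map (sperm τ).toEmbedding = (Finset.univ : Finset (Sm X r)) :=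
        Finset.map_univ_equiv _
      exact (congrArg Finset.val h2).symm
    conv_lhs => rw [h1]
    rw [Multiset.map_map, Multiset.map_map]
    rfl

/-- the levels -/
def lv : Gt X r → ℕ
  | .inp _ => 0
  | .ind _ => 1
  | .out => 2

/-- the kinds of the gates -/
noncomputable def lb (T : ℕ) : Gt X r → Label (X × X) ℕ
  | .inp t => .input t
  | .ind _ => .sym fz
  | .out => .sym (ft T)

theorem lv_wr (g : Gt X r) : ∀ e ∈ wr g, lv e.2 < lv g := by
  intro e he
  cases g with
  | inp t => exact absurd he (Multiset.notMem_zero _)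
  | ind A =>
    obtain ⟨t, -, rfl⟩ := Multiset.mem_map.1 he
    exact Nat.zero_lt_one
  | out =>
    obtain ⟨t, -, rfl⟩ := Multiset.mem_map.1 he
    exact Nat.lt_succ_self 1

end

/-- the circuit -/
noncomputable def cir (X : Type) [Fintype X] (r T : ℕ) : LCircuit.{0, 0} (X × X) ℕ where
  Gate := Gt X r
  Row := Empty
  finite := inferInstance
  owner i := i.elim
  label := lb T
  wires := wr
  entry i := i.elim
  level := lv
  level_wires := lv_wr
  level_entry i := i.elim
  out := .out

/-- the action -/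
noncomputable def act (X : Type) [Fintype X] (r T : ℕ) {V : Type u} [AddCommGroup V]
    (θ : V → Perm X) (hθ : ∀ v w, θ (v + w) = θ v * θ w) :
    (cir X r T).Action fun v => pairPerm (θ v) where
  gate v := gperm (θ v)
  row _ := Equiv.refl _
  gate_add v w := by
    refine Equiv.ext fun g => ?_
    rw [hθ]
    exact gmap_mul _ _ g
  row_add _ _ := rfl
  label v g := by
    cases g <;> rfl
  wires v g := wr_gmap (θ v) g
  owner v i := i.elim
  entry v i := i.elim
  out v := rfl

section

variable (X : Type) [Fintype X] (r T : ℕ) (x : X × X → Bool)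

/-- the values -/
noncomputable def vl (g : Gt X r) : ℕ := (cir X r T).eval (fun t => if x t then 1 else 0) g

theorem vl_inp (t : X × X) : vl X r T x (.inp t) = if x t then 1 else 0 :=
  LCircuit.eval_input (C := cir X r T) (g := Gt.inp t) rfl

open Classical in
theorem vl_ind (A : Sm X r) : vl X r T x (.ind A) =
    if ∀ p ∈ A.1, ∀ q ∈ A.1, x (p, q) = false then 1 else 0 := by
  have h1 : vl X r T x (.ind A) = fz ((wr (.ind A)).map fun e => (e.1, vl X r T x e.2)) :=
    LCircuit.eval_sym (C := cir X r T) (g := Gt.ind A) rfl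
  have h2 : s0 ((wr (.ind A)).map fun e => (e.1, vl X r T x e.2)) =
      ∑ t ∈ Finset.univ.filter (fun t : X × X => t.1 ∈ A.1 ∧ t.2 ∈ A.1),
        if x t then 1 else 0 := by
    unfold s0
    simp only [wr, Multiset.map_map, Function.comp_def, if_true, vl_inp]
    rfl
  rw [h1, fz, h2]
  have h3 : (∑ t ∈ Finset.univ.filter (fun t : X × X => t.1 ∈ A.1 ∧ t.2 ∈ A.1),
      if x t then 1 else 0) = 0 ↔ ∀ p ∈ A.1, ∀ q ∈ A.1, x (p, q) = false := by
    rw [Finset.sum_eq_zero_iff]
    constructor
    · intro h p hp q hq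
      have := h (p, q) (Finset.mem_filter.2 ⟨Finset.mem_univ _, hp, hq⟩)
      by_contra hx
      rw [Bool.not_eq_false] at hx
      rw [if_pos hx] at this
      exact one_ne_zero this
    · intro h t ht
      have ht2 := (Finset.mem_filter.1 ht).2
      have h5 : x t = false := h t.1 ht2.1 t.2 ht2.2
      rw [h5]
      rfl
  by_cases h4 : ∀ p ∈ A.1, ∀ q ∈ A.1, x (p, q) = false
  · rw [if_pos h4, if_pos (h3.2 h4)]
  · rw [if_neg h4, if_neg (fun h5 => h4 (h3.1 h5))]

theorem vl_out : vl X r T x .out = 1 ↔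
    T ≤ Nat.card {A : Finset X // A.card ≤ r ∧ ∀ p ∈ A, ∀ q ∈ A, x (p, q) = false} := by
  classical
  have h1 : vl X r T x .out = ft T ((wr .out).map fun e => (e.1, vl X r T x e.2)) :=
    LCircuit.eval_sym (C := cir X r T) (g := Gt.out) rfl
  have h2 : s0 ((wr (.out : Gt X r)).map fun e => (e.1, vl X r T x e.2)) =
      Nat.card {A : Finset X // A.card ≤ r ∧ ∀ p ∈ A, ∀ q ∈ A, x (p, q) = false} := by
    unfold s0
    simp only [wr, Multiset.map_map, Function.comp_def, if_true, vl_ind]
    show ∑ A : Sm X r, (if ∀ p ∈ A.1, ∀ q ∈ A.1, x (p, q) = false then 1 else 0) = _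
    rw [← Finset.card_filter, Nat.card_eq_fintype_card, Fintype.card_subtype]
    refine Finset.card_bij (fun A _ => A.1) ?_ ?_ ?_
    · intro A hA
      exact Finset.mem_filter.2 ⟨Finset.mem_univ _, A.2, (Finset.mem_filter.1 hA).2⟩
    · intro A _ B _ h
      exact Subtype.ext h
    · intro A hA
      have hA2 := (Finset.mem_filter.1 hA).2
      exact ⟨⟨A, hA2.1⟩, Finset.mem_filter.2 ⟨Finset.mem_univ _, hA2.2⟩, rfl⟩
  rw [h1, ft, h2]
  by_cases h : T ≤ Nat.card {A : Finset X // A.card ≤ r ∧ ∀ p ∈ A, ∀ q ∈ A, x (p, q) = false}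
  · rw [if_pos h]
    exact ⟨fun _ => h, fun _ => rfl⟩
  · rw [if_neg h]
    exact ⟨fun h4 => absurd h4 zero_ne_one, fun h4 => absurd h4 h⟩

end

/-! ### counting -/

section

variable (X : Type) [Fintype X] (r : ℕ)

/-- names for the gates -/
def code : Gt X r → (X × X) ⊕ Option (Sm X r)
  | .inp t => .inl t
  | .ind A => .inr (some A)
  | .out => .inr none

theorem code_inj : Function.Injective (code X r) := by
  intro g g' h
  cases g <;> cases g' <;> simp_all [code]

instance : Finite (Gt X r) := Finite.of_injective (code X r) (code_inj X r)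

theorem size_le (T : ℕ) : (cir X r T).size ≤ (Nat.card X + 2) ^ (r + 3) := by
  classical
  have h0 : (cir X r T).size = Nat.card (Gt X r) := by
    show Nat.card (Gt X r) + Nat.card Empty = _
    rw [Nat.card_eq_fintype_card (α := Empty), Fintype.card_empty, add_zero]
  rw [h0]
  have h1 := Nat.card_le_card_of_injective (code X r) (code_inj X r)
  rw [Nat.card_sum, Nat.card_prod] at h1
  have h2 : Nat.card (Option (Sm X r)) = Nat.card (Sm X r) + 1 := by
    rw [Nat.card_eq_fintype_card, Fintype.card_option, Nat.card_eq_fintype_card]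
  rw [h2] at h1
  have h4 := card_sm X r
  obtain ⟨n, hn⟩ : ∃ n, n = Nat.card X := ⟨_, rfl⟩
  obtain ⟨s, hs⟩ : ∃ s, s = Nat.card (Sm X r) := ⟨_, rfl⟩
  rw [← hn, ← hs] at h1 h4
  rw [← hn]
  refine h1.trans ?_
  have h5 : s ≤ (n + 2) ^ r := h4.trans (Nat.pow_le_pow_left (by omega) r)
  obtain ⟨w, hw⟩ : ∃ w, w = (n + 2) ^ r := ⟨_, rfl⟩
  have hw1 : 1 ≤ w := by rw [hw]; exact Nat.one_le_pow _ _ (by omega)
  rw [pow_add, ← hw]
  rw [← hw] at h5
  have h8 : n * n ≤ w * (n * n) := Nat.le_mul_of_pos_left _ (by omega)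
  have h9 : n * n + 2 ≤ (n + 2) ^ 3 := by nlinarith [Nat.zero_le n]
  calc n * n + (s + 1) ≤ w * (n * n) + w * 2 := by omega
    _ = w * (n * n + 2) := by ring
    _ ≤ w * (n + 2) ^ 3 := Nat.mul_le_mul_left _ h9

end

end Cr2

open Cr2 in
theorem t_CR2 : S_CR2.{u} := by
  intro X _ r T
  refine ⟨cir X r T, inferInstanceAs (Finite (Gt X r)), ?_, size_le X r T, ?_, ?_⟩
  · intro g
    change Gt X r at g
    cases g with
    | inp t => exact Or.inl ⟨t, rfl⟩
    | ind A => exact Or.inr ⟨Cir.fz, rfl⟩
    | out => exact Or.inr ⟨ft T, rfl⟩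
  · intro V _ θ hθ
    exact ⟨act X r T θ hθ⟩
  · intro x
    exact vl_out X r T x

end Pool.Agent.H5Thr
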