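import Pool.Agent.H5Lin.CountL

/-!
# Fooling a circuit with a given graph
-/

set_option autoImplicit false

namespace Pool.Agent.H5Thr

open Module Equiv Pool.Agent.H5Sym Pool.Agent.H5Lin

universe u v

/-- the parity of the sum of the parameters is not visible, for a given placement and a given graph
with the gap property -/
theorem fool {P : ℕ} {β X : Type} [Finite β] {D : Type u} (e : β × K4 ↪ X)
    (C : LCircuit.{0, u} (X × X) D) [Finite C.Gate] (hodd : C.OddFields) (inp : Bool → D)
    (act : C.Action fun v : β → K4 => pairPerm ((blockShift v).viaEmbedding e))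
    {κ : ℕ} (hκ : 0 < κ) (hP : 12 * κ ≤ P) (ι : Bool × Fin P ↪ β) (σ : Fin 3 → Perm (Fin P))
    (hσ : ∀ q : Dual F2 (Fin 3 × Fin P → F2), 3 * κ ≤ wt q → wt q < 6 * κ →
      q.comp (bdry ι σ) ∉
        {ζ : Dual F2 (β → K4) | ∃ ξ ∈ act.special, ∃ η ∈ act.special, ζ = ξ + η}) :
    ∃ d : Fin 3 × Fin P → F2, ∑ e, d e = 1 ∧
      ∀ w, C.eval (inp ∘ mat e ι σ (w + d)) C.out = C.eval (inp ∘ mat e ι σ w) C.out := by
  classical
  let q₀ : Dual F2 (Fin 3 × Fin P → F2) := ∑ e, LinearMap.proj e
  have hq₀ : ∀ d, q₀ d = ∑ e, d e := fun d => by simp [q₀]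
  let small : Set (Dual F2 (Fin 3 × Fin P → F2)) := {q | wt q < 6 * κ}
  let small' : Set (Dual F2 (Fin 3 × Fin P → F2)) := {q | wt q < 3 * κ}
  have h0 : (0 : Dual F2 (Fin 3 × Fin P → F2)) ∈ small' := by
    change wt 0 < 3 * κ
    rw [wt_zero]; omega
  have hadd : ∀ q ∈ small', ∀ q' ∈ small', q + q' ∈ small := by
    intro q hq q' hq'
    have h1 := wt_add q q'
    have h2 : wt q < 3 * κ := hq
    have h3 : wt q' < 3 * κ := hq'
    change wt (q + q') < 6 * κ
    omega
  have hgap : ∀ q ∈ small, (∃ ξ ∈ act.special, ∃ η ∈ act.special,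
      ∀ v, q (bdry ι σ v) = ξ v + η v) → q ∈ small' := by
    rintro q hq ⟨ξ, hξ, η, hη, h⟩
    have h2 : wt q < 6 * κ := hq
    by_contra h3
    exact hσ q (not_lt.1 h3) h2 ⟨ξ, hξ, η, hη, LinearMap.ext h⟩
  have hvis : ∀ q ∈ act.visible (bdry ι σ) small C.out, q ∈ small' := by
    rintro q ⟨hq, hq'⟩
    refine hgap q hq ⟨q.comp (bdry ι σ), Or.inl ⟨C.out, hq'⟩, 0, Or.inl ⟨C.out, fun v _ => rfl⟩,
      fun v => (add_zero _).symm⟩
  let L : Submodule F2 (Dual F2 (Fin 3 × Fin P → F2)) :=
    { carrier := act.visible (bdry ι σ) small C.out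
      zero_mem' := ⟨by have := hadd 0 h0 0 h0; rwa [add_zero] at this, fun v _ => rfl⟩
      add_mem' := fun {q q'} hq hq' => ⟨hadd q (hvis q hq) q' (hvis q' hq'), fun v hv => by
        rw [LinearMap.add_apply, hq.2 v hv, hq'.2 v hv, add_zero]⟩
      smul_mem' := fun c q hq => by
        rcases F2.cases c with rfl | rfl
        · rw [zero_smul]
          exact ⟨by have := hadd 0 h0 0 h0; rwa [add_zero] at this, fun v _ => rfl⟩
        · rwa [one_smul] }
  have hq : q₀ ∉ L := by
    intro h
    have h1 : wt q₀ < 6 * κ := h.1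
    have h2 : wt q₀ = 3 * P := by
      rw [wt, Finset.filter_true_of_mem]
      · simp
      · intro e _
        rw [hq₀, Finset.sum_pi_single']
        simp
    omega
  rw [← Subspace.dualCoannihilator_dualAnnihilator_eq (W := L), Submodule.mem_dualAnnihilator] at hq
  push Not at hq
  obtain ⟨d, hd, hd'⟩ := hq
  rw [Submodule.mem_dualCoannihilator] at hd
  refine ⟨d, by rw [← hq₀]; exact (F2.cases _).resolve_left hd', fun w => ?_⟩
  refine act.core hodd (bdry ι σ) (fun w => inp ∘ mat e ι σ w)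
    (fun w v t => congrArg inp (mat_translate e ι σ w v t)) small small' h0 hadd ?_ hgap C.out d
    (fun q hq => hd q hq) w
  -- base case
  rintro ⟨x, y⟩ w d hd
  have key : ∀ p q, x = e p → y = e q → ∀ c i, ((p.1 = ι (false, i) ∧ q.1 = ι (true, σ c i)) ∨
      (p.1 = ι (true, σ c i) ∧ q.1 = ι (false, i))) → d (c, i) = 0 := by
    intro p q hp hq c i h
    refine hd (LinearMap.proj (c, i)) ?_ ?_
    · change wt _ < 6 * κ
      have h1 : wt (LinearMap.proj (c, i) : Dual F2 (Fin 3 × Fin P → F2)) ≤ 1 := by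
        rw [wt, Finset.card_le_one]
        intro a ha b hb
        simp only [Finset.mem_filter, Finset.mem_univ, true_and, LinearMap.proj_apply,
          Pi.single_apply] at ha hb
        by_contra hab
        rcases eq_or_ne (c, i) a with h2 | h2
        · rcases eq_or_ne (c, i) b with h3 | h3
          · exact hab (h2.symm.trans h3)
          · exact hb (if_neg h3)
        · exact ha (if_neg h2)
      omega
    · intro v hv
      rw [pairPerm_apply, hp, hq, Perm.viaEmbedding_apply, Perm.viaEmbedding_apply,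
        Prod.mk.injEq] at hv
      have h1 : v p.1 = 0 := by
        have := congrArg Prod.snd (e.injective hv.1)
        simpa [blockShift_apply] using this
      have h2 : v q.1 = 0 := by
        have := congrArg Prod.snd (e.injective hv.2)
        simpa [blockShift_apply] using this
      simp only [LinearMap.proj_apply, bdry, LinearMap.coe_mk, AddHom.coe_mk]
      rcases h with ⟨h3, h4⟩ | ⟨h3, h4⟩ <;> rw [← h3, ← h4, h1, h2, ell_zero, add_zero]
  have h2 : AdjOn e ι σ (w + d) x y ↔ AdjOn e ι σ w x y := by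
    constructor
    · rintro ⟨p, q, hp, hq, c, i, h1, h2⟩
      refine ⟨p, q, hp, hq, c, i, ?_, h2⟩
      rw [h1, Pi.add_apply, key p q hp hq c i h2, add_zero]
    · rintro ⟨p, q, hp, hq, c, i, h1, h2⟩
      refine ⟨p, q, hp, hq, c, i, ?_, h2⟩
      rw [h1, Pi.add_apply, key p q hp hq c i h2, add_zero]
  refine congrArg inp ?_
  rw [Bool.eq_iff_iff, mat_true, mat_true, h2]

end Pool.Agent.H5Thr
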