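import Pool.Agent.H5Thr.Stm2
import Pool.Agent.H5Thr.Fool

/-!
# Fooling a circuit with a given graph: arbitrary inputs, padded formulas, fixed guesses
-/

set_option autoImplicit false

namespace Pool.Agent.H5Thr

open Module Equiv Pool.Agent.H5Sym Pool.Agent.H5Lin

universe u v

/-- the parity of the sum of the parameters is not visible, for a given placement and a given graph
with the gap property, general inputs -/
theorem foolG {P : ℕ} {β : Type} [Finite β] {T : Type} {D : Type u} (C : LCircuit.{0, u} T D)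
    [Finite C.Gate] (hodd : C.OddFields) (ρ : (β → K4) → Perm T) (act : C.Action ρ)
    {κ : ℕ} (hκ : 0 < κ) (hP : 12 * κ ≤ P) (ι : Bool × Fin P ↪ β) (σ : Fin 3 → Perm (Fin P))
    (hσ : ∀ q : Dual F2 (Fin 3 × Fin P → F2), 3 * κ ≤ wt q → wt q < 6 * κ →
      q.comp (bdry ι σ) ∉
        {ζ : Dual F2 (β → K4) | ∃ ξ ∈ act.special, ∃ η ∈ act.special, ζ = ξ + η}) :
    ∃ d : Fin 3 × Fin P → F2, ∑ e, d e = 1 ∧
      ∀ ω : (Fin 3 × Fin P → F2) → T → D,
        (∀ w v t, ω (w + bdry ι σ v) (ρ v t) = ω w t) →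
        (∀ t w d, (∀ e, (∀ v, ρ v t = t → bdry ι σ v e = 0) → d e = 0) →
          ω (w + d) t = ω w t) →
        ∀ w, C.eval (ω (w + d)) C.out = C.eval (ω w) C.out := by
  classical
  let q₀ : Dual F2 (Fin 3 × Fin P → F2) := ∑ e, LinearMap.proj e
  have hq₀ : ∀ d, q₀ d = ∑ e, d e := fun d => by simp [q₀]
  let small : Set (Dual F2 (Fin 3 × Fin P → F2)) := {q | wt q < 6 * κ}
  let small' : Set (Dual F2 (Fin 3 × Fin P → F2)) := {q | wt q < 3 * κ}
  have h0 : (0 : Dual F2 (Fin 3 × Fin P → F2)) ∈ small' := by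
    change wt 0 < 3 * κ
    rw [wt_zero]; omega
  have hadd : ∀ q ∈ small', ∀ q' ∈ small', q + q' ∈ small := by
    intro q hq q' hq'
    have h1 := wt_add q q'
    have h2 : wt q < 3 * κ := hq
    have h3 : wt q' < 3 * κ := hq'
    change wt (q + q') < 6 * κ
    omega
  have hgap : ∀ q ∈ small, (∃ ξ ∈ act.special, ∃ η ∈ act.special,
      ∀ v, q (bdry ι σ v) = ξ v + η v) → q ∈ small' := by
    rintro q hq ⟨ξ, hξ, η, hη, h⟩
    have h2 : wt q < 6 * κ := hq
    by_contra h3
    exact hσ q (not_lt.1 h3) h2 ⟨ξ, hξ, η, hη, LinearMap.ext h⟩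
  have hvis : ∀ q ∈ act.visible (bdry ι σ) small C.out, q ∈ small' := by
    rintro q ⟨hq, hq'⟩
    refine hgap q hq ⟨q.comp (bdry ι σ), Or.inl ⟨C.out, hq'⟩, 0, Or.inl ⟨C.out, fun v _ => rfl⟩,
      fun v => (add_zero _).symm⟩
  let L : Submodule F2 (Dual F2 (Fin 3 × Fin P → F2)) :=
    { carrier := act.visible (bdry ι σ) small C.out
      zero_mem' := ⟨by have := hadd 0 h0 0 h0; rwa [add_zero] at this, fun v _ => rfl⟩
      add_mem' := fun {q q'} hq hq' => ⟨hadd q (hvis q hq) q' (hvis q' hq'), fun v hv => by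
        rw [LinearMap.add_apply, hq.2 v hv, hq'.2 v hv, add_zero]⟩
      smul_mem' := fun c q hq => by
        rcases F2.cases c with rfl | rfl
        · rw [zero_smul]
          exact ⟨by have := hadd 0 h0 0 h0; rwa [add_zero] at this, fun v _ => rfl⟩
        · rwa [one_smul] }
  have hq : q₀ ∉ L := by
    intro h
    have h1 : wt q₀ < 6 * κ := h.1
    have h2 : wt q₀ = 3 * P := by
      rw [wt, Finset.filter_true_of_mem]
      · simp
      · intro e _
        rw [hq₀, Finset.sum_pi_single']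
        simp
    omega
  rw [← Subspace.dualCoannihilator_dualAnnihilator_eq (W := L), Submodule.mem_dualAnnihilator] at hq
  push Not at hq
  obtain ⟨d, hd, hd'⟩ := hq
  rw [Submodule.mem_dualCoannihilator] at hd
  refine ⟨d, by rw [← hq₀]; exact (F2.cases _).resolve_left hd', fun ω hω hb w => ?_⟩
  refine act.core hodd (bdry ι σ) ω hω small small' h0 hadd ?_ hgap C.out d
    (fun q hq => hd q hq) w
  intro t w d hd
  refine hb t w d fun e he => ?_
  refine hd (LinearMap.proj e) ?_ fun v hv => he v hv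
  change wt _ < 6 * κ
  have h1 : wt (LinearMap.proj e : Dual F2 (Fin 3 × Fin P → F2)) ≤ 1 := by
    rw [wt, Finset.card_le_one]
    intro a ha b hb
    simp only [Finset.mem_filter, Finset.mem_univ, true_and, LinearMap.proj_apply,
      Pi.single_apply] at ha hb
    by_contra hab
    rcases eq_or_ne e a with h2 | h2
    · rcases eq_or_ne e b with h3 | h3
      · exact hab (h2.symm.trans h3)
      · exact hb (if_neg h3)
    · exact ha (if_neg h2)
  omega

theorem pad_true {P m : ℕ} {β X : Type} {e : β × K4 ↪ X} {ι : Bool × Fin P ↪ β}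
    {σ : Fin 3 → Perm (Fin P)} {g : Fin m ↪ X} {z : Fin m × Fin m → Bool}
    {w : Fin 3 × Fin P → F2} {t : X × X} : pad e ι σ g z w t = true ↔
      (mat e ι σ w t = true ∨ ∃ i k, t = (g i, g k) ∧ z (i, k) = true) := by
  simp [pad]

theorem pad_shift {P m : ℕ} {β X : Type} (e : β × K4 ↪ X) (ι : Bool × Fin P ↪ β)
    (σ : Fin 3 → Perm (Fin P)) (g : Fin m ↪ X) (z : Fin m × Fin m → Bool)
    (hg : ∀ i, g i ∉ Set.range e) (w : Fin 3 × Fin P → F2) (v : β → K4) (t : X × X) :
    pad e ι σ g z (w + bdry ι σ v) (pairPerm ((blockShift v).viaEmbedding e) t) =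
      pad e ι σ g z w t := by
  rw [Bool.eq_iff_iff, pad_true, pad_true, mat_translate]
  have key : ∀ i k, pairPerm ((blockShift v).viaEmbedding e) t = (g i, g k) ↔ t = (g i, g k) := by
    intro i k
    have h1 : pairPerm ((blockShift v).viaEmbedding e) (g i, g k) = (g i, g k) := by
      rw [pairPerm_apply]
      refine Prod.ext ?_ ?_
      · exact Perm.viaEmbedding_apply_of_notMem _ _ _ (hg i)
      · exact Perm.viaEmbedding_apply_of_notMem _ _ _ (hg k)
    constructor
    · intro h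
      exact (pairPerm ((blockShift v).viaEmbedding e)).injective (h.trans h1.symm)
    · intro h
      rw [h, h1]
  simp only [key]

theorem mat_base {P : ℕ} {β X : Type} (e : β × K4 ↪ X) (ι : Bool × Fin P ↪ β)
    (σ : Fin 3 → Perm (Fin P)) (t : X × X) (w d : Fin 3 × Fin P → F2)
    (hd : ∀ a, (∀ v, pairPerm ((blockShift v).viaEmbedding e) t = t → bdry ι σ v a = 0) →
      d a = 0) : mat e ι σ (w + d) t = mat e ι σ w t := by
  obtain ⟨x, y⟩ := t
  have key : ∀ p q, x = e p → y = e q → ∀ c i, ((p.1 = ι (false, i) ∧ q.1 = ι (true, σ c i)) ∨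
      (p.1 = ι (true, σ c i) ∧ q.1 = ι (false, i))) → d (c, i) = 0 := by
    intro p q hp hq c i h
    refine hd (c, i) ?_
    intro v hv
    rw [pairPerm_apply, hp, hq, Perm.viaEmbedding_apply, Perm.viaEmbedding_apply,
      Prod.mk.injEq] at hv
    have h1 : v p.1 = 0 := by
      have := congrArg Prod.snd (e.injective hv.1)
      simpa [blockShift_apply] using this
    have h2 : v q.1 = 0 := by
      have := congrArg Prod.snd (e.injective hv.2)
      simpa [blockShift_apply] using this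
    simp only [bdry, LinearMap.coe_mk, AddHom.coe_mk]
    rcases h with ⟨h3, h4⟩ | ⟨h3, h4⟩ <;> rw [← h3, ← h4, h1, h2, ell_zero, add_zero]
  have h2 : AdjOn e ι σ (w + d) x y ↔ AdjOn e ι σ w x y := by
    constructor
    · rintro ⟨p, q, hp, hq, c, i, h1, h2⟩
      refine ⟨p, q, hp, hq, c, i, ?_, h2⟩
      rw [h1, Pi.add_apply, key p q hp hq c i h2, add_zero]
    · rintro ⟨p, q, hp, hq, c, i, h1, h2⟩
      refine ⟨p, q, hp, hq, c, i, ?_, h2⟩
      rw [h1, Pi.add_apply, key p q hp hq c i h2, add_zero]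
  rw [Bool.eq_iff_iff, mat_true, mat_true, h2]

/-- a padded formula, with fixed guesses -/
theorem foolPad {P m : ℕ} {β X G : Type} [Finite β] {D : Type u} (e : β × K4 ↪ X)
    (C : LCircuit.{0, u} ((X × X) ⊕ G) D) [Finite C.Gate] (hodd : C.OddFields) (inp : Bool → D)
    (act : C.Action fun v : β → K4 =>
      Equiv.sumCongr (pairPerm ((blockShift v).viaEmbedding e)) (Equiv.refl G))
    {κ : ℕ} (hκ : 0 < κ) (hP : 12 * κ ≤ P) (ι : Bool × Fin P ↪ β) (σ : Fin 3 → Perm (Fin P))
    (hσ : ∀ q : Dual F2 (Fin 3 × Fin P → F2), 3 * κ ≤ wt q → wt q < 6 * κ →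
      q.comp (bdry ι σ) ∉
        {ζ : Dual F2 (β → K4) | ∃ ξ ∈ act.special, ∃ η ∈ act.special, ζ = ξ + η})
    (g : Fin m ↪ X) (z : Fin m × Fin m → Bool) (hg : ∀ i, g i ∉ Set.range e) :
    ∃ d : Fin 3 × Fin P → F2, ∑ e, d e = 1 ∧ ∀ w (y : G → D),
      C.eval (Sum.elim (inp ∘ pad e ι σ g z (w + d)) y) C.out =
        C.eval (Sum.elim (inp ∘ pad e ι σ g z w) y) C.out := by
  obtain ⟨d, hd, h⟩ := foolG C hodd _ act hκ hP ι σ hσ
  refine ⟨d, hd, fun w y => ?_⟩
  refine h (fun w => Sum.elim (inp ∘ pad e ι σ g z w) y) ?_ ?_ w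
  · intro w v t
    rcases t with t | t
    · change inp _ = inp _
      rw [pad_shift e ι σ g z hg]
    · rfl
  · intro t w d hd
    rcases t with t | t
    · change inp _ = inp _
      refine congrArg inp ?_
      rw [Bool.eq_iff_iff, pad_true, pad_true, mat_base e ι σ t w d]
      intro a ha
      refine hd a fun v hv => ha v ?_
      exact Sum.inl_injective hv
    · rfl

end Pool.Agent.H5Thr
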