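import Pool.Agent.H5Thr.Stm3

/-!
# The piece JN
-/

set_option autoImplicit false

namespace Pool.Agent.H5Thr

open Module Equiv Pool.Agent.H5Sym Pool.Agent.H5Lin

namespace JN

variable {X : Type}

/-- satisfying assignments -/
def Sa (x : X × X → Bool) (a : X → Bool) : Prop := ∀ p q, x (p, q) = true → a p = true ∨ a q = true

/-- true on `J` -/
def Tr (J : Set X) (a : X → Bool) : Prop := ∀ p ∈ J, a p = true

open Classical in
/-- the assignment with the false variable `j` -/
noncomputable def one (j : X) : X → Bool := fun p => decide (p ≠ j)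

theorem one_inj : Function.Injective (one : X → X → Bool) := by
  intro j j' h
  by_contra hne
  have h1 := congrFun h j
  simp [one, hne] at h1

open Classical in
theorem card1 [Finite X] (x : X × X → Bool) (J : Set X)
    (hx : ∀ p q, x (p, q) = true → p ∉ J ∧ q ∉ J) :
    numSat x = 2 ^ J.ncard * Nat.card {a // Sa x a ∧ Tr J a} := by
  have h0 : Nat.card (J → Bool) = 2 ^ J.ncard := by
    rw [Nat.card_fun, Nat.card_eq_fintype_card (α := Bool), Fintype.card_bool, Set.ncard_def,
      Set.encard, ENat.card_eq_coe_natCard]
    rfl
  rw [← h0, ← Nat.card_prod]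
  refine Nat.card_congr
    { toFun := fun a => (fun j => a.1 j, ⟨fun p => if p ∈ J then true else a.1 p, ?_, ?_⟩)
      invFun := fun s => ⟨fun p => if h : p ∈ J then s.1 ⟨p, h⟩ else s.2.1 p, ?_⟩
      left_inv := ?_
      right_inv := ?_ }
  · intro p q h
    dsimp only
    rw [if_neg (hx p q h).1, if_neg (hx p q h).2]
    exact a.2 p q h
  · intro p hp
    simp [hp]
  · intro p q h
    dsimp only
    rw [dif_neg (hx p q h).1, dif_neg (hx p q h).2]
    exact s.2.2.1 p q h
  · intro a
    refine Subtype.ext (funext fun p => ?_)
    by_cases hp : p ∈ J <;> simp [hp]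
  · rintro ⟨b, a, ha, ha'⟩
    refine Prod.ext ?_ ?_
    · funext j
      simp
    · refine Subtype.ext (funext fun p => ?_)
      by_cases hp : p ∈ J
      · simp [hp, ha' p hp]
      · simp [hp]

open Classical in
theorem main [Finite X] (x : X × X → Bool) (J : Set X)
    (hx : ∀ p q, x (p, q) = true → p ∉ J ∧ q ∉ J) :
    numSat (join x J) = Nat.card {a // Sa x a ∧ Tr J a} + J.ncard := by
  have h1 : {a | Sa (join x J) a} = {a | Sa x a ∧ Tr J a} ∪ one '' J := by
    ext a
    constructor
    · intro h
      by_cases hT : Tr J a
      · refine Or.inl ⟨fun p q hpq => h p q ?_, hT⟩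
        simp [join, hpq]
      · right
        simp only [Tr, not_forall] at hT
        obtain ⟨j, hj, hj'⟩ := hT
        refine ⟨j, hj, funext fun p => ?_⟩
        by_cases hp : p = j
        · subst hp
          simp only [one, ne_eq, not_true_eq_false, decide_false]
          simpa using (Bool.not_eq_true _).mp hj'
        · have h2 := h p j (by simp [join, hp, hj])
          rcases h2 with h2 | h2
          · simp [one, hp, h2]
          · exact absurd h2 hj'
    · rintro (⟨h, hT⟩ | ⟨j, hj, rfl⟩)
      · intro p q hpq
        simp only [join, decide_eq_true_eq] at hpq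
        rcases hpq with hpq | ⟨-, hp | hq⟩
        · exact h p q hpq
        · exact Or.inl (hT p hp)
        · exact Or.inr (hT q hq)
      · intro p q hpq
        simp only [join, decide_eq_true_eq] at hpq
        by_contra hcon
        simp only [one, ne_eq, decide_eq_true_eq, not_or, not_not] at hcon
        obtain ⟨hp, hq⟩ := hcon
        subst hp
        subst hq
        rcases hpq with hpq | ⟨hne, -⟩
        · exact (hx _ _ hpq).1 hj
        · exact hne rfl
  have h2 : Disjoint {a | Sa x a ∧ Tr J a} (one '' J) := by
    rw [Set.disjoint_left]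
    rintro _ ⟨-, h⟩ ⟨j, hj, rfl⟩
    have := h j hj
    simp [one] at this
  have h3 : numSat (join x J) = {a | Sa (join x J) a}.ncard := rfl
  rw [h3, h1, Set.ncard_union_eq h2 (Set.toFinite _) (Set.toFinite _),
    Set.ncard_image_of_injective _ one_inj]
  rfl

end JN

theorem t_JN : S_JN := by
  intro X _ x J hx
  rw [JN.main x J hx, JN.card1 x J hx]
  ring

end Pool.Agent.H5Thr
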