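import Pool.Agent.H5Thr.Stm3

/-!
# The piece JS
-/

set_option autoImplicit false

namespace Pool.Agent.H5Thr

open Module Equiv Pool.Agent.H5Sym Pool.Agent.H5Lin

theorem t_JS : S_JS := by
  classical
  intro P m r β X _ e ι g hg h1 h2
  have hfin : Finite (β × K4) := Finite.of_injective e e.injective
  have hfin' : Finite β := Finite.of_surjective (Prod.fst : β × K4 → β) Prod.fst_surjective
  have hK4 : Nat.card K4 = 4 := by rw [Nat.card_eq_fintype_card]; rfl
  have hι : (Set.range ι).ncard = 2 * P := by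
    rw [← Set.image_univ, Set.ncard_image_of_injective _ ι.injective, Set.ncard_univ,
      Nat.card_eq_fintype_card, Fintype.card_prod, Fintype.card_bool, Fintype.card_fin]
  have he : (Set.range e).ncard = 4 * Nat.card β := by
    rw [← Set.image_univ, Set.ncard_image_of_injective _ e.injective, Set.ncard_univ,
      Nat.card_prod, hK4, mul_comm]
  have hgr : (Set.range g).ncard = m := by
    rw [← Set.image_univ, Set.ncard_image_of_injective _ g.injective, Set.ncard_univ,
      Nat.card_eq_fintype_card, Fintype.card_fin]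
  have hQ : (Set.range ι).ncard + ((Set.range ι)ᶜ).ncard = Nat.card β :=
    Set.ncard_add_ncard_compl _
  have hdis : Disjoint (Set.range e) (Set.range g) := by
    rw [Set.disjoint_left]
    rintro _ h ⟨i, rfl⟩
    exact hg i h
  have hR : (Set.range e ∪ Set.range g).ncard + ((Set.range e ∪ Set.range g)ᶜ).ncard =
      Nat.card X := Set.ncard_add_ncard_compl _
  rw [Set.ncard_union_eq hdis (Set.toFinite _) (Set.toFinite _), he, hgr] at hR
  obtain ⟨a, ha1, ha2⟩ : ∃ a, a ≤ ((Set.range ι)ᶜ).ncard ∧ 4 * a ≤ r ∧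
      r - 4 * a ≤ ((Set.range e ∪ Set.range g)ᶜ).ncard := by
    rcases Nat.le_total (r / 4) ((Set.range ι)ᶜ).ncard with h | h
    · exact ⟨r / 4, h, by omega, by omega⟩
    · exact ⟨((Set.range ι)ᶜ).ncard, le_rfl, by omega, by omega⟩
  obtain ⟨A, hA, hA'⟩ := Set.exists_subset_card_eq ha1
  obtain ⟨B, hB, hB'⟩ := Set.exists_subset_card_eq ha2.2
  have hBe : ∀ p, e p ∉ B := fun p h => hB h (Or.inl ⟨p, rfl⟩)
  refine ⟨(fun p => e p) '' (A ×ˢ Set.univ) ∪ B, ?_, ?_, ?_, ?_⟩
  · have hd : Disjoint ((fun p => e p) '' (A ×ˢ (Set.univ : Set K4))) B := by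
      rw [Set.disjoint_left]
      rintro _ ⟨p, -, rfl⟩ h
      exact hBe p h
    rw [Set.ncard_union_eq hd (Set.toFinite _) (Set.toFinite _),
      Set.ncard_image_of_injective _ e.injective, Set.ncard_prod, Set.ncard_univ, hK4, hA', hB']
    omega
  · rintro i (⟨p, -, h⟩ | h)
    · exact hg i ⟨p, h⟩
    · exact hB h (Or.inr ⟨i, rfl⟩)
  · rintro s k (⟨p, ⟨hp, -⟩, h⟩ | h)
    · have h3 : p = (ι s, k) := e.injective h
      subst h3
      exact hA hp ⟨s, rfl⟩
    · exact hBe _ h
  · rintro b k k' (⟨p, ⟨hp, -⟩, h⟩ | h)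
    · have h3 : p = (b, k) := e.injective h
      subst h3
      exact Or.inl ⟨(b, k'), ⟨hp, Set.mem_univ _⟩, rfl⟩
    · exact absurd h (hBe _)

end Pool.Agent.H5Thr
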