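import Pool.Agent.H5Thr.Stm
import Pool.Agent.H5Thr.Fool

/-!
# Threshold counting: the lower bound, from the pieces EXP, PLC, CNT
-/

set_option autoImplicit false

namespace Pool.Agent.H5Thr

open Module Equiv Pool.Agent.H5Sym Pool.Agent.H5Lin

universe u

theorem thr_num {B κ c t s : ℕ} (hκ : 0 < κ) (ht : κ ≤ c * t) (ht' : t ≤ κ)
    (hB : 2 * t ≤ B) (hs : 0 < s) (h : B.choose t ≤ s ^ 2 * 2 ^ (36 * κ)) :
    B ^ κ ≤ (2 ^ (36 * c + 1) * κ) ^ κ * s ^ 2 ^ (36 * c + 1) := by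
  have h0 : 0 < t := Nat.pos_of_ne_zero (by rintro rfl; simp at ht; omega)
  have h1 : B ^ t ≤ (2 * t) ^ t * B.choose t := by
    calc B ^ t ≤ (2 * (B + 1 - t)) ^ t := Nat.pow_le_pow_left (by omega) t
      _ = 2 ^ t * (B + 1 - t) ^ t := mul_pow _ _ _
      _ ≤ 2 ^ t * B.descFactorial t := Nat.mul_le_mul_left _ (Nat.pow_sub_le_descFactorial B t)
      _ = 2 ^ t * (t.factorial * B.choose t) := by rw [Nat.descFactorial_eq_factorial_mul_choose]
      _ ≤ 2 ^ t * (t ^ t * B.choose t) :=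
          Nat.mul_le_mul_left _ (Nat.mul_le_mul_right _ (Nat.factorial_le_pow t))
      _ = (2 * t) ^ t * B.choose t := by rw [mul_pow, mul_assoc]
  have h2 : B ^ (c * t) ≤ (2 * t) ^ (c * t) * (s ^ 2 * 2 ^ (36 * κ)) ^ c := by
    calc B ^ (c * t) = (B ^ t) ^ c := by rw [mul_comm, pow_mul]
      _ ≤ ((2 * t) ^ t * (s ^ 2 * 2 ^ (36 * κ))) ^ c :=
          Nat.pow_le_pow_left (h1.trans (Nat.mul_le_mul_left _ h)) c
      _ = (2 * t) ^ (c * t) * (s ^ 2 * 2 ^ (36 * κ)) ^ c := by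
          rw [mul_pow, ← pow_mul, mul_comm t c]
  obtain ⟨r, hr⟩ := Nat.exists_eq_add_of_le ht
  have h3 : B ^ κ ≤ (2 * t) ^ κ * (s ^ 2 * 2 ^ (36 * κ)) ^ c := by
    have hBr : 0 < B ^ r := pow_pos (by omega) r
    refine Nat.le_of_mul_le_mul_right ?_ hBr
    calc B ^ κ * B ^ r = B ^ (c * t) := by rw [hr, pow_add]
      _ ≤ (2 * t) ^ (c * t) * (s ^ 2 * 2 ^ (36 * κ)) ^ c := h2
      _ = (2 * t) ^ κ * (s ^ 2 * 2 ^ (36 * κ)) ^ c * (2 * t) ^ r := by rw [hr, pow_add]; ring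
      _ ≤ (2 * t) ^ κ * (s ^ 2 * 2 ^ (36 * κ)) ^ c * B ^ r :=
          Nat.mul_le_mul_left _ (Nat.pow_le_pow_left hB r)
  calc B ^ κ ≤ (2 * t) ^ κ * (s ^ 2 * 2 ^ (36 * κ)) ^ c := h3
    _ ≤ (2 * κ) ^ κ * (s ^ 2 * 2 ^ (36 * κ)) ^ c :=
        Nat.mul_le_mul_right _ (Nat.pow_le_pow_left (by omega) κ)
    _ = (2 ^ (36 * c + 1) * κ) ^ κ * s ^ (2 * c) := by
        rw [mul_pow (s ^ 2), ← pow_mul s, ← pow_mul 2, mul_pow 2 κ, mul_pow _ κ κ, ← pow_mul 2 (36 * c + 1)]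
        have : 2 ^ ((36 * c + 1) * κ) = 2 ^ κ * 2 ^ (36 * κ * c) := by
          rw [← pow_add]; congr 1; ring
        rw [this]; ring
    _ ≤ (2 ^ (36 * c + 1) * κ) ^ κ * s ^ 2 ^ (36 * c + 1) := by
        refine Nat.mul_le_mul_left _ (Nat.pow_le_pow_right hs ?_)
        have h4 : c < 2 ^ c := Nat.lt_two_pow_self
        have h5 : 2 ^ (c + 1) ≤ 2 ^ (36 * c + 1) := Nat.pow_le_pow_right (by norm_num) (by omega)
        rw [pow_succ] at h5
        omega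

theorem thr_low (hE : S_EXP) (hP : S_PLC) (hC : S_CNT) :
    ∃ c : ℕ, 0 < c ∧ ∀ (β X : Type) [Finite X] (e : β × K4 ↪ X) (κ : ℕ), c ≤ κ →
      c * κ ≤ Nat.card β → ∃ T : ℕ, 2 ^ Nat.card X ≤ T * 2 ^ (96 * κ) ∧
        ∀ (D : Type u) (C : LCircuit.{0, u} (X × X) D) [Finite C.Gate], C.OddFields →
          ∀ (inp : Bool → D) (acc : D → Prop),
            Nonempty (C.Action fun v : β → K4 => pairPerm ((blockShift v).viaEmbedding e)) →
            (∀ x, Bipartite6 x → (acc (C.eval (inp ∘ x) C.out) ↔ T ≤ numSat x)) →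
            Nat.card β ^ κ ≤ (c * κ) ^ κ * C.size ^ c := by
  classical
  obtain ⟨c, hc, h⟩ := hE
  refine ⟨2 ^ (36 * c + 1), by positivity, ?_⟩
  intro β X _ e κ hκ hκβ
  have hfin : Finite (β × K4) := Finite.of_injective e e.injective
  have hfin' : Finite β := Finite.of_surjective (Prod.fst : β × K4 → β) Prod.fst_surjective
  have : Fintype β := Fintype.ofFinite β
  have hc2 : 2 * c ≤ 2 ^ (36 * c + 1) := by
    have h4 : c < 2 ^ c := Nat.lt_two_pow_self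
    have h5 : 2 ^ (c + 1) ≤ 2 ^ (36 * c + 1) := Nat.pow_le_pow_right (by norm_num) (by omega)
    rw [pow_succ] at h5
    omega
  have hc48 : 48 ≤ 2 ^ (36 * c + 1) := by
    have h5 : 2 ^ 37 ≤ 2 ^ (36 * c + 1) := Nat.pow_le_pow_right (by norm_num) (by omega)
    exact le_trans (by norm_num) h5
  have hκ0 : 0 < κ := by omega
  have hβ48 : 48 * κ ≤ Nat.card β := (Nat.mul_le_mul_right κ hc48).trans hκβ
  obtain ⟨σ, hσ⟩ := h κ (by omega)
  -- the number of blocks in the support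
  obtain ⟨t, ht1, ht2⟩ : ∃ t, κ ≤ c * t ∧ c * t < κ + c := by
    refine ⟨(κ + c - 1) / c, ?_, ?_⟩
    · have := Nat.div_add_mod (κ + c - 1) c
      have := Nat.mod_lt (κ + c - 1) hc
      omega
    · have := Nat.mul_div_le (κ + c - 1) c
      omega
  have htκ : t ≤ κ := by
    by_contra hcon
    push Not at hcon
    have h6 : c * (κ + 1) ≤ c * t := Nat.mul_le_mul_left c hcon
    have h7 : c * (κ + 1) = c * κ + c := by ring
    have h8 : κ ≤ c * κ := Nat.le_mul_of_pos_left κ hc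
    omega
  obtain ⟨ι₀⟩ : Nonempty (Bool × Fin (12 * κ) ↪ β) := by
    refine Function.Embedding.nonempty_of_card_le ?_
    rw [Fintype.card_prod, Fintype.card_bool, Fintype.card_fin, ← Nat.card_eq_fintype_card]
    omega
  refine ⟨numSat (mat e ι₀ σ 1), ?_, ?_⟩
  · have h9 := (hC (12 * κ) β X e ι₀ ι₀ σ).2
    rwa [show 8 * (12 * κ) = 96 * κ by ring] at h9
  intro D C _ hodd inp acc ⟨act⟩ hacc
  have hs : 0 < C.size := Nat.add_pos_left (Nat.card_pos_iff.2 ⟨⟨C.out⟩, inferInstance⟩) _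
  refine thr_num hκ0 ht1 htκ (by omega) hs ?_
  by_contra hcon
  push Not at hcon
  obtain ⟨ι, hι⟩ := hP β (12 * κ) κ t σ (by omega) (fun q h1 h2 => by
      have h3 := hσ q h1 h2
      by_contra h4
      push Not at h4
      have h5 : c * (csup (q.comp (bdry (idn (12 * κ)) σ)) + 1) ≤ c * t := Nat.mul_le_mul_left c h4
      have h6 : c * (csup (q.comp (bdry (idn (12 * κ)) σ)) + 1) =
        c * csup (q.comp (bdry (idn (12 * κ)) σ)) + c := by ring
      omega)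
    {ζ : Dual F2 (β → K4) | ∃ ξ ∈ act.special, ∃ η ∈ act.special, ζ = ξ + η} (by
      refine lt_of_le_of_lt (Nat.mul_le_mul_right _ (sums_card act)) ?_
      rwa [show 3 * (12 * κ) = 36 * κ by ring])
  obtain ⟨d, hd, h⟩ := fool e C hodd inp act hκ0 le_rfl ι σ hι
  have h1 := (hacc _ (bipartite6_mat e ι σ 1)).2 (hC (12 * κ) β X e ι₀ ι σ).1.le
  rw [← h 1] at h1
  have h2 := (hacc _ (bipartite6_mat e ι σ (1 + d))).1 h1
  rw [(hC (12 * κ) β X e ι₀ ι σ).1] at h2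
  exact absurd h2 (not_le.2 (numSat_lt e ι σ d hd))

end Pool.Agent.H5Thr
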