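import Mathlib

/-!
# Threshold counting: the choice of the number of solutions of the pad
-/

set_option autoImplicit false

namespace Pool.Agent.H5Thr

theorem choose_M {n t κ s T m : ℕ} (hκ : 0 < κ) (h400 : 400 * κ ≤ t) (h800 : t ≤ 800 * κ)
    (hm : m + 192 * κ + 2 = 2 * t) (hT1 : 2 ^ n ≤ T * 2 ^ t) (hT2 : T * 2 ^ t < 2 ^ (n + 1))
    (hs0 : 0 < s) (hs1 : s ≤ 2 ^ (96 * κ)) :
    ∃ M, 0 < M ∧ M * M ≤ 2 ^ m ∧ ∀ N, M ≤ N → N ≤ M + m →
      T * 2 ^ (96 * κ + m) ≤ s * N * 2 ^ n ∧ (s - 1) * N * 2 ^ n < T * 2 ^ (96 * κ + m) := by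
  have hT0 : 0 < T := by
    rcases Nat.eq_zero_or_pos T with rfl | h
    · rw [zero_mul] at hT1
      have : 0 < 2 ^ n := by positivity
      omega
    · exact h
  have hA : 0 < T * 2 ^ (96 * κ + m) := by positivity
  have hB : 0 < s * 2 ^ n := by positivity
  obtain ⟨M', h1, h2⟩ : ∃ M', M' * (s * 2 ^ n) < T * 2 ^ (96 * κ + m) ∧
      T * 2 ^ (96 * κ + m) ≤ (M' + 1) * (s * 2 ^ n) := by
    refine ⟨(T * 2 ^ (96 * κ + m) - 1) / (s * 2 ^ n), ?_, ?_⟩
    · have := Nat.div_mul_le_self (T * 2 ^ (96 * κ + m) - 1) (s * 2 ^ n)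
      omega
    · have := Nat.lt_div_mul_add hB (a := T * 2 ^ (96 * κ + m) - 1)
      rw [add_mul, one_mul]
      omega
  refine ⟨M' + 1, Nat.succ_pos _, ?_, ?_⟩
  · have hr : M' < 2 ^ (96 * κ + m + 1 - t) := by
      have h3 : M' * 2 ^ n * 2 ^ t < 2 ^ (96 * κ + m + 1 - t) * (2 ^ n * 2 ^ t) := by
        calc M' * 2 ^ n * 2 ^ t ≤ M' * (s * 2 ^ n) * 2 ^ t := by
              refine Nat.mul_le_mul_right _ (Nat.mul_le_mul_left _ ?_)
              exact Nat.le_mul_of_pos_left _ hs0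
          _ < T * 2 ^ (96 * κ + m) * 2 ^ t := Nat.mul_lt_mul_of_pos_right h1 (by positivity)
          _ = T * 2 ^ t * 2 ^ (96 * κ + m) := by ring
          _ ≤ 2 ^ (n + 1) * 2 ^ (96 * κ + m) := Nat.mul_le_mul_right _ hT2.le
          _ = 2 ^ (96 * κ + m + 1 - t) * (2 ^ n * 2 ^ t) := by
              rw [← pow_add, ← pow_add, ← pow_add]
              congr 1
              omega
      rw [mul_assoc] at h3
      exact Nat.lt_of_mul_lt_mul_right h3
    calc (M' + 1) * (M' + 1) ≤ 2 ^ (96 * κ + m + 1 - t) * 2 ^ (96 * κ + m + 1 - t) :=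
          Nat.mul_le_mul hr hr
      _ = 2 ^ m := by
          rw [← pow_add]
          congr 1
          omega
  · have h3 : s * (m + 1) ≤ M' + 1 := by
      by_contra hcon
      push Not at hcon
      have h4 : (M' + 1) * (s * 2 ^ n) < s * (m + 1) * (s * 2 ^ n) :=
        Nat.mul_lt_mul_of_pos_right hcon hB
      have h5 : m + 1 ≤ 2 ^ (110 * κ) := by
        have h6 : κ < 2 ^ κ := Nat.lt_two_pow_self
        have h7 : (1600 : ℕ) ≤ 2 ^ (109 * κ) :=
          le_trans (by norm_num) (Nat.pow_le_pow_right (by norm_num) (show 11 ≤ 109 * κ by omega))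
        calc m + 1 ≤ 1600 * κ := by omega
          _ ≤ 2 ^ (109 * κ) * 2 ^ κ := Nat.mul_le_mul h7 h6.le
          _ = 2 ^ (110 * κ) := by rw [← pow_add]; congr 1; ring
      have h8 : 2 ^ n * 2 ^ (96 * κ + m) < 2 ^ n * 2 ^ (96 * κ + m) := by
        calc 2 ^ n * 2 ^ (96 * κ + m) ≤ T * 2 ^ t * 2 ^ (96 * κ + m) := Nat.mul_le_mul_right _ hT1
          _ = T * 2 ^ (96 * κ + m) * 2 ^ t := by ring
          _ < s * (m + 1) * (s * 2 ^ n) * 2 ^ t :=
              Nat.mul_lt_mul_of_pos_right (h2.trans_lt h4) (by positivity)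
          _ ≤ 2 ^ (96 * κ) * 2 ^ (110 * κ) * (2 ^ (96 * κ) * 2 ^ n) * 2 ^ t := by
              gcongr
          _ = 2 ^ n * 2 ^ (302 * κ + t) := by
              rw [← pow_add, ← pow_add, ← pow_add, ← pow_add, ← pow_add]
              congr 1
              ring
          _ ≤ 2 ^ n * 2 ^ (96 * κ + m) :=
              Nat.mul_le_mul_left _ (Nat.pow_le_pow_right (by norm_num) (by omega))
      exact lt_irrefl _ h8
    intro N hN1 hN2
    constructor
    · refine h2.trans ?_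
      calc (M' + 1) * (s * 2 ^ n) ≤ N * (s * 2 ^ n) := Nat.mul_le_mul_right _ hN1
        _ = s * N * 2 ^ n := by ring
    · refine lt_of_le_of_lt ?_ h1
      obtain ⟨r, rfl⟩ : ∃ r, s = r + 1 := ⟨s - 1, by omega⟩
      rw [Nat.add_sub_cancel]
      have h9 : r * N ≤ M' * (r + 1) := by
        calc r * N ≤ r * (M' + 1 + m) := Nat.mul_le_mul_left _ hN2
          _ = r * M' + r * (m + 1) := by ring
          _ ≤ r * M' + M' := by
              refine Nat.add_le_add_left ?_ _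
              have h10 : (r + 1) * (m + 1) = r * (m + 1) + (m + 1) := by ring
              rw [h10] at h3
              omega
          _ = M' * (r + 1) := by ring
      calc r * N * 2 ^ n ≤ M' * (r + 1) * 2 ^ n := Nat.mul_le_mul_right _ h9
        _ = M' * ((r + 1) * 2 ^ n) := by ring

theorem raise {B K s a r κ t : ℕ} (h : B ^ κ ≤ K ^ κ * s ^ a) (hK : K ≤ B) (hB : 0 < B)
    (ht : t ≤ r * κ) : B ^ t ≤ K ^ t * s ^ (r * a) := by
  obtain ⟨u, hu⟩ := Nat.exists_eq_add_of_le ht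
  refine Nat.le_of_mul_le_mul_right ?_ (pow_pos hB u)
  calc B ^ t * B ^ u = (B ^ κ) ^ r := by rw [← pow_add, ← hu, ← pow_mul, mul_comm]
    _ ≤ (K ^ κ * s ^ a) ^ r := Nat.pow_le_pow_left h r
    _ = K ^ t * K ^ u * s ^ (r * a) := by
        rw [mul_pow, ← pow_mul, ← pow_mul, ← pow_add, ← hu, mul_comm κ r, mul_comm a r]
    _ ≤ K ^ t * B ^ u * s ^ (r * a) :=
        Nat.mul_le_mul_right _ (Nat.mul_le_mul_left _ (Nat.pow_le_pow_left hK u))
    _ = K ^ t * s ^ (r * a) * B ^ u := by ring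

end Pool.Agent.H5Thr
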