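import Pool.Agent.H5Thr.Low
import Pool.Agent.H5Thr.Fool2
import Pool.Agent.H5Thr.Num2
import Pool.Agent.H5Lin.Fool

/-!
# Threshold counting: the lower bound for every threshold, from the pieces EXP, PLC, NUM, PRD
-/

set_option autoImplicit false

namespace Pool.Agent.H5Thr

open Module Equiv Pool.Agent.H5Sym Pool.Agent.H5Lin

universe u

open Classical in
/-- extension by zero -/
noncomputable def extB {β β' : Type} (j : β' ↪ β) : (β' → K4) →+ (β → K4) where
  toFun v := Function.extend j v 0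
  map_zero' := by
    funext b
    by_cases hb : ∃ a, j a = b
    · obtain ⟨a, rfl⟩ := hb
      rw [j.injective.extend_apply]
      rfl
    · rw [Function.extend_apply' _ _ _ hb]
  map_add' u v := by
    funext b
    by_cases hb : ∃ a, j a = b
    · obtain ⟨a, rfl⟩ := hb
      rw [Pi.add_apply, j.injective.extend_apply, j.injective.extend_apply,
        j.injective.extend_apply]
      rfl
    · rw [Pi.add_apply, Function.extend_apply' _ _ _ hb, Function.extend_apply' _ _ _ hb,
        Function.extend_apply' _ _ _ hb]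
      exact (add_zero _).symm

theorem extB_apply {β β' : Type} (j : β' ↪ β) (v : β' → K4) (a : β') : extB j v (j a) = v a :=
  j.injective.extend_apply _ _ _

theorem extB_apply' {β β' : Type} (j : β' ↪ β) (v : β' → K4) (b : β) (hb : ¬ ∃ a, j a = b) :
    extB j v b = 0 := by
  change Function.extend j v 0 b = 0
  rw [Function.extend_apply' _ _ _ hb]
  rfl

/-- the embedding of the remaining blocks -/
def sub {β β' X : Type} (e : β × K4 ↪ X) (j : β' ↪ β) : β' × K4 ↪ X :=
  (Function.Embedding.prodMap j (Function.Embedding.refl K4)).trans e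

theorem sub_apply {β β' X : Type} (e : β × K4 ↪ X) (j : β' ↪ β) (a : β') (k : K4) :
    sub e j (a, k) = e (j a, k) := rfl

theorem shift_sub {β β' X : Type} (e : β × K4 ↪ X) (j : β' ↪ β) (v : β' → K4) :
    (blockShift (extB j v)).viaEmbedding e = (blockShift v).viaEmbedding (sub e j) := by
  ext x
  by_cases hx : x ∈ Set.range e
  · obtain ⟨⟨b, k⟩, rfl⟩ := hx
    rw [Perm.viaEmbedding_apply, blockShift_apply]
    by_cases hb : ∃ a, j a = b
    · obtain ⟨a, rfl⟩ := hb
      rw [← sub_apply e j a k, Perm.viaEmbedding_apply, blockShift_apply, sub_apply, extB_apply]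
    · rw [Perm.viaEmbedding_apply_of_notMem, extB_apply' _ _ _ hb]
      · simp
      · rintro ⟨⟨a, k'⟩, h⟩
        rw [sub_apply] at h
        exact hb ⟨a, congrArg Prod.fst (e.injective h)⟩
  · rw [Perm.viaEmbedding_apply_of_notMem _ _ _ hx, Perm.viaEmbedding_apply_of_notMem]
    rintro ⟨⟨a, k'⟩, h⟩
    exact hx ⟨_, h⟩

theorem numSat_pos {X : Type} [Finite X] (x : X × X → Bool) : 0 < numSat x := by
  refine Nat.card_pos_iff.2 ⟨⟨⟨fun _ => true, fun p q _ => Or.inl rfl⟩⟩, ?_⟩
  exact Subtype.finite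

theorem numSat_le {X : Type} [Finite X] (x : X × X → Bool) : numSat x ≤ 2 ^ Nat.card X := by
  have h : Nat.card (X → Bool) = 2 ^ Nat.card X := by
    rw [Nat.card_fun, Nat.card_eq_fintype_card, Fintype.card_bool]
  rw [← h]
  exact Nat.card_le_card_of_injective _ Subtype.val_injective

theorem thr_low2 (hE : S_EXP) (hP : S_PLC) (hN : S_NUM) (hR : S_PRD) :
    ∃ c : ℕ, 0 < c ∧ ∀ (β X : Type) [Finite X] (e : β × K4 ↪ X) (t T : ℕ), c ≤ t →
      c * t ≤ Nat.card β → 2 ^ Nat.card X ≤ T * 2 ^ t → T * 2 ^ t < 2 ^ (Nat.card X + 1) →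
      ∀ (G : Type) (D : Type u) (C : LCircuit.{0, u} ((X × X) ⊕ G) D) [Finite C.Gate],
        C.OddFields → ∀ (inp : Bool → D) (acc : ((G → D) → D) → Prop),
        Nonempty (C.Action fun v : β → K4 =>
          Equiv.sumCongr (pairPerm ((blockShift v).viaEmbedding e)) (Equiv.refl G)) →
        (∀ x : X × X → Bool, (∀ p q, x (p, q) = x (q, p)) → (∀ p, x (p, p) = false) →
          (acc (fun y => C.eval (Sum.elim (inp ∘ x) y) C.out) ↔ T ≤ numSat x)) →
        Nat.card β ^ t ≤ (c * t) ^ t * C.size ^ c := by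
  classical
  obtain ⟨c, hc, h⟩ := hE
  set c₂ := 2 ^ (36 * c + 1) with hc₂
  have hc2 : 2 * c ≤ c₂ := by
    have h4 : c < 2 ^ c := Nat.lt_two_pow_self
    have h5 : 2 ^ (c + 1) ≤ 2 ^ (36 * c + 1) := Nat.pow_le_pow_right (by norm_num) (by omega)
    rw [pow_succ] at h5
    omega
  have hc48 : 48 ≤ c₂ := by
    have h5 : 2 ^ 37 ≤ 2 ^ (36 * c + 1) := Nat.pow_le_pow_right (by norm_num) (by omega)
    exact le_trans (by norm_num) h5
  refine ⟨800 * c₂, by positivity, ?_⟩
  intro β X _ e t T ht htβ hT1 hT2 G D C _ hodd inp acc ⟨act⟩ hacc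
  have hfin : Finite (β × K4) := Finite.of_injective e e.injective
  have hfin' : Finite β := Finite.of_surjective (Prod.fst : β × K4 → β) Prod.fst_surjective
  have : Fintype β := Fintype.ofFinite β
  -- the parameters
  obtain ⟨κ, hκ1, hκ2⟩ : ∃ κ, 400 * κ ≤ t ∧ t < 400 * κ + 400 := ⟨t / 400, by omega, by omega⟩
  have hκc : c ≤ κ := by omega
  have hκ0 : 0 < κ := by omega
  obtain ⟨m, hm⟩ : ∃ m, m + 192 * κ + 2 = 2 * t := ⟨2 * t - 192 * κ - 2, by omega⟩
  have hβt : 800 * c₂ * t = 800 * (c₂ * t) := by ring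
  have hct : 48 * t ≤ c₂ * t := Nat.mul_le_mul_right t hc48
  obtain ⟨B', hB'⟩ : ∃ B', B' + m = Nat.card β := ⟨Nat.card β - m, by omega⟩
  obtain ⟨σ, hσ⟩ := h κ hκc
  obtain ⟨t', ht1, ht2⟩ : ∃ t', κ ≤ c * t' ∧ c * t' < κ + c := by
    refine ⟨(κ + c - 1) / c, ?_, ?_⟩
    · have := Nat.div_add_mod (κ + c - 1) c
      have := Nat.mod_lt (κ + c - 1) hc
      omega
    · have := Nat.mul_div_le (κ + c - 1) c
      omega
  have htκ : t' ≤ κ := by
    by_contra hcon
    push Not at hcon
    have h6 : c * (κ + 1) ≤ c * t' := Nat.mul_le_mul_left c hcon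
    have h7 : c * (κ + 1) = c * κ + c := by ring
    have h8 : κ ≤ c * κ := Nat.le_mul_of_pos_left κ hc
    omega
  -- the blocks
  obtain ⟨E⟩ : Nonempty (β ≃ Fin B' ⊕ Fin m) := by
    refine ⟨Fintype.equivOfCardEq ?_⟩
    rw [Fintype.card_sum, Fintype.card_fin, Fintype.card_fin, hB', Nat.card_eq_fintype_card]
  let j : Fin B' ↪ β := ⟨fun i => E.symm (Sum.inl i), fun a b hab => by
    simpa using E.symm.injective hab⟩
  let g : Fin m ↪ X := ⟨fun i => e (E.symm (Sum.inr i), 0), fun a b hab => by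
    have := congrArg Prod.fst (e.injective hab)
    simpa using E.symm.injective this⟩
  have hg : ∀ i, g i ∉ Set.range (sub e j) := by
    rintro i ⟨⟨a, k⟩, h⟩
    have h1 : e (j a, k) = e (E.symm (Sum.inr i), 0) := h
    have h2 := E.symm.injective (congrArg Prod.fst (e.injective h1))
    simp at h2
  let act' : C.Action fun v : Fin B' → K4 =>
      Equiv.sumCongr (pairPerm ((blockShift v).viaEmbedding (sub e j))) (Equiv.refl G) := by
    have h1 := act.comap (extB j)
    have h2 : (fun v : Fin B' → K4 =>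
        Equiv.sumCongr (pairPerm ((blockShift (extB j v)).viaEmbedding e)) (Equiv.refl G)) =
        fun v : Fin B' → K4 =>
        Equiv.sumCongr (pairPerm ((blockShift v).viaEmbedding (sub e j))) (Equiv.refl G) := by
      funext v
      rw [shift_sub]
    exact h2 ▸ h1
  -- the pad
  have hcore : Nat.card ((Bool × Fin (12 * κ)) × K4) = 96 * κ := by
    rw [Nat.card_prod, Nat.card_prod, Nat.card_eq_fintype_card, Nat.card_eq_fintype_card,
      Fintype.card_bool, Fintype.card_fin]
    have : Nat.card K4 = 4 := by rw [Nat.card_eq_fintype_card]; rfl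
    rw [this]
    ring
  obtain ⟨M, hM0, hM1, hM2⟩ := choose_M hκ0 hκ1 (show t ≤ 800 * κ by omega) hm hT1 hT2
    (numSat_pos (core σ 1)) (by
      have := numSat_le (core σ (1 : Fin 3 × Fin (12 * κ) → F2))
      rwa [hcore] at this)
  obtain ⟨z, hz1, hz2, hz3, hz4⟩ := hN m M hM0 hM1
  obtain ⟨hM3, hM4⟩ := hM2 _ hz3 hz4
  have hs : 0 < C.size := Nat.add_pos_left (Nat.card_pos_iff.2 ⟨⟨C.out⟩, inferInstance⟩) _
  have hpos : 0 < 2 ^ (96 * κ + m) := by positivity
  -- the lower bound for the remaining blocks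
  have key : B' ^ κ ≤ (c₂ * κ) ^ κ * C.size ^ c₂ := by
    refine thr_num hκ0 ht1 htκ (by omega) hs ?_
    by_contra hcon
    push Not at hcon
    have hBc : Nat.card (Fin B') = B' := by simp
    obtain ⟨ι, hι⟩ := hP (Fin B') (12 * κ) κ t' σ (by rw [hBc]; omega) (fun q h1 h2 => by
        have h3 := hσ q h1 h2
        by_contra h4
        push Not at h4
        have h5 : c * (csup (q.comp (bdry (idn (12 * κ)) σ)) + 1) ≤ c * t' :=
          Nat.mul_le_mul_left c h4
        have h6 : c * (csup (q.comp (bdry (idn (12 * κ)) σ)) + 1) =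
          c * csup (q.comp (bdry (idn (12 * κ)) σ)) + c := by ring
        omega)
      {ζ : Dual F2 (Fin B' → K4) | ∃ ξ ∈ act'.special, ∃ η ∈ act'.special, ζ = ξ + η} (by
        refine lt_of_le_of_lt (Nat.mul_le_mul_right _ (sums_card act')) ?_
        rw [hBc]
        rwa [show 3 * (12 * κ) = 36 * κ by ring])
    obtain ⟨d, hd, hfool⟩ := foolPad (sub e j) C hodd inp act' hκ0 le_rfl ι σ hι g z hg
    have hsymm : ∀ w, (∀ p q, pad (sub e j) ι σ g z w (p, q) = pad (sub e j) ι σ g z w (q, p)) ∧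
        ∀ p, pad (sub e j) ι σ g z w (p, p) = false := by
      intro w
      have hb := bipartite6_mat (sub e j) ι σ w
      constructor
      · intro p q
        rw [Bool.eq_iff_iff, pad_true, pad_true, hb.symm p q]
        constructor
        · rintro (h1 | ⟨i, k, h1, h2⟩)
          · exact Or.inl h1
          · rw [Prod.mk.injEq] at h1
            exact Or.inr ⟨k, i, Prod.ext h1.2 h1.1, by rwa [hz1]⟩
        · rintro (h1 | ⟨i, k, h1, h2⟩)
          · exact Or.inl h1
          · rw [Prod.mk.injEq] at h1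
            exact Or.inr ⟨k, i, Prod.ext h1.2 h1.1, by rwa [hz1]⟩
      · intro p
        rw [← Bool.not_eq_true, pad_true]
        rintro (h1 | ⟨i, k, h1, h2⟩)
        · obtain ⟨side, hside⟩ := hb.bipartite
          exact hside p p h1 rfl
        · rw [Prod.mk.injEq] at h1
          have h3 : i = k := g.injective (h1.1.symm.trans h1.2)
          subst h3
          rw [hz2] at h2
          exact Bool.false_ne_true h2
    have hR1 := hR (12 * κ) m (Fin B') X (sub e j) ι σ g z 1 hg
    have hR2 := hR (12 * κ) m (Fin B') X (sub e j) ι σ g z (1 + d) hg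
    rw [show 8 * (12 * κ) = 96 * κ by ring] at hR1 hR2
    have h1 : T ≤ numSat (pad (sub e j) ι σ g z 1) := by
      rw [← hR1] at hM3
      exact Nat.le_of_mul_le_mul_right hM3 hpos
    have h2 := (hacc _ (hsymm 1).1 (hsymm 1).2).2 h1
    rw [← funext fun y => hfool 1 y] at h2
    have h3 := (hacc _ (hsymm (1 + d)).1 (hsymm (1 + d)).2).1 h2
    have h4 : numSat (core σ (1 + d)) < numSat (core σ 1) :=
      numSat_lt (Function.Embedding.refl ((Bool × Fin (12 * κ)) × K4)) (idn (12 * κ)) σ d hd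
    have h5 : numSat (core σ (1 + d)) * numSat z * 2 ^ Nat.card X ≤
        (numSat (core σ 1) - 1) * numSat z * 2 ^ Nat.card X := by
      refine Nat.mul_le_mul_right _ (Nat.mul_le_mul_right _ ?_)
      omega
    rw [← hR2] at h5
    exact absurd (Nat.lt_of_mul_lt_mul_right (h5.trans_lt hM4)) (not_lt.2 h3)
  -- from κ to t
  have hK : c₂ * κ ≤ B' := by
    have h1 : c₂ * κ ≤ c₂ * t := Nat.mul_le_mul_left _ (by omega)
    omega
  have h1 := raise key hK (by omega) (show t ≤ 800 * κ by omega)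
  calc Nat.card β ^ t ≤ (2 * B') ^ t := Nat.pow_le_pow_left (by omega) t
    _ = 2 ^ t * B' ^ t := mul_pow _ _ _
    _ ≤ 2 ^ t * ((c₂ * κ) ^ t * C.size ^ (800 * c₂)) := Nat.mul_le_mul_left _ h1
    _ = (2 * (c₂ * κ)) ^ t * C.size ^ (800 * c₂) := by rw [mul_pow 2 (c₂ * κ), mul_assoc]
    _ ≤ (800 * c₂ * t) ^ t * C.size ^ (800 * c₂) := by
        refine Nat.mul_le_mul_right _ (Nat.pow_le_pow_left ?_ t)
        have h2 : c₂ * κ ≤ c₂ * t := Nat.mul_le_mul_left _ (by omega)
        omega

end Pool.Agent.H5Thr
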