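import Mathlib

/-!
# Threshold counting: the choice of the parameters for an arbitrary threshold
-/

set_option autoImplicit false

namespace Pool.Agent.H5Thr

theorem choose_M2 {n t κ s T : ℕ} (hκ : 0 < κ) (h800 : 800 * κ ≤ t) (hT1 : n + 2 ^ t ≤ T)
    (hT2 : T * 2 ^ t ≤ 2 ^ n) (hs0 : 0 < s) (hs1 : s ≤ 2 ^ (96 * κ)) :
    ∃ r f M, 1096 * κ + r + f = n ∧ 0 < M ∧ M * M ≤ 2 ^ (1000 * κ) ∧
      ∀ N, M ≤ N → N ≤ M + 1000 * κ →
        T ≤ s * N * 2 ^ f + r ∧ ((s - 1) * N * 2 ^ f + r) * 2 ^ t + (T - n) ≤ T * 2 ^ t := by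
  have h2t : 0 < 2 ^ t := by positivity
  obtain ⟨S, hS⟩ : ∃ S, S + n = T := ⟨T - n, by omega⟩
  have hS0 : S ≠ 0 := by omega
  set L := Nat.log 2 S with hL
  have hL1 : 2 ^ L ≤ S := Nat.pow_log_le_self 2 hS0
  have hL2 : S < 2 ^ (L + 1) := Nat.lt_pow_succ_log_self (by norm_num) S
  have hLt : t ≤ L := by
    have : 2 ^ t ≤ S := by omega
    rw [hL]
    exact (Nat.le_log_iff_pow_le (by norm_num) hS0).2 this
  have hLn : L + t ≤ n := by
    have h1 : 2 ^ (L + t) ≤ 2 ^ n := by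
      calc 2 ^ (L + t) = 2 ^ L * 2 ^ t := pow_add _ _ _
        _ ≤ T * 2 ^ t := Nat.mul_le_mul_right _ (by omega)
        _ ≤ 2 ^ n := hT2
    exact (Nat.pow_le_pow_iff_right (by norm_num)).1 h1
  obtain ⟨f, hf⟩ : ∃ f, f + 300 * κ = L := ⟨L - 300 * κ, by omega⟩
  obtain ⟨r, hr⟩ : ∃ r, 1096 * κ + r + f = n := ⟨n - f - 1096 * κ, by omega⟩
  obtain ⟨T', hT'⟩ : ∃ T', T' + r = T := ⟨T - r, by omega⟩
  have h2L : 2 * L ≤ 2 ^ L := by
    obtain ⟨l, hl⟩ : ∃ l, L = l + 1 := ⟨L - 1, by omega⟩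
    rw [hl, pow_succ]
    have : l < 2 ^ l := Nat.lt_two_pow_self
    omega
  have hT'1 : 2 ^ L ≤ T' := by omega
  have hT'2 : T' < 2 ^ (L + 2) := by
    rw [pow_succ] at hL2 ⊢
    rw [pow_succ]
    omega
  have hB : 0 < s * 2 ^ f := by positivity
  obtain ⟨M', h1, h2⟩ : ∃ M', M' * (s * 2 ^ f) < T' ∧ T' ≤ (M' + 1) * (s * 2 ^ f) := by
    refine ⟨(T' - 1) / (s * 2 ^ f), ?_, ?_⟩
    · have := Nat.div_mul_le_self (T' - 1) (s * 2 ^ f)
      have : 0 < 2 ^ L := by positivity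
      omega
    · have := Nat.lt_div_mul_add hB (a := T' - 1)
      rw [add_mul, one_mul]
      omega
  have h2f : 0 < 2 ^ f := by positivity
  refine ⟨r, f, M' + 1, hr, Nat.succ_pos _, ?_, ?_⟩
  · have hr' : M' < 2 ^ (300 * κ + 2) := by
      have h3 : M' * 2 ^ f < 2 ^ (300 * κ + 2) * 2 ^ f := by
        calc M' * 2 ^ f ≤ M' * (s * 2 ^ f) :=
              Nat.mul_le_mul_left _ (Nat.le_mul_of_pos_left _ hs0)
          _ < T' := h1
          _ < 2 ^ (L + 2) := hT'2
          _ = 2 ^ (300 * κ + 2) * 2 ^ f := by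
              rw [← pow_add]; congr 1; omega
      exact Nat.lt_of_mul_lt_mul_right h3
    calc (M' + 1) * (M' + 1) ≤ 2 ^ (300 * κ + 2) * 2 ^ (300 * κ + 2) := Nat.mul_le_mul hr' hr'
      _ = 2 ^ (300 * κ + 2 + (300 * κ + 2)) := by rw [← pow_add]
      _ ≤ 2 ^ (1000 * κ) := Nat.pow_le_pow_right (by norm_num) (by omega)
  · have h3 : 2 * (s * (1000 * κ + 1)) ≤ M' + 1 := by
      by_contra hcon
      push Not at hcon
      have h4 : (M' + 1) * (s * 2 ^ f) < 2 * (s * (1000 * κ + 1)) * (s * 2 ^ f) :=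
        Nat.mul_lt_mul_of_pos_right hcon hB
      have h5 : 2 * (1000 * κ + 1) ≤ 2 ^ (108 * κ) := by
        have h6 : κ < 2 ^ κ := Nat.lt_two_pow_self
        have h7 : (2002 : ℕ) ≤ 2 ^ (107 * κ) :=
          le_trans (by norm_num) (Nat.pow_le_pow_right (by norm_num) (show 11 ≤ 107 * κ by omega))
        calc 2 * (1000 * κ + 1) ≤ 2002 * κ := by omega
          _ ≤ 2 ^ (107 * κ) * 2 ^ κ := Nat.mul_le_mul h7 h6.le
          _ = 2 ^ (108 * κ) := by rw [← pow_add]; congr 1; ring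
      have h8 : 2 ^ L < 2 ^ L := by
        calc 2 ^ L ≤ T' := hT'1
          _ < 2 * (s * (1000 * κ + 1)) * (s * 2 ^ f) := h2.trans_lt h4
          _ = s * (2 * (1000 * κ + 1)) * (s * 2 ^ f) := by ring
          _ ≤ 2 ^ (96 * κ) * 2 ^ (108 * κ) * (2 ^ (96 * κ) * 2 ^ f) := by
              gcongr
          _ = 2 ^ L := by
              rw [← pow_add, ← pow_add, ← pow_add]
              congr 1
              omega
      exact lt_irrefl _ h8
    intro N hN1 hN2
    constructor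
    · have : T' ≤ s * N * 2 ^ f := by
        refine h2.trans ?_
        calc (M' + 1) * (s * 2 ^ f) ≤ N * (s * 2 ^ f) := Nat.mul_le_mul_right _ hN1
          _ = s * N * 2 ^ f := by ring
      omega
    · obtain ⟨u, rfl⟩ : ∃ u, s = u + 1 := ⟨s - 1, by omega⟩
      rw [Nat.add_sub_cancel]
      have h9 : 2 * (u * N) ≤ (2 * u + 1) * M' := by
        calc 2 * (u * N) ≤ 2 * (u * (M' + 1 + 1000 * κ)) :=
              Nat.mul_le_mul_left _ (Nat.mul_le_mul_left _ hN2)
          _ = 2 * (u * M') + 2 * (u * (1000 * κ + 1)) := by ring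
          _ ≤ 2 * (u * M') + M' := by
              refine Nat.add_le_add_left ?_ _
              have h10 : 2 * ((u + 1) * (1000 * κ + 1)) =
                2 * (u * (1000 * κ + 1)) + 2 * (1000 * κ + 1) := by ring
              rw [h10] at h3
              omega
          _ = (2 * u + 1) * M' := by ring
      have h10 : u * N * 2 ^ f * (2 * (u + 1)) ≤ (2 * u + 1) * T' := by
        calc u * N * 2 ^ f * (2 * (u + 1)) = 2 * (u * N) * ((u + 1) * 2 ^ f) := by ring
          _ ≤ (2 * u + 1) * M' * ((u + 1) * 2 ^ f) := Nat.mul_le_mul_right _ h9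
          _ = (2 * u + 1) * (M' * ((u + 1) * 2 ^ f)) := by ring
          _ ≤ (2 * u + 1) * T' := Nat.mul_le_mul_left _ h1.le
      have h11 : u * N * 2 ^ f ≤ T' := by
        by_contra hcon
        push Not at hcon
        have h12 : T' * (2 * (u + 1)) ≤ u * N * 2 ^ f * (2 * (u + 1)) :=
          Nat.mul_le_mul_right _ hcon.le
        have h13 : (2 * u + 1) * T' < T' * (2 * (u + 1)) := by
          have h14 : T' * (2 * (u + 1)) = (2 * u + 1) * T' + T' := by ring
          rw [h14]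
          have : 0 < 2 ^ L := by positivity
          omega
        omega
      obtain ⟨δ, hδ⟩ := Nat.exists_eq_add_of_le h11
      have h12 : T' ≤ δ * (2 * (u + 1)) := by
        have h13 : (2 * u + 1) * T' + T' = T' * (2 * (u + 1)) := by ring
        have h14 : T' * (2 * (u + 1)) = u * N * 2 ^ f * (2 * (u + 1)) + δ * (2 * (u + 1)) := by
          rw [← add_mul, ← hδ]
        omega
      have h13 : 2 * (u + 1) ≤ 2 ^ t := by
        calc 2 * (u + 1) ≤ 2 * 2 ^ (96 * κ) := Nat.mul_le_mul_left _ hs1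
          _ = 2 ^ (96 * κ + 1) := by rw [pow_succ, mul_comm]
          _ ≤ 2 ^ t := Nat.pow_le_pow_right (by norm_num) (by omega)
      have h14 : T' ≤ δ * 2 ^ t := h12.trans (Nat.mul_le_mul_left _ h13)
      have h15 : T - n ≤ T' := by omega
      calc (u * N * 2 ^ f + r) * 2 ^ t + (T - n) ≤ (u * N * 2 ^ f + r) * 2 ^ t + δ * 2 ^ t :=
            Nat.add_le_add_left (h15.trans h14) _
        _ = (u * N * 2 ^ f + δ + r) * 2 ^ t := by ring
        _ = T * 2 ^ t := by rw [← hδ, hT']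

end Pool.Agent.H5Thr
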