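import Pool.Agent.H5Thr.Stm3
import Pool.Agent.H5Thr.Low2
import Pool.Agent.H5Thr.Num3

/-!
# Threshold counting: the lower bound for every threshold between `n + 2 ^ t` and `2 ^ (n - t)`
-/

set_option autoImplicit false

namespace Pool.Agent.H5Thr

open Module Equiv Pool.Agent.H5Sym Pool.Agent.H5Lin

universe u

theorem join_true {X : Type} {x : X × X → Bool} {J : Set X} {t : X × X} :
    join x J t = true ↔ (x t = true ∨ (t.1 ≠ t.2 ∧ (t.1 ∈ J ∨ t.2 ∈ J))) := by
  simp [join]

theorem memJ_shift {β X : Type} (e : β × K4 ↪ X) {J : Set X}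
    (hJ : ∀ b k k', e (b, k) ∈ J → e (b, k') ∈ J) (v : β → K4) (x : X) :
    (blockShift v).viaEmbedding e x ∈ J ↔ x ∈ J := by
  by_cases hx : x ∈ Set.range e
  · obtain ⟨⟨b, k⟩, rfl⟩ := hx
    rw [Perm.viaEmbedding_apply, blockShift_apply]
    exact ⟨hJ _ _ _, hJ _ _ _⟩
  · rw [Perm.viaEmbedding_apply_of_notMem _ _ _ hx]

/-- a joined padded formula, with fixed guesses -/
theorem foolJoin {P m : ℕ} {β X G : Type} [Finite β] {D : Type u} (e : β × K4 ↪ X)
    (C : LCircuit.{0, u} ((X × X) ⊕ G) D) [Finite C.Gate] (hodd : C.OddFields) (inp : Bool → D)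
    (act : C.Action fun v : β → K4 =>
      Equiv.sumCongr (pairPerm ((blockShift v).viaEmbedding e)) (Equiv.refl G))
    {κ : ℕ} (hκ : 0 < κ) (hP : 12 * κ ≤ P) (ι : Bool × Fin P ↪ β) (σ : Fin 3 → Perm (Fin P))
    (hσ : ∀ q : Dual F2 (Fin 3 × Fin P → F2), 3 * κ ≤ wt q → wt q < 6 * κ →
      q.comp (bdry ι σ) ∉
        {ζ : Dual F2 (β → K4) | ∃ ξ ∈ act.special, ∃ η ∈ act.special, ζ = ξ + η})
    (g : Fin m ↪ X) (z : Fin m × Fin m → Bool) (hg : ∀ i, g i ∉ Set.range e) (J : Set X)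
    (hJ : ∀ b k k', e (b, k) ∈ J → e (b, k') ∈ J) :
    ∃ d : Fin 3 × Fin P → F2, ∑ e, d e = 1 ∧ ∀ w (y : G → D),
      C.eval (Sum.elim (inp ∘ join (pad e ι σ g z (w + d)) J) y) C.out =
        C.eval (Sum.elim (inp ∘ join (pad e ι σ g z w) J) y) C.out := by
  obtain ⟨d, hd, h⟩ := foolG C hodd _ act hκ hP ι σ hσ
  refine ⟨d, hd, fun w y => ?_⟩
  refine h (fun w => Sum.elim (inp ∘ join (pad e ι σ g z w) J) y) ?_ ?_ w
  · intro w v t
    rcases t with t | t
    · change inp _ = inp _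
      refine congrArg inp ?_
      rw [Bool.eq_iff_iff, join_true, join_true, pad_shift e ι σ g z hg]
      change (_ ∨ ((blockShift v).viaEmbedding e t.1 ≠ (blockShift v).viaEmbedding e t.2 ∧
        ((blockShift v).viaEmbedding e t.1 ∈ J ∨ (blockShift v).viaEmbedding e t.2 ∈ J))) ↔ _
      rw [memJ_shift e hJ, memJ_shift e hJ, Ne, EmbeddingLike.apply_eq_iff_eq]
    · rfl
  · intro t w d hd
    rcases t with t | t
    · change inp _ = inp _
      refine congrArg inp ?_
      have h1 : mat e ι σ (w + d) t = mat e ι σ w t := by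
        refine mat_base e ι σ t w d ?_
        intro a ha
        refine hd a fun v hv => ha v ?_
        exact Sum.inl_injective hv
      rw [Bool.eq_iff_iff, join_true, join_true, pad_true, pad_true, h1]
    · rfl

theorem numSat_join (hR : S_PRD) (hJN : S_JN) {P m r f : ℕ} {β X : Type} [Finite X]
    (e : β × K4 ↪ X) (ι : Bool × Fin P ↪ β) (σ : Fin 3 → Perm (Fin P)) (g : Fin m ↪ X)
    (z : Fin m × Fin m → Bool) (w : Fin 3 × Fin P → F2) (hg : ∀ i, g i ∉ Set.range e) (J : Set X)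
    (hJr : J.ncard = r) (hJg : ∀ i, g i ∉ J) (hJe : ∀ s k, e (ι s, k) ∉ J)
    (hn : 8 * P + m + r + f = Nat.card X) :
    numSat (join (pad e ι σ g z w) J) = numSat (core σ w) * numSat z * 2 ^ f + r := by
  have h1 := hJN X (pad e ι σ g z w) J (by
    intro p q h
    rw [pad_true, mat_true] at h
    rcases h with ⟨⟨b, k⟩, ⟨b', k'⟩, h1, h2, c, i, -, ⟨h4, h5⟩ | ⟨h4, h5⟩⟩ | ⟨i, k, h1, -⟩
    · dsimp only at h1 h2 h4 h5
      subst h1 h2 h4 h5
      exact ⟨hJe _ _, hJe _ _⟩
    · dsimp only at h1 h2 h4 h5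
      subst h1 h2 h4 h5
      exact ⟨hJe _ _, hJe _ _⟩
    · rw [Prod.mk.injEq] at h1
      rw [h1.1, h1.2]
      exact ⟨hJg _, hJg _⟩)
  have h2 := hR P m β X e ι σ g z w hg
  rw [hJr] at h1
  have h3 : numSat (pad e ι σ g z w) = numSat (core σ w) * numSat z * 2 ^ f * 2 ^ r := by
    have h4 : 0 < 2 ^ (8 * P + m) := by positivity
    refine Nat.eq_of_mul_eq_mul_right h4 ?_
    rw [h2, ← hn, pow_add, pow_add]
    ring
  have h5 : 0 < 2 ^ r := by positivity
  refine Nat.eq_of_mul_eq_mul_right h5 ?_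
  rw [h1, h3]
  ring

theorem thr_low3 (hE : S_EXP) (hP : S_PLC) (hN : S_NUM) (hR : S_PRD) (hJN : S_JN) (hJS : S_JS) :
    ∃ c : ℕ, 0 < c ∧ ∀ (β X : Type) [Finite X] (e : β × K4 ↪ X) (t T : ℕ), c ≤ t →
      c * t ≤ Nat.card β → Nat.card X + 2 ^ t ≤ T → T * 2 ^ t ≤ 2 ^ Nat.card X →
      ∀ (G : Type) (D : Type u) (C : LCircuit.{0, u} ((X × X) ⊕ G) D) [Finite C.Gate],
        C.OddFields → ∀ (inp : Bool → D) (acc : ((G → D) → D) → Prop),
        Nonempty (C.Action fun v : β → K4 =>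
          Equiv.sumCongr (pairPerm ((blockShift v).viaEmbedding e)) (Equiv.refl G)) →
        (∀ x : X × X → Bool, (∀ p q, x (p, q) = x (q, p)) → (∀ p, x (p, p) = false) →
          (T ≤ numSat x → acc (fun y => C.eval (Sum.elim (inp ∘ x) y) C.out)) ∧
          (numSat x * 2 ^ t + (T - Nat.card X) ≤ T * 2 ^ t →
            ¬ acc (fun y => C.eval (Sum.elim (inp ∘ x) y) C.out))) →
        Nat.card β ^ t ≤ (c * t) ^ t * C.size ^ c := by
  classical
  obtain ⟨c, hc, h⟩ := hE
  set c₂ := 2 ^ (36 * c + 1) with hc₂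
  have hc2 : 2 * c ≤ c₂ := by
    have h4 : c < 2 ^ c := Nat.lt_two_pow_self
    have h5 : 2 ^ (c + 1) ≤ 2 ^ (36 * c + 1) := Nat.pow_le_pow_right (by norm_num) (by omega)
    rw [pow_succ] at h5
    omega
  have hc48 : 48 ≤ c₂ := by
    have h5 : 2 ^ 37 ≤ 2 ^ (36 * c + 1) := Nat.pow_le_pow_right (by norm_num) (by omega)
    exact le_trans (by norm_num) h5
  refine ⟨1600 * c₂, by positivity, ?_⟩
  intro β X _ e t T ht htβ hT1 hT2 G D C _ hodd inp acc ⟨act⟩ hacc
  have hfin : Finite (β × K4) := Finite.of_injective e e.injective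
  have hfin' : Finite β := Finite.of_surjective (Prod.fst : β × K4 → β) Prod.fst_surjective
  have : Fintype β := Fintype.ofFinite β
  have hK4 : Nat.card K4 = 4 := by rw [Nat.card_eq_fintype_card]; rfl
  -- the parameters
  obtain ⟨κ, hκ1, hκ2⟩ : ∃ κ, 800 * κ ≤ t ∧ t < 800 * κ + 800 := ⟨t / 800, by omega, by omega⟩
  have hκc : c ≤ κ := by omega
  have hκ0 : 0 < κ := by omega
  have hβt : 1600 * c₂ * t = 1600 * (c₂ * t) := by ring
  have hct : 48 * t ≤ c₂ * t := Nat.mul_le_mul_right t hc48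
  obtain ⟨B', hB'⟩ : ∃ B', B' + 1000 * κ = Nat.card β := ⟨Nat.card β - 1000 * κ, by omega⟩
  have hXβ : 4 * Nat.card β ≤ Nat.card X := by
    have h1 := Nat.card_le_card_of_injective e e.injective
    rw [Nat.card_prod, hK4] at h1
    omega
  obtain ⟨σ, hσ⟩ := h κ hκc
  obtain ⟨t', ht1, ht2⟩ : ∃ t', κ ≤ c * t' ∧ c * t' < κ + c := by
    refine ⟨(κ + c - 1) / c, ?_, ?_⟩
    · have := Nat.div_add_mod (κ + c - 1) c
      have := Nat.mod_lt (κ + c - 1) hc
      omega
    · have := Nat.mul_div_le (κ + c - 1) c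
      omega
  have htκ : t' ≤ κ := by
    by_contra hcon
    push Not at hcon
    have h6 : c * (κ + 1) ≤ c * t' := Nat.mul_le_mul_left c hcon
    have h7 : c * (κ + 1) = c * κ + c := by ring
    have h8 : κ ≤ c * κ := Nat.le_mul_of_pos_left κ hc
    omega
  -- the blocks
  obtain ⟨E⟩ : Nonempty (β ≃ Fin B' ⊕ Fin (1000 * κ)) := by
    refine ⟨Fintype.equivOfCardEq ?_⟩
    rw [Fintype.card_sum, Fintype.card_fin, Fintype.card_fin, hB', Nat.card_eq_fintype_card]
  let j : Fin B' ↪ β := ⟨fun i => E.symm (Sum.inl i), fun a b hab => by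
    simpa using E.symm.injective hab⟩
  let g : Fin (1000 * κ) ↪ X := ⟨fun i => e (E.symm (Sum.inr i), 0), fun a b hab => by
    have := congrArg Prod.fst (e.injective hab)
    simpa using E.symm.injective this⟩
  have hg : ∀ i, g i ∉ Set.range (sub e j) := by
    rintro i ⟨⟨a, k⟩, h⟩
    have h1 : e (j a, k) = e (E.symm (Sum.inr i), 0) := h
    have h2 := E.symm.injective (congrArg Prod.fst (e.injective h1))
    simp at h2
  let act' : C.Action fun v : Fin B' → K4 =>
      Equiv.sumCongr (pairPerm ((blockShift v).viaEmbedding (sub e j))) (Equiv.refl G) := by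
    have h1 := act.comap (extB j)
    have h2 : (fun v : Fin B' → K4 =>
        Equiv.sumCongr (pairPerm ((blockShift (extB j v)).viaEmbedding e)) (Equiv.refl G)) =
        fun v : Fin B' → K4 =>
        Equiv.sumCongr (pairPerm ((blockShift v).viaEmbedding (sub e j))) (Equiv.refl G) := by
      funext v
      rw [shift_sub]
    exact h2 ▸ h1
  -- the pad
  have hcore : Nat.card ((Bool × Fin (12 * κ)) × K4) = 96 * κ := by
    rw [Nat.card_prod, Nat.card_prod, Nat.card_eq_fintype_card, Nat.card_eq_fintype_card,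
      Fintype.card_bool, Fintype.card_fin, hK4]
    ring
  obtain ⟨r, f, M, hrf, hM0, hM1, hM2⟩ := choose_M2 hκ0 hκ1 hT1 hT2
    (numSat_pos (core σ 1)) (by
      have := numSat_le (core σ (1 : Fin 3 × Fin (12 * κ) → F2))
      rwa [hcore] at this)
  obtain ⟨z, hz1, hz2, hz3, hz4⟩ := hN (1000 * κ) M hM0 hM1
  obtain ⟨hM3, hM4⟩ := hM2 _ hz3 hz4
  have hs : 0 < C.size := Nat.add_pos_left (Nat.card_pos_iff.2 ⟨⟨C.out⟩, inferInstance⟩) _
  -- the lower bound for the remaining blocks
  have key : B' ^ κ ≤ (c₂ * κ) ^ κ * C.size ^ c₂ := by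
    refine thr_num hκ0 ht1 htκ (by omega) hs ?_
    by_contra hcon
    push Not at hcon
    have hBc : Nat.card (Fin B') = B' := by simp
    obtain ⟨ι, hι⟩ := hP (Fin B') (12 * κ) κ t' σ (by rw [hBc]; omega) (fun q h1 h2 => by
        have h3 := hσ q h1 h2
        by_contra h4
        push Not at h4
        have h5 : c * (csup (q.comp (bdry (idn (12 * κ)) σ)) + 1) ≤ c * t' :=
          Nat.mul_le_mul_left c h4
        have h6 : c * (csup (q.comp (bdry (idn (12 * κ)) σ)) + 1) =
          c * csup (q.comp (bdry (idn (12 * κ)) σ)) + c := by ring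
        omega)
      {ζ : Dual F2 (Fin B' → K4) | ∃ ξ ∈ act'.special, ∃ η ∈ act'.special, ζ = ξ + η} (by
        refine lt_of_le_of_lt (Nat.mul_le_mul_right _ (sums_card act')) ?_
        rw [hBc]
        rwa [show 3 * (12 * κ) = 36 * κ by ring])
    obtain ⟨J, hJr, hJg, hJe, hJinv⟩ := hJS (12 * κ) (1000 * κ) r (Fin B') X (sub e j) ι g hg
      (by rw [hBc]; omega) (by omega)
    obtain ⟨d, hd, hfool⟩ := foolJoin (sub e j) C hodd inp act' hκ0 le_rfl ι σ hι g z hg J hJinv
    have hsymm : ∀ w, (∀ p q, join (pad (sub e j) ι σ g z w) J (p, q) =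
        join (pad (sub e j) ι σ g z w) J (q, p)) ∧
        ∀ p, join (pad (sub e j) ι σ g z w) J (p, p) = false := by
      intro w
      have hb := bipartite6_mat (sub e j) ι σ w
      constructor
      · intro p q
        have key : ∀ p q, pad (sub e j) ι σ g z w (p, q) = true →
            pad (sub e j) ι σ g z w (q, p) = true := by
          intro p q
          rw [pad_true, pad_true, hb.symm p q]
          rintro (h1 | ⟨i, k, h1, h2⟩)
          · exact Or.inl h1
          · rw [Prod.mk.injEq] at h1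
            exact Or.inr ⟨k, i, Prod.ext h1.2 h1.1, by rwa [hz1]⟩
        have key' : pad (sub e j) ι σ g z w (p, q) = true ↔
            pad (sub e j) ι σ g z w (q, p) = true := ⟨key p q, key q p⟩
        rw [Bool.eq_iff_iff, join_true, join_true, key']
        dsimp only
        rw [ne_comm, or_comm (a := p ∈ J)]
      · intro p
        rw [← Bool.not_eq_true, join_true, pad_true]
        rintro ((h1 | ⟨i, k, h1, h2⟩) | ⟨h1, -⟩)
        · obtain ⟨side, hside⟩ := hb.bipartite
          exact hside p p h1 rfl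
        · rw [Prod.mk.injEq] at h1
          have h3 : i = k := g.injective (h1.1.symm.trans h1.2)
          subst h3
          rw [hz2] at h2
          exact Bool.false_ne_true h2
        · exact h1 rfl
    have hR1 := numSat_join hR hJN (sub e j) ι σ g z 1 hg J hJr hJg hJe
      (f := f) (by omega)
    have hR2 := numSat_join hR hJN (sub e j) ι σ g z (1 + d) hg J hJr hJg hJe
      (f := f) (by omega)
    have h1 : T ≤ numSat (join (pad (sub e j) ι σ g z 1) J) := by
      rw [hR1]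
      exact hM3
    have h2 := (hacc _ (hsymm 1).1 (hsymm 1).2).1 h1
    rw [← funext fun y => hfool 1 y] at h2
    have h4 : numSat (core σ (1 + d)) < numSat (core σ 1) :=
      numSat_lt (Function.Embedding.refl ((Bool × Fin (12 * κ)) × K4)) (idn (12 * κ)) σ d hd
    have h5 : numSat (core σ (1 + d)) * numSat z * 2 ^ f ≤
        (numSat (core σ 1) - 1) * numSat z * 2 ^ f := by
      refine Nat.mul_le_mul_right _ (Nat.mul_le_mul_right _ ?_)
      omega
    refine (hacc _ (hsymm (1 + d)).1 (hsymm (1 + d)).2).2 ?_ h2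
    rw [hR2]
    exact (Nat.add_le_add_right (Nat.mul_le_mul_right _ (Nat.add_le_add_right h5 r)) _).trans hM4
  -- from κ to t
  have hK : c₂ * κ ≤ B' := by
    have h1 : c₂ * κ ≤ c₂ * t := Nat.mul_le_mul_left _ (by omega)
    omega
  have h1 := raise key hK (by omega) (show t ≤ 1600 * κ by omega)
  calc Nat.card β ^ t ≤ (2 * B') ^ t := Nat.pow_le_pow_left (by omega) t
    _ = 2 ^ t * B' ^ t := mul_pow _ _ _
    _ ≤ 2 ^ t * ((c₂ * κ) ^ t * C.size ^ (1600 * c₂)) := Nat.mul_le_mul_left _ h1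
    _ = (2 * (c₂ * κ)) ^ t * C.size ^ (1600 * c₂) := by rw [mul_pow 2 (c₂ * κ), mul_assoc]
    _ ≤ (1600 * c₂ * t) ^ t * C.size ^ (1600 * c₂) := by
        refine Nat.mul_le_mul_right _ (Nat.pow_le_pow_left ?_ t)
        have h2 : c₂ * κ ≤ c₂ * t := Nat.mul_le_mul_left _ (by omega)
        omega

end Pool.Agent.H5Thr
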