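import Pool.Agent.H5Thr.Stm2

/-!
# Piece NUM (helper67): monotone 2-CNF formulas with a given number of solutions
-/

set_option autoImplicit false

namespace Pool.Agent.H5Thr

open Module Equiv Pool.Agent.H5Sym Pool.Agent.H5Lin

namespace NUM

/-- solutions -/
def Ok {X : Type} (x : X × X → Bool) (a : X → Bool) : Prop :=
  ∀ p q, x (p, q) = true → a p = true ∨ a q = true

/-- a new variable `0`, joined to all others iff `c` -/
def ext {n : ℕ} (c : Bool) (z : Fin n × Fin n → Bool) (t : Fin (n + 1) × Fin (n + 1)) : Bool :=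
  Fin.cases (motive := fun _ => Bool) (Fin.cases (motive := fun _ => Bool) false (fun _ => c) t.2)
    (fun i => Fin.cases (motive := fun _ => Bool) c (fun k => z (i, k)) t.2) t.1

theorem ext_zz {n : ℕ} (c : Bool) (z : Fin n × Fin n → Bool) : ext c z (0, 0) = false := rfl
theorem ext_zs {n : ℕ} (c : Bool) (z : Fin n × Fin n → Bool) (k : Fin n) :
    ext c z (0, k.succ) = c := rfl
theorem ext_sz {n : ℕ} (c : Bool) (z : Fin n × Fin n → Bool) (k : Fin n) :
    ext c z (k.succ, 0) = c := rfl
theorem ext_ss {n : ℕ} (c : Bool) (z : Fin n × Fin n → Bool) (i k : Fin n) :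
    ext c z (i.succ, k.succ) = z (i, k) := rfl

theorem ok_ext {n : ℕ} (c : Bool) (z : Fin n × Fin n → Bool) (a : Fin (n + 1) → Bool) :
    Ok (ext c z) a ↔ Ok z (fun i => a i.succ) ∧ (c = true → ∀ i : Fin n, a 0 = true ∨ a i.succ = true) := by
  constructor
  · intro h
    refine ⟨fun p q hpq => h p.succ q.succ hpq, fun hc i => h 0 i.succ hc⟩
  · rintro ⟨h1, h2⟩ p q
    refine Fin.cases ?_ (fun p => ?_) p
    · refine Fin.cases ?_ (fun q => ?_) q
      · intro h; rw [ext_zz] at h; exact absurd h (by simp)
      · intro h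
        rw [ext_zs] at h
        exact h2 h q
    · refine Fin.cases ?_ (fun q => ?_) q
      · intro h
        rw [ext_sz] at h
        exact (h2 h p).symm
      · intro h
        exact h1 p q h

theorem ext_symm {n : ℕ} (c : Bool) (z : Fin n × Fin n → Bool) (h : ∀ i k, z (i, k) = z (k, i)) :
    ∀ i k, ext c z (i, k) = ext c z (k, i) := by
  intro i k
  refine Fin.cases ?_ (fun i => ?_) i
  · refine Fin.cases rfl (fun k => ?_) k
    rfl
  · refine Fin.cases rfl (fun k => ?_) k
    exact h i k

theorem ext_irr {n : ℕ} (c : Bool) (z : Fin n × Fin n → Bool) (h : ∀ i, z (i, i) = false) :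
    ∀ i, ext c z (i, i) = false := by
  intro i
  refine Fin.cases rfl (fun i => ?_) i
  exact h i

/-- free variable -/
theorem num_free {n : ℕ} (z : Fin n × Fin n → Bool) :
    numSat (ext false z) = 2 * numSat z := by
  have e : {a : Fin (n + 1) → Bool // Ok (ext false z) a} ≃ Bool × {a : Fin n → Bool // Ok z a} :=
    { toFun := fun a => (a.1 0, ⟨fun i => a.1 i.succ, ((ok_ext false z a.1).1 a.2).1⟩)
      invFun := fun b => ⟨Fin.cons b.1 b.2.1, (ok_ext false z _).2 ⟨b.2.2, fun h => absurd h (by simp)⟩⟩
      left_inv := by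
        intro a
        apply Subtype.ext
        funext i
        refine Fin.cases rfl (fun i => rfl) i
      right_inv := by
        intro b
        rfl }
  have h := Nat.card_congr e
  rw [Nat.card_prod] at h
  have hb : Nat.card Bool = 2 := by simp
  rw [hb] at h
  exact h

theorem num_dom {n : ℕ} (z : Fin n × Fin n → Bool) :
    numSat (ext true z) = numSat z + 1 := by
  have e : {a : Fin (n + 1) → Bool // Ok (ext true z) a} ≃ Option {a : Fin n → Bool // Ok z a} :=
    { toFun := fun a => if a.1 0 = true then some ⟨fun i => a.1 i.succ, ((ok_ext true z a.1).1 a.2).1⟩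
        else none
      invFun := fun b => b.elim
        ⟨Fin.cons false (fun _ => true), (ok_ext true z _).2 ⟨fun _ _ _ => Or.inl rfl,
          fun _ _ => Or.inr rfl⟩⟩
        (fun b => ⟨Fin.cons true b.1, (ok_ext true z _).2 ⟨b.2, fun _ _ => Or.inl rfl⟩⟩)
      left_inv := by
        intro a
        by_cases h : a.1 0 = true
        · simp only [h, if_true]
          apply Subtype.ext
          funext i
          refine Fin.cases ?_ (fun i => rfl) i
          exact h.symm
        · simp only [h]
          apply Subtype.ext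
          funext i
          refine Fin.cases ?_ (fun i => ?_) i
          · show false = a.1 0
            cases h' : a.1 0
            · rfl
            · exact absurd h' h
          · show true = a.1 i.succ
            rcases ((ok_ext true z a.1).1 a.2).2 rfl i with h1 | h1
            · exact absurd h1 h
            · exact h1.symm
      right_inv := by
        intro b
        cases b with
        | none => rfl
        | some b => rfl }
  have h := Nat.card_congr e
  rw [Finite.card_option] at h
  exact h

def R (n N : ℕ) : Prop := ∃ z : Fin n × Fin n → Bool,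
  (∀ i k, z (i, k) = z (k, i)) ∧ (∀ i, z (i, i) = false) ∧ numSat z = N

theorem R_free {n N : ℕ} (h : R n N) : R (n + 1) (2 * N) := by
  obtain ⟨z, h1, h2, h3⟩ := h
  exact ⟨ext false z, ext_symm _ _ h1, ext_irr _ _ h2, by rw [num_free, h3]⟩

theorem R_dom {n N : ℕ} (h : R n N) : R (n + 1) (N + 1) := by
  obtain ⟨z, h1, h2, h3⟩ := h
  exact ⟨ext true z, ext_symm _ _ h1, ext_irr _ _ h2, by rw [num_dom, h3]⟩

theorem R_zero : R 0 1 := by
  refine ⟨fun _ => false, fun _ _ => rfl, fun _ => rfl, ?_⟩
  unfold numSat
  rw [Nat.card_eq_one_iff_unique]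
  refine ⟨⟨fun a b => Subtype.ext (funext fun i => i.elim0)⟩, ⟨⟨fun i => i.elim0, fun p => p.elim0⟩⟩⟩

theorem R_add {n N : ℕ} (h : R n N) (d : ℕ) : R (n + d) (N + d) := by
  induction d with
  | zero => exact h
  | succ d ih => exact R_dom ih

theorem R_all : ∀ M : ℕ, 0 < M → ∃ f, 2 ^ f ≤ M * M ∧ R f M := by
  intro M
  induction M using Nat.strong_induction_on with
  | _ M ih =>
    intro hM
    by_cases h1 : M = 1
    · subst h1
      exact ⟨0, by norm_num, R_zero⟩
    · obtain ⟨f, hf, hR⟩ := ih (M / 2) (by omega) (by omega)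
      rcases Nat.even_or_odd' M with ⟨k, hk | hk⟩
      · have h2 : M / 2 = k := by omega
        rw [h2] at hf hR
        refine ⟨f + 1, ?_, ?_⟩
        · rw [hk, pow_succ]; nlinarith
        · rw [hk]; exact R_free hR
      · have h2 : M / 2 = k := by omega
        rw [h2] at hf hR
        refine ⟨f + 2, ?_, ?_⟩
        · rw [hk, pow_add]; nlinarith
        · rw [hk]; exact R_dom (R_free hR)

end NUM

theorem t_NUM : S_NUM := by
  intro m M hM hm
  obtain ⟨f, hf, hR⟩ := NUM.R_all M hM
  have hfm : f ≤ m := (Nat.pow_le_pow_iff_right (by norm_num : 1 < 2)).1 (hf.trans hm)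
  have h4 : f + (m - f) = m := by omega
  have h5 : NUM.R m (M + (m - f)) := by
    have h := NUM.R_add hR (m - f)
    rw [h4] at h
    exact h
  obtain ⟨z, h1, h2, h3⟩ := h5
  exact ⟨z, h1, h2, by omega, by omega⟩

end Pool.Agent.H5Thr
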