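import Pool.Agent.H5Thr.Stm

/-!
# Threshold counting, piece PLC: a random placement of the blocks
-/

set_option autoImplicit false

namespace Pool.Agent.H5Thr

open Module Equiv Pool.Agent.H5Sym Pool.Agent.H5Lin

namespace Plc

open Finset

/-- the set of the blocks on which a functional depends -/
noncomputable def bs {β : Type} [Fintype β] (ζ : Dual F2 (β → K4)) : Finset β := by
  classical exact Finset.univ.filter fun b => ∃ a : K4, ζ (Pi.single b a) ≠ 0

theorem mem_bs {β : Type} [Fintype β] [d : DecidableEq β] {ζ : Dual F2 (β → K4)} {b : β} :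
    b ∈ bs ζ ↔ ∃ a : K4, ζ (Pi.single b a) ≠ 0 := by
  rw [Subsingleton.elim d (fun a b => Classical.propDecidable (a = b))]
  unfold bs
  rw [Finset.mem_filter]
  exact ⟨fun h => h.2, fun h => ⟨Finset.mem_univ _, h⟩⟩

theorem csup_eq {β : Type} [Fintype β] (ζ : Dual F2 (β → K4)) : csup ζ = (bs ζ).card := by
  classical
  unfold csup bs
  rw [Nat.card_eq_fintype_card, Fintype.card_subtype]

theorem bdry_eq {P : ℕ} {β : Type} (ι : Bool × Fin P ↪ β) (σ : Fin 3 → Perm (Fin P)) (v : β → K4) :
    bdry ι σ v = bdry (idn P) σ (v ∘ ι) := rfl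

theorem bs_map {P : ℕ} {β : Type} [Fintype β] (ι : Bool × Fin P ↪ β) (σ : Fin 3 → Perm (Fin P))
    (q : Dual F2 (Fin 3 × Fin P → F2)) :
    bs (q.comp (bdry ι σ)) = (bs (q.comp (bdry (idn P) σ))).map ι := by
  classical
  ext b
  rw [Finset.mem_map, mem_bs]
  constructor
  · rintro ⟨a, ha⟩
    rw [LinearMap.comp_apply, bdry_eq] at ha
    by_cases hb : ∃ s, ι s = b
    · obtain ⟨s, rfl⟩ := hb
      refine ⟨s, mem_bs.2 ⟨a, ?_⟩, rfl⟩
      rw [LinearMap.comp_apply]
      have h1 : (Pi.single (ι s) a : β → K4) ∘ ι = Pi.single s a := by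
        funext s'
        rw [Function.comp_apply, Pi.single_apply, Pi.single_apply]
        simp only [ι.injective.eq_iff]
      rwa [h1] at ha
    · exfalso
      apply ha
      have h1 : (Pi.single b a : β → K4) ∘ ι = 0 := by
        funext s'
        rw [Function.comp_apply, Pi.single_apply, if_neg (fun h => hb ⟨s', h⟩)]
        rfl
      rw [h1, map_zero, map_zero]
  · rintro ⟨s, hs, rfl⟩
    obtain ⟨a, ha⟩ := mem_bs.1 hs
    refine ⟨a, ?_⟩
    rw [LinearMap.comp_apply, bdry_eq]
    have h1 : (Pi.single (ι s) a : β → K4) ∘ ι = Pi.single s a := by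
      funext s'
      rw [Function.comp_apply, Pi.single_apply, Pi.single_apply]
      simp only [ι.injective.eq_iff]
    rw [h1]
    exact ha

/-- the embeddings which map a given set to a given set -/
theorem count {α β : Type} [Fintype α] [DecidableEq α] [Fintype β] [DecidableEq β] (A : Finset α) (S : Finset β)
    (hA : A.card = S.card) :
    (Finset.univ.filter fun ι : α ↪ β => A.map ι = S).card * (Fintype.card β).choose A.card ≤
      Fintype.card (α ↪ β) := by
  have hπ : ∀ S' : Finset β, S'.card = A.card → ∃ π : Perm β, S.map π.toEmbedding = S' := by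
    intro S' hS'
    let e : {x // x ∈ S} ≃ {x // x ∈ S'} := Finset.equivOfCardEq (by rw [hS', hA])
    refine ⟨e.extendSubtype, Finset.eq_of_subset_of_card_le ?_ ?_⟩
    · intro y hy
      rw [Finset.mem_map] at hy
      obtain ⟨x, hx, rfl⟩ := hy
      exact e.extendSubtype_mem x hx
    · rw [Finset.card_map, hS', hA]
  choose! π hπ using hπ
  have h1 : (Fintype.card β).choose A.card = ((Finset.univ : Finset β).powersetCard A.card).card := by
    rw [Finset.card_powersetCard, Finset.card_univ]
  rw [h1, ← Finset.card_product, ← Finset.card_univ]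
  apply Finset.card_le_card_of_injOn (fun x => x.1.trans (π x.2).toEmbedding)
  · intro x _
    exact Finset.mem_coe.2 (Finset.mem_univ _)
  · rintro ⟨ι, S₁⟩ hx ⟨ι', S₂⟩ hx' h
    rw [Finset.mem_coe, Finset.mem_product, Finset.mem_filter, Finset.mem_powersetCard] at hx hx'
    simp only at hx hx' h
    have h2 : A.map (ι.trans (π S₁).toEmbedding) = S₁ := by
      rw [← Finset.map_map, hx.1.2]
      exact hπ S₁ hx.2.2
    have h3 : A.map (ι'.trans (π S₂).toEmbedding) = S₂ := by
      rw [← Finset.map_map, hx'.1.2]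
      exact hπ S₂ hx'.2.2
    have h4 : S₁ = S₂ := by rw [← h2, ← h3, h]
    subst h4
    refine Prod.ext ?_ rfl
    ext s
    have h5 := congrArg (fun f : α ↪ β => f s) h
    exact (π S₁).injective h5

theorem choose_mono {n : ℕ} : ∀ {a b : ℕ}, a ≤ b → b ≤ n / 2 → n.choose a ≤ n.choose b := by
  intro a b hab
  induction b, hab using Nat.le_induction with
  | base => intro _; exact le_rfl
  | succ b _ ih =>
    intro hb
    exact (ih (by omega)).trans (Nat.choose_le_succ_of_lt_half_left (by omega))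

/-- the number of functionals -/
theorem card_dual (P : ℕ) : Nat.card (Dual F2 (Fin 3 × Fin P → F2)) ≤ 2 ^ (3 * P) := by
  classical
  have h1 : Function.Injective (fun (q : Dual F2 (Fin 3 × Fin P → F2)) (e : Fin 3 × Fin P) => q (Pi.single e 1)) := by
    intro q q' h
    apply LinearMap.ext
    intro w
    rw [apply_eq q w, apply_eq q' w]
    refine Finset.sum_congr rfl fun c _ => Finset.sum_congr rfl fun i _ => ?_
    have h2 := congrFun h (c, i)
    simp only at h2
    rw [h2]
  have h2 := Nat.card_le_card_of_injective _ h1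
  have h3 : Nat.card (Fin 3 × Fin P → F2) = 2 ^ (3 * P) := by
    rw [Nat.card_eq_fintype_card, Fintype.card_fun, Fintype.card_prod, Fintype.card_fin, Fintype.card_fin]
    rfl
  rwa [h3] at h2

end Plc

open Plc in
theorem t_PLC : S_PLC := by
  intro β _ P κ t σ hβ hq Φ hΦ
  classical
  have hft : Fintype β := Fintype.ofFinite β
  rw [Nat.card_eq_fintype_card] at hβ hΦ
  have hfin : Finite (Dual F2 (β → K4)) :=
    Finite.of_injective (fun q : Dual F2 (β → K4) => (q : (β → K4) → F2)) DFunLike.coe_injective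
  have hfin2 : Finite (Dual F2 (Fin 3 × Fin P → F2)) :=
    Finite.of_injective (fun q : Dual F2 (Fin 3 × Fin P → F2) => (q : (Fin 3 × Fin P → F2) → F2))
      DFunLike.coe_injective
  have hf2 : Fintype (Dual F2 (Fin 3 × Fin P → F2)) := Fintype.ofFinite _
  have hΦf : Φ.Finite := Φ.toFinite
  by_contra hcon
  push Not at hcon
  choose q hq1 hq2 hq3 using hcon
  obtain ⟨Ch, hCh⟩ : ∃ Ch, Ch = (Fintype.card β).choose t := ⟨_, rfl⟩
  obtain ⟨E, hE⟩ : ∃ E, E = Fintype.card (Bool × Fin P ↪ β) := ⟨_, rfl⟩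
  have hE0 : 0 < E := by
    rw [hE, Fintype.card_pos_iff]
    apply Function.Embedding.nonempty_of_card_le
    rw [Fintype.card_prod, Fintype.card_bool, Fintype.card_fin]
    omega
  have hCh0 : 0 < Ch := by
    rw [hCh]
    omega
  have hfib : ∀ a ∈ (Finset.univ : Finset (Bool × Fin P ↪ β)).image
      (fun ι => (q ι, (q ι).comp (bdry ι σ))),
      ((Finset.univ : Finset (Bool × Fin P ↪ β)).filter
        (fun ι => (q ι, (q ι).comp (bdry ι σ)) = a)).card ≤ E / Ch := by
    intro a ha
    rw [Finset.mem_image] at ha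
    obtain ⟨ι₀, _, rfl⟩ := ha
    rw [Nat.le_div_iff_mul_le hCh0]
    obtain ⟨A, hA⟩ : ∃ A, A = bs ((q ι₀).comp (bdry (idn P) σ)) := ⟨_, rfl⟩
    have h1 : ((Finset.univ : Finset (Bool × Fin P ↪ β)).filter
        (fun ι => (q ι, (q ι).comp (bdry ι σ)) = (q ι₀, (q ι₀).comp (bdry ι₀ σ)))) ⊆
        Finset.univ.filter fun ι : (Bool × Fin P) ↪ β => A.map ι = A.map ι₀ := by
      intro ι hι
      rw [Finset.mem_filter] at hι ⊢
      refine ⟨Finset.mem_univ _, ?_⟩
      have h2 := congrArg Prod.fst hι.2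
      have h3 := congrArg Prod.snd hι.2
      simp only at h2 h3
      rw [hA, ← bs_map, ← bs_map, ← h3, h2]
    have h2 := count A (A.map ι₀) (by rw [Finset.card_map])
    have h3 : A.card ≤ 2 * P := by
      refine (Finset.card_le_univ A).trans ?_
      rw [Fintype.card_prod, Fintype.card_bool, Fintype.card_fin]
    have h4 : t ≤ A.card := by
      have := hq (q ι₀) (hq1 ι₀) (hq2 ι₀)
      rwa [csup_eq, ← hA] at this
    have h5 : Ch ≤ (Fintype.card β).choose A.card := by
      rw [hCh]
      exact choose_mono h4 (by omega)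
    calc _ ≤ (Finset.univ.filter fun ι : (Bool × Fin P) ↪ β => A.map ι = A.map ι₀).card *
          (Fintype.card β).choose A.card := Nat.mul_le_mul (Finset.card_le_card h1) h5
      _ ≤ E := by rw [hE]; exact h2
  have h6 := Finset.card_le_mul_card_image (Finset.univ : Finset (Bool × Fin P ↪ β)) (E / Ch) hfib
  have h7 : ((Finset.univ : Finset (Bool × Fin P ↪ β)).image
      (fun ι => (q ι, (q ι).comp (bdry ι σ)))).card ≤ 2 ^ (3 * P) * Φ.ncard := by
    have h8 : (Finset.univ : Finset (Bool × Fin P ↪ β)).image (fun ι => (q ι, (q ι).comp (bdry ι σ))) ⊆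
        (Finset.univ : Finset (Dual F2 (Fin 3 × Fin P → F2))) ×ˢ hΦf.toFinset := by
      intro x hx
      rw [Finset.mem_image] at hx
      obtain ⟨ι, _, rfl⟩ := hx
      rw [Finset.mem_product]
      exact ⟨Finset.mem_univ _, hΦf.mem_toFinset.2 (hq3 ι)⟩
    refine (Finset.card_le_card h8).trans ?_
    rw [Finset.card_product, Set.ncard_eq_toFinset_card Φ hΦf]
    apply Nat.mul_le_mul_right
    rw [Finset.card_univ, ← Nat.card_eq_fintype_card]
    exact card_dual P
  rw [Finset.card_univ, ← hE] at h6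
  have h9 : E * Ch ≤ E * (Φ.ncard * 2 ^ (3 * P)) := by
    calc E * Ch ≤ (E / Ch * ((Finset.univ : Finset (Bool × Fin P ↪ β)).image
          (fun ι => (q ι, (q ι).comp (bdry ι σ)))).card) * Ch := Nat.mul_le_mul_right _ h6
      _ ≤ (E / Ch * (2 ^ (3 * P) * Φ.ncard)) * Ch := Nat.mul_le_mul_right _ (Nat.mul_le_mul_left _ h7)
      _ = (E / Ch * Ch) * (Φ.ncard * 2 ^ (3 * P)) := by ring
      _ ≤ E * (Φ.ncard * 2 ^ (3 * P)) := Nat.mul_le_mul_right _ (Nat.div_mul_le_self E Ch)
  have h10 := Nat.le_of_mul_le_mul_left h9 hE0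
  rw [hCh] at h10
  omega

end Pool.Agent.H5Thr
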