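import Pool.Agent.H5Thr.Stm2
import Pool.Agent.H5Sym.TwoSat

/-!
# Piece PRD: the number of solutions of a padded formula is a product
-/

set_option autoImplicit false

namespace Pool.Agent.H5Thr

open Module Equiv Pool.Agent.H5Sym Pool.Agent.H5Lin

namespace PRD

theorem adj_idn {P : ℕ} {β : Type} (ι : Bool × Fin P ↪ β) (σ : Fin 3 → Perm (Fin P))
    (w : Fin 3 × Fin P → F2) (p q : (Bool × Fin P) × K4) :
    Adj ι σ w (ι p.1, p.2) (ι q.1, q.2) ↔ Adj (idn P) σ w p q := by
  have key : ∀ x s : Bool × Fin P, ι x = ι s ↔ x = idn P s := by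
    intro x s
    rw [ι.injective.eq_iff]
    rfl
  unfold Adj
  simp only [key]

theorem core_true {P : ℕ} (σ : Fin 3 → Perm (Fin P)) (w : Fin 3 × Fin P → F2)
    (p q : (Bool × Fin P) × K4) : core σ w (p, q) = true ↔ Adj (idn P) σ w p q := by
  unfold core
  rw [mat_true]
  exact adjOn_e (e := Function.Embedding.refl ((Bool × Fin P) × K4))

theorem adj_mem {P : ℕ} {β : Type} (ι : Bool × Fin P ↪ β) (σ : Fin 3 → Perm (Fin P))
    (w : Fin 3 × Fin P → F2) (p q : β × K4) (h : Adj ι σ w p q) :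
    ∃ p' q' : (Bool × Fin P) × K4, p = (ι p'.1, p'.2) ∧ q = (ι q'.1, q'.2) := by
  obtain ⟨c, i, -, h | h⟩ := h
  · exact ⟨((false, i), p.2), ((true, σ c i), q.2), Prod.ext h.1 rfl, Prod.ext h.2 rfl⟩
  · exact ⟨((true, σ c i), p.2), ((false, i), q.2), Prod.ext h.1 rfl, Prod.ext h.2 rfl⟩

theorem pad_true {P m : ℕ} {β X : Type} (e : β × K4 ↪ X) (ι : Bool × Fin P ↪ β)
    (σ : Fin 3 → Perm (Fin P)) (g : Fin m ↪ X) (z : Fin m × Fin m → Bool)
    (w : Fin 3 × Fin P → F2) (x y : X) : pad e ι σ g z w (x, y) = true ↔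
    (∃ p q : (Bool × Fin P) × K4, x = e (ι p.1, p.2) ∧ y = e (ι q.1, q.2) ∧
      core σ w (p, q) = true) ∨ ∃ i k, x = g i ∧ y = g k ∧ z (i, k) = true := by
  classical
  unfold pad
  rw [decide_eq_true_iff, mat_true]
  refine or_congr ?_ ?_
  · constructor
    · rintro ⟨p, q, rfl, rfl, h⟩
      obtain ⟨p', q', rfl, rfl⟩ := adj_mem ι σ w p q h
      exact ⟨p', q', rfl, rfl, (core_true σ w p' q').2 ((adj_idn ι σ w p' q').1 h)⟩
    · rintro ⟨p, q, rfl, rfl, h⟩
      exact ⟨_, _, rfl, rfl, (adj_idn ι σ w p q).2 ((core_true σ w p q).1 h)⟩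
  · constructor
    · rintro ⟨i, k, h, hz⟩
      exact ⟨i, k, (Prod.mk.inj h).1, (Prod.mk.inj h).2, hz⟩
    · rintro ⟨i, k, rfl, rfl, hz⟩
      exact ⟨i, k, rfl, hz⟩

end PRD

open PRD in
theorem t_PRD : S_PRD := by
  classical
  intro P m β X _ e ι σ g z w hg
  let h : ((Bool × Fin P) × K4) ⊕ Fin m ↪ X :=
    ⟨Sum.elim (fun p => e (ι p.1, p.2)) g, by
      rintro (p | i) (q | k) hpq
      · have h1 : (ι p.1, p.2) = (ι q.1, q.2) := e.injective hpq
        have h2 : p = q := Prod.ext (ι.injective (Prod.mk.inj h1).1) (Prod.mk.inj h1).2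
        rw [h2]
      · exact absurd ⟨_, hpq⟩ (hg k)
      · exact absurd ⟨_, hpq.symm⟩ (hg i)
      · rw [g.injective hpq]⟩
  let E : (X → Bool) ≃ ((((Bool × Fin P) × K4) → Bool) × (Fin m → Bool)) ×
      ({x // x ∉ Set.range h} → Bool) :=
    (Equiv.piEquivPiSubtypeProd (fun x => x ∈ Set.range h) fun _ => Bool).trans
      (Equiv.prodCongr ((Equiv.arrowCongr (Equiv.ofInjective h h.injective).symm
        (Equiv.refl Bool)).trans (Equiv.sumArrowEquivProdArrow _ _ _)) (Equiv.refl _))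
  have hE1 : ∀ a p, (E a).1.1 p = a (e (ι p.1, p.2)) := fun a p => rfl
  have hE2 : ∀ a i, (E a).1.2 i = a (g i) := fun a i => rfl
  have h1 : numSat (pad e ι σ g z w) =
      (numSat (core σ w) * numSat z) * Nat.card ({x // x ∉ Set.range h} → Bool) := by
    rw [numSat, numSat, numSat, ← Nat.card_prod, ← Nat.card_prod]
    refine Nat.card_congr ((E.subtypeEquiv (q := fun s =>
      (∀ p q, core σ w (p, q) = true → s.1.1 p = true ∨ s.1.1 q = true) ∧
      ∀ p q, z (p, q) = true → s.1.2 p = true ∨ s.1.2 q = true) fun a => ?_).trans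
      ((Equiv.prodSubtypeFstEquivSubtypeProd (p := fun s :
        (((Bool × Fin P) × K4) → Bool) × (Fin m → Bool) =>
        (∀ p q, core σ w (p, q) = true → s.1 p = true ∨ s.1 q = true) ∧
        ∀ p q, z (p, q) = true → s.2 p = true ∨ s.2 q = true)).trans
        (Equiv.prodCongr (Equiv.subtypeProdEquivProd (p := fun s : ((Bool × Fin P) × K4) → Bool =>
        ∀ p q, core σ w (p, q) = true → s p = true ∨ s q = true) (q := fun s : Fin m → Bool =>
        ∀ p q, z (p, q) = true → s p = true ∨ s q = true)) (Equiv.refl _))))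
    constructor
    · intro ha
      constructor
      · intro p q hpq
        rw [hE1, hE1]
        exact ha _ _ ((pad_true e ι σ g z w _ _).2 (Or.inl ⟨p, q, rfl, rfl, hpq⟩))
      · intro p q hpq
        rw [hE2, hE2]
        exact ha _ _ ((pad_true e ι σ g z w _ _).2 (Or.inr ⟨p, q, rfl, rfl, hpq⟩))
    · rintro ⟨ha, hb⟩ x y hxy
      rcases (pad_true e ι σ g z w _ _).1 hxy with ⟨p, q, rfl, rfl, hpq⟩ | ⟨i, k, rfl, rfl, hik⟩
      · have := ha p q hpq
        rwa [hE1, hE1] at this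
      · have := hb i k hik
        rwa [hE2, hE2] at this
  have h2 : Nat.card ({x // x ∉ Set.range h} → Bool) = 2 ^ Nat.card {x // x ∉ Set.range h} := by
    rw [Nat.card_fun]
    simp
  have h3 : Nat.card X = (8 * P + m) + Nat.card {x // x ∉ Set.range h} := by
    rw [← Nat.card_congr (Equiv.sumCompl fun x => x ∈ Set.range h), Nat.card_sum]
    congr 1
    rw [Nat.card_congr (Equiv.ofInjective h h.injective).symm]
    simp only [Nat.card_eq_fintype_card, Fintype.card_sum, Fintype.card_prod, Fintype.card_bool,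
      Fintype.card_fin, ZMod.card]
    ring
  rw [h1, h2, h3, pow_add 2 (8 * P + m)]
  ring

end Pool.Agent.H5Thr
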