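import Pool.Agent.H5Thr.Stm3

/-!
# Piece SML of the threshold counting project
-/

set_option autoImplicit false

namespace Pool.Agent.H5Thr

open Module Equiv Pool.Agent.H5Sym Pool.Agent.H5Lin

namespace Sml

theorem numSat_eq {X : Type} [Finite X] (x : X × X → Bool) :
    numSat x = Nat.card {A : Finset X // ∀ p ∈ A, ∀ q ∈ A, x (p, q) = false} := by
  classical
  have : Fintype X := Fintype.ofFinite X
  rw [numSat]
  refine Nat.card_congr ⟨fun a => ⟨Finset.univ.filter fun p => a.1 p = false, ?_⟩,
    fun A => ⟨fun p => decide (p ∉ A.1), ?_⟩, ?_, ?_⟩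
  · intro p hp q hq
    rw [Finset.mem_filter] at hp hq
    by_contra h
    rw [Bool.not_eq_false] at h
    rcases a.2 p q h with h1 | h1
    · rw [hp.2] at h1
      exact Bool.false_ne_true h1
    · rw [hq.2] at h1
      exact Bool.false_ne_true h1
  · intro p q hpq
    by_contra h
    rw [not_or, Bool.not_eq_true, Bool.not_eq_true, decide_eq_false_iff_not,
      decide_eq_false_iff_not, not_not, not_not] at h
    rw [A.2 p h.1 q h.2] at hpq
    exact Bool.false_ne_true hpq
  · intro a
    apply Subtype.ext
    funext p
    show decide (p ∉ Finset.univ.filter fun p => a.1 p = false) = a.1 p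
    cases h : a.1 p <;> simp [h]
  · intro A
    apply Subtype.ext
    ext p
    simp

end Sml

theorem t_SML : S_SML := by
  intro X _ x t T hsym hirr hT
  classical
  have : Fintype X := Fintype.ofFinite X
  rw [Sml.numSat_eq]
  constructor
  · intro h
    by_cases hall : ∀ A : Finset X, (∀ p ∈ A, ∀ q ∈ A, x (p, q) = false) → A.card ≤ t + 2
    · refine h.trans (Nat.card_le_card_of_injective
        (fun A : {A : Finset X // ∀ p ∈ A, ∀ q ∈ A, x (p, q) = false} =>
          (⟨A.1, hall A.1 A.2, A.2⟩ :
            {A : Finset X // A.card ≤ t + 2 ∧ ∀ p ∈ A, ∀ q ∈ A, x (p, q) = false})) ?_)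
      intro A B hAB
      exact Subtype.ext (congrArg (fun z => z.1) hAB)
    · push Not at hall
      obtain ⟨B₀, hB₀, hcard⟩ := hall
      obtain ⟨B, hBB, hB⟩ := Finset.exists_subset_card_eq (s := B₀) (n := t + 3) (by omega)
      have hBi : ∀ p ∈ B, ∀ q ∈ B, x (p, q) = false := fun p hp q hq =>
        hB₀ p (hBB hp) q (hBB hq)
      have hS1 : (B.powerset.erase B).card = 2 ^ (t + 3) - 1 := by
        rw [Finset.card_erase_of_mem (Finset.mem_powerset_self B), Finset.card_powerset, hB]
      have hS2 : ((Finset.univ \ B).image fun p => ({p} : Finset X)).card =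
          Nat.card X - (t + 3) := by
        rw [Finset.card_image_of_injective _ Finset.singleton_injective, ← Finset.compl_eq_univ_sdiff,
          Finset.card_compl, hB, Nat.card_eq_fintype_card]
      have hdis : Disjoint (B.powerset.erase B)
          ((Finset.univ \ B).image fun p => ({p} : Finset X)) := by
        rw [Finset.disjoint_left]
        intro A hA hA'
        rw [Finset.mem_erase, Finset.mem_powerset] at hA
        rw [Finset.mem_image] at hA'
        obtain ⟨p, hp, rfl⟩ := hA'
        rw [Finset.mem_sdiff] at hp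
        exact hp.2 (hA.2 (Finset.mem_singleton_self p))
      have hsub : (B.powerset.erase B) ∪ ((Finset.univ \ B).image fun p => ({p} : Finset X)) ⊆
          Finset.univ.filter fun A : Finset X =>
            A.card ≤ t + 2 ∧ ∀ p ∈ A, ∀ q ∈ A, x (p, q) = false := by
        intro A hA
        rw [Finset.mem_filter]
        refine ⟨Finset.mem_univ _, ?_⟩
        rw [Finset.mem_union] at hA
        rcases hA with hA | hA
        · rw [Finset.mem_erase, Finset.mem_powerset] at hA
          have h1 : A.card < B.card := Finset.card_lt_card (hA.2.ssubset_of_ne hA.1)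
          exact ⟨by omega, fun p hp q hq => hBi p (hA.2 hp) q (hA.2 hq)⟩
        · rw [Finset.mem_image] at hA
          obtain ⟨p, hp, rfl⟩ := hA
          refine ⟨by rw [Finset.card_singleton]; omega, fun q hq s hs => ?_⟩
          rw [Finset.mem_singleton] at hq hs
          rw [hq, hs]
          exact hirr p
      have h1 := Finset.card_le_card hsub
      rw [Finset.card_union_of_disjoint hdis, hS1, hS2] at h1
      have h2 : Nat.card {A : Finset X // A.card ≤ t + 2 ∧ ∀ p ∈ A, ∀ q ∈ A, x (p, q) = false} =
          (Finset.univ.filter fun A : Finset X =>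
            A.card ≤ t + 2 ∧ ∀ p ∈ A, ∀ q ∈ A, x (p, q) = false).card := by
        rw [Nat.card_eq_fintype_card, Fintype.card_subtype]
      rw [h2]
      have h3 : t + 3 ≤ Nat.card X := by
        rw [← hB, Nat.card_eq_fintype_card]
        exact Finset.card_le_univ B
      have h4 : t < 2 ^ t := Nat.lt_two_pow_self
      have h5 : 2 ^ (t + 3) = 8 * 2 ^ t := by ring
      omega
  · intro h
    refine h.trans (Nat.card_le_card_of_injective
      (fun A : {A : Finset X // A.card ≤ t + 2 ∧ ∀ p ∈ A, ∀ q ∈ A, x (p, q) = false} =>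
        (⟨A.1, A.2.2⟩ : {A : Finset X // ∀ p ∈ A, ∀ q ∈ A, x (p, q) = false})) ?_)
    intro A B hAB
    exact Subtype.ext (congrArg (fun z => z.1) hAB)

end Pool.Agent.H5Thr
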