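import Pool.Agent.H5Lin.CountL

/-!
# Threshold counting for monotone 2-CNF formulas: pieces

Six pieces, EXP, PLC, CNT, COV, SUM, CIR. Prove `theorem t_EXP : S_EXP` in
`Pool/Agent/H5Thr/Exp.lean` (namespace `Pool.Agent.H5Thr`), and in the same way Plc, Cnt, Cov, Sum, Cir
(no double quotes in the file).
-/

set_option autoImplicit false

namespace Pool.Agent.H5Thr

open Module Equiv Pool.Agent.H5Sym Pool.Agent.H5Lin

universe u

/-- the number of the blocks on which a functional depends -/
noncomputable def csup {β : Type} (ζ : Dual F2 (β → K4)) : ℕ := by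
  classical exact Nat.card {b : β // ∃ a : K4, ζ (Pi.single b a) ≠ 0}

/-- the identical placement -/
def idn (P : ℕ) : Bool × Fin P ↪ Bool × Fin P := Function.Embedding.refl _

/-- the set `A` of variables meets every clause -/
def IsCover {X : Type} (x : X × X → Bool) (A : Finset X) : Prop :=
  ∀ p q, x (p, q) = true → p ∈ A ∨ q ∈ A

open Classical in
/-- the number of the satisfying assignments, computed with a cover `A`: `b` is the set of the true
variables of `A` -/
noncomputable def cnt {X : Type} [Fintype X] (x : X × X → Bool) (A : Finset X) : ℕ :=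
  ∑ b ∈ A.powerset, if (∀ p ∈ A, ∀ q ∈ A, x (p, q) = true → p ∈ b ∨ q ∈ b) then
    2 ^ (Finset.univ.filter fun p => p ∉ A ∧ ∀ q ∈ A, x (p, q) = true ∨ x (q, p) = true → q ∈ b).card
    else 0

/-- **EXP** (about 120 lines). Let `P = 12 κ`, `ι = idn P`, `β = Bool × Fin P` (with `24 κ` elements).
Apply `exists_good` (`Pool/Agent/H5Sym/Cubic.lean`) with `Φ = {ζ | c * csup ζ < κ}`; one has to show
`Φ.ncard * (6 κ) ^ 3 < P.choose κ`, and `12 ^ κ ≤ (12 κ).choose κ` is `pow_le_choose`. A functional `ζ` is
determined by its values on the `Pi.single b a`, that is by a function from the `24 κ` blocks to the `4`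
functionals on `K4`, and `csup ζ` is the number of the blocks with a nonzero value. So
`∑_ζ (1/72) ^ (csup ζ) = (1 + 3/72) ^ (24 κ) ≤ exp κ ≤ 3 ^ κ`, and `Φ.ncard ≤ 3 ^ κ * 72 ^ (κ / c)`, which
is at most `(3 * 2) ^ κ` for `c ≥ 8` (`72 ≤ 2 ^ 8`). Finally `6 ^ κ * (6 κ) ^ 3 < 12 ^ κ` for `κ ≥ c` (for
instance `c = 30`). -/
def S_EXP : Prop := ∃ c : ℕ, 0 < c ∧ ∀ κ : ℕ, c ≤ κ →
  ∃ σ : Fin 3 → Perm (Fin (12 * κ)), ∀ q : Dual F2 (Fin 3 × Fin (12 * κ) → F2),
    3 * κ ≤ wt q → wt q < 6 * κ → κ ≤ c * csup (q.comp (bdry (idn (12 * κ)) σ))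

/-- **PLC** (about 150 lines). `bdry ι σ v = bdry (idn P) σ (v ∘ ι)`, so for `ζ₀ = q.comp (bdry (idn P) σ)`
and `ζ = q.comp (bdry ι σ)` the set of the blocks on which `ζ` depends is the image under `ι` of the
set `A` of the blocks on which `ζ₀` depends. Let `t' = csup ζ₀`, `t ≤ t' ≤ 2 P ≤ |β| / 2`. If
`ζ = φ ∈ Φ` then `ι A = S`, the set of the blocks on which `φ` depends, and `|S| = t'`. The number of the
`ι` with `ι A = S` times `|β|.choose t'` is at most the number of all `ι`: choose for every set `S'` with
`t'` elements a permutation `π` of `β` with `π S = S'`; the map `(ι, S') ↦ ι.trans π` is injective, since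
`S'` is the image of `A`. Union bound over the at most `2 ^ (3 P)` functionals `q` and the `φ ∈ Φ`;
`|β|.choose t ≤ |β|.choose t'` (`Nat.choose_le_choose`-type monotonicity below the middle). -/
def S_PLC : Prop := ∀ (β : Type) [Finite β] (P κ t : ℕ) (σ : Fin 3 → Perm (Fin P)),
  4 * P ≤ Nat.card β →
  (∀ q : Dual F2 (Fin 3 × Fin P → F2), 3 * κ ≤ wt q → wt q < 6 * κ →
    t ≤ csup (q.comp (bdry (idn P) σ))) →
  ∀ Φ : Set (Dual F2 (β → K4)), Φ.ncard * 2 ^ (3 * P) < (Nat.card β).choose t →
  ∃ ι : Bool × Fin P ↪ β, ∀ q : Dual F2 (Fin 3 × Fin P → F2), 3 * κ ≤ wt q → wt q < 6 * κ →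
    q.comp (bdry ι σ) ∉ Φ

/-- **CNT** (about 100 lines). By `numSat_mat` (`Pool/Agent/H5Sym/TwoSat.lean`) the first part is
`Nat.card {a // Sat ι σ 1 a} = Nat.card {a // Sat ι' σ 1 a}`: take a permutation `π` of `β` with
`π ∘ ι = ι'` (two embeddings into a finite type; for instance `Equiv.extendSubtype` or
`Equiv.Perm` from `Function.Embedding`, `Finite`), and `a ↦ a ∘ (π × id)`.
Second part: all assignments of `X` for which the at most `8 P` variables `e (ι s, k)` are true satisfy the
formula, and there are at least `2 ^ (|X| - 8 P)` of them. -/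
def S_CNT : Prop := ∀ (P : ℕ) (β X : Type) [Finite X] (e : β × K4 ↪ X)
  (ι ι' : Bool × Fin P ↪ β) (σ : Fin 3 → Perm (Fin P)),
  numSat (mat e ι σ 1) = numSat (mat e ι' σ 1) ∧
  2 ^ Nat.card X ≤ numSat (mat e ι σ 1) * 2 ^ (8 * P)

/-- **COV** (about 120 lines). Show by induction on `t`: if no set with at most `2 t` elements is a
cover then there is a list of `t + 1` pairwise disjoint clauses `(p, q)` (`p = q` is allowed), and
`4 ^ t * |S| ≤ 3 ^ t * 2 ^ |X|` for the set `S` of the assignments that satisfy `t` pairwise disjoint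
clauses: if `(p, q)` is disjoint from the clauses before, then switching the values at `p`, `q` maps the
set `S` of the solutions of the clauses before to itself, so a quarter of `S` (half of it if `p = q`)
has `p`, `q` false. So if the smallest cover has more than `6 j` elements, there are `3 j + 1` disjoint
clauses, `numSat x ≤ (3/4) ^ (3 j + 1) 2 ^ |X| < 2 ^ |X| / 2 ^ j` (`(3/4) ^ 3 < 1/2`).
(A direct proof is also fine: greedy choice; the induction can be done for the statement: for every set
`A` and number `t`, either some cover has at most `|A| + 2 t` elements, or `t + 1` disjoint clauses avoid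
`A`.) -/
def S_COV : Prop := ∀ (X : Type) [Finite X] (x : X × X → Bool) (j : ℕ),
  2 ^ Nat.card X ≤ numSat x * 2 ^ j → ∃ A : Finset X, A.card ≤ 6 * j ∧ IsCover x A

/-- **SUM** (about 100 lines). Fibres of the map `a ↦ b = {p ∈ A | a p = true}` from the satisfying
assignments: for a cover `A` the assignment `a` satisfies the formula iff `b` satisfies the clauses
inside `A` and `a p = true` for all `p ∉ A` which have a clause with some `q ∈ A`, `q ∉ b` (there are no
clauses outside of `A`, in particular none `(p, p)`). -/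
def S_SUM : Prop := ∀ (X : Type) [Fintype X] (x : X × X → Bool) (A : Finset X),
  IsCover x A → numSat x = cnt x A

/-- **CIR** (about 250 lines; examples of such circuits: `Pool/Agent/H5Lin/Copies.lean`,
`Pool/Agent/H5Lin/Xor.lean` and `XorEval.lean`, `Pool/Agent/H5Ref/Circ.lean`). No rows (`Row := Empty`).
Values in `ℕ`, the inputs are `0`, `1`. Gates: the inputs `(p, q)`; for each set `A` with at most `r`
elements `Cov A` (all inputs `(p, q)` with `p, q ∉ A` are `0`) and `G A`; for each pair of sets `A`, `b`
with at most `r` elements `Sat A b` (all inputs `(p, q)` with `p, q ∈ A`, `p, q ∉ b` are `0`; make it `0`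
unless `b ⊆ A`, for instance by a wire that starts at no gate... or restrict the gates to `b ⊆ A`),
`E A b`, and `Fr A b p` for `p : X` (value `1` if `p ∉ A` and all inputs `(p, q)`, `(q, p)` with `q ∈ A`,
`q ∉ b` are `0`; restrict the gates or the wires to `p ∉ A`); `E A b` is `Sat A b` (wire with label `0`)
times `2` to the number of the `Fr A b p`, `p ∉ A`, with value `1` (wires with label `1`); `G A` is
`Cov A` (label `0`) times the sum of the `E A b`, `b ⊆ A` (label `1`); the output is `1` if some `G A`,
`|A| ≤ r`, has a value `≥ T`, and `0` otherwise. There are at most `(n + 1) ^ r` sets with at most `r` of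
`n` elements. Every permutation of `X` acts (on sets by images), and for a group homomorphism this gives an
action. (If `T = 0` output `1` is wanted as well only if a cover with at most `r` elements exists.) -/
def S_CIR : Prop := ∀ (X : Type) [Fintype X] (r T : ℕ), 0 < T →
  ∃ C : LCircuit.{0, 0} (X × X) ℕ, Finite C.Gate ∧
    (∀ g, (∃ t, C.label g = .input t) ∨ ∃ f, C.label g = .sym f) ∧
    C.size ≤ (Nat.card X + 2) ^ (2 * r + 4) ∧
    (∀ (V : Type u) [AddCommGroup V] (θ : V → Perm X), (∀ v w, θ (v + w) = θ v * θ w) →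
      Nonempty (C.Action fun v => pairPerm (θ v))) ∧
    ∀ x : X × X → Bool, C.eval (fun t => if x t then 1 else 0) C.out = 1 ↔
      ∃ A : Finset X, A.card ≤ r ∧ IsCover x A ∧ T ≤ cnt x A

end Pool.Agent.H5Thr
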