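import Pool.Agent.H5Thr.Stm

/-!
# Threshold counting, every threshold: the pieces NUM and PRD

`t_NUM : S_NUM` in `Pool/Agent/H5Thr/Num.lean`, `t_PRD : S_PRD` in `Pool/Agent/H5Thr/Prd.lean`
(namespace `Pool.Agent.H5Thr`).
-/

set_option autoImplicit false

namespace Pool.Agent.H5Thr

open Module Equiv Pool.Agent.H5Sym Pool.Agent.H5Lin

/-- the formula on the blocks of the graph only -/
noncomputable def core {P : ℕ} (σ : Fin 3 → Perm (Fin P)) (w : Fin 3 × Fin P → F2) :
    ((Bool × Fin P) × K4) × ((Bool × Fin P) × K4) → Bool :=
  mat (Function.Embedding.refl ((Bool × Fin P) × K4)) (idn P) σ w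

open Classical in
/-- the formula `mat e ι σ w` together with the formula `z` on the variables `g i` -/
noncomputable def pad {P m : ℕ} {β X : Type} (e : β × K4 ↪ X) (ι : Bool × Fin P ↪ β)
    (σ : Fin 3 → Perm (Fin P)) (g : Fin m ↪ X) (z : Fin m × Fin m → Bool)
    (w : Fin 3 × Fin P → F2) (t : X × X) : Bool :=
  decide (mat e ι σ w t = true ∨ ∃ i k, t = (g i, g k) ∧ z (i, k) = true)

/-- **NUM** (about 100 lines). Two constructions: a free new variable doubles `numSat`; a new variable `u`
with the clauses `(u, p)`, `(p, u)` for all other `p` adds `1` (`u` true: all the old solutions; `u`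
false: all others true). Every `M` is reached from `1` (no variables): `M = 2 M'` with one variable
more than `M'`, `M = 2 M' + 1` with two variables more, so there is a formula with `f` variables,
`2 ^ f ≤ M * M`, and exactly `M` solutions; then `m - f` further variables of the second kind give a
formula on `m` variables with `M + (m - f)` solutions. -/
def S_NUM : Prop := ∀ m M : ℕ, 0 < M → M * M ≤ 2 ^ m → ∃ z : Fin m × Fin m → Bool,
  (∀ i k, z (i, k) = z (k, i)) ∧ (∀ i, z (i, i) = false) ∧ M ≤ numSat z ∧ numSat z ≤ M + m

/-- **PRD** (about 120 lines). The variables of `X` are: the `8 P` variables `e (ι s, k)`, the `m`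
variables `g i`, and the others, which are free. Compare `numSat_mat` in
`Pool/Agent/H5Sym/TwoSat.lean`; `mat` is in `Pool/Agent/H5Sym/Graph.lean` (`mat_true`, `AdjOn`, `Adj`). One
way: a lemma for `f : A ↪ X`: if every clause of `x` has both variables in the range of `f` or both
outside, then `numSat x = numSat (x ∘ f × f) * numSat (x restricted to the complement)`; use it twice, with
`numSat` of a formula without clauses equal to `2 ^ card`. -/
def S_PRD : Prop := ∀ (P m : ℕ) (β X : Type) [Finite X] (e : β × K4 ↪ X)
  (ι : Bool × Fin P ↪ β) (σ : Fin 3 → Perm (Fin P)) (g : Fin m ↪ X) (z : Fin m × Fin m → Bool)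
  (w : Fin 3 × Fin P → F2), (∀ i, g i ∉ Set.range e) →
  numSat (pad e ι σ g z w) * 2 ^ (8 * P + m) = numSat (core σ w) * numSat z * 2 ^ Nat.card X

end Pool.Agent.H5Thr
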