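import Pool.Agent.H5Thr.Stm2

/-!
# Threshold counting, small thresholds too: the pieces JN, JS, SML, CR2

`t_JN : S_JN` in `Pool/Agent/H5Thr/Jn.lean`, `t_JS : S_JS` in `Js.lean`, `t_SML : S_SML` in `Sml.lean`,
`t_CR2 : S_CR2` in `Cr2.lean` (namespace `Pool.Agent.H5Thr`, no double quotes in the file).
-/

set_option autoImplicit false

namespace Pool.Agent.H5Thr

open Module Equiv Pool.Agent.H5Sym Pool.Agent.H5Lin

universe u

open Classical in
/-- the variables in `J` are joined with all others -/
noncomputable def join {X : Type} (x : X × X → Bool) (J : Set X) (t : X × X) : Bool :=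
  decide (x t = true ∨ (t.1 ≠ t.2 ∧ (t.1 ∈ J ∨ t.2 ∈ J)))

/-- **JN** (about 100 lines). `numSat (join x J)`: an assignment with a false variable in `J` has all the
others true (and satisfies everything): `|J|` assignments; the others have all of `J` true and are, outside
of `J`, the satisfying assignments of `x`, in which the variables of `J` are free:
`numSat x = 2 ^ |J| * #{a | a satisfies x, a = true on J}`. -/
def S_JN : Prop := ∀ (X : Type) [Finite X] (x : X × X → Bool) (J : Set X),
  (∀ p q, x (p, q) = true → p ∉ J ∧ q ∉ J) →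
  numSat (join x J) * 2 ^ J.ncard = numSat x + J.ncard * 2 ^ J.ncard

/-- **JS** (about 80 lines). Let `R` be the complement of the ranges of `e` and `g`, `|R| ≥ 3`, and `a` the
minimum of `r / 4` and `|β| - 2 P`. `J` consists of the blocks `e (b, ·)` for a set of `a` elements `b`
outside of the range of `ι`, and of `r - 4 a` elements of `R`. -/
def S_JS : Prop := ∀ (P m r : ℕ) (β X : Type) [Finite X] (e : β × K4 ↪ X)
  (ι : Bool × Fin P ↪ β) (g : Fin m ↪ X), (∀ i, g i ∉ Set.range e) →
  4 * Nat.card β + m + 3 ≤ Nat.card X → 8 * P + m + r ≤ Nat.card X →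
  ∃ J : Set X, J.ncard = r ∧ (∀ i, g i ∉ J) ∧ (∀ s k, e (ι s, k) ∉ J) ∧
    ∀ b k k', e (b, k) ∈ J → e (b, k') ∈ J

/-- **SML** (about 100 lines). `numSat x` is the number of all independent sets (`a ↦ {p | a p = false}`).
If all independent sets have at most `t + 2` elements the two numbers agree; otherwise there is an
independent set `B` with exactly `t + 3` elements, its proper subsets and the sets with one element
outside of `B` are `2 ^ (t + 3) - 1 + (n - (t + 3)) ≥ n + 2 ^ t ≥ T` independent sets with at most `t + 2`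
elements. -/
def S_SML : Prop := ∀ (X : Type) [Finite X] (x : X × X → Bool) (t T : ℕ),
  (∀ p q, x (p, q) = x (q, p)) → (∀ p, x (p, p) = false) → T ≤ Nat.card X + 2 ^ t →
  (T ≤ numSat x ↔
    T ≤ Nat.card {A : Finset X // A.card ≤ t + 2 ∧ ∀ p ∈ A, ∀ q ∈ A, x (p, q) = false})

/-- **CR2** (about 150 lines; a simpler version of `t_CIR` in `Pool/Agent/H5Thr/Cir.lean`). Gates: the
inputs `(p, q)`, for each set `A` with at most `r` elements the gate `Ind A` (value `1` if all the inputs
`(p, q)` with `p, q ∈ A` are `0`, else `0`), and the output (`1` if at least `T` of the `Ind A` are `1`,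
else `0`). No rows. -/
def S_CR2 : Prop := ∀ (X : Type) [Fintype X] (r T : ℕ),
  ∃ C : LCircuit.{0, 0} (X × X) ℕ, Finite C.Gate ∧
    (∀ g, (∃ t, C.label g = .input t) ∨ ∃ f, C.label g = .sym f) ∧
    C.size ≤ (Nat.card X + 2) ^ (r + 3) ∧
    (∀ (V : Type u) [AddCommGroup V] (θ : V → Perm X), (∀ v w, θ (v + w) = θ v * θ w) →
      Nonempty (C.Action fun v => pairPerm (θ v))) ∧
    ∀ x : X × X → Bool, C.eval (fun t => if x t then 1 else 0) C.out = 1 ↔
      T ≤ Nat.card {A : Finset X // A.card ≤ r ∧ ∀ p ∈ A, ∀ q ∈ A, x (p, q) = false}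

end Pool.Agent.H5Thr
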