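import Pool.Agent.H5Thr.Stm

/-!
# Piece SUM: the number of the satisfying assignments from a cover
-/

set_option autoImplicit false

namespace Pool.Agent.H5Thr

open Module Equiv Pool.Agent.H5Sym Pool.Agent.H5Lin

namespace SUM

open Classical in
/-- the free variables -/
noncomputable def fre {X : Type} [Fintype X] (x : X × X → Bool) (A b : Finset X) : Finset X :=
  Finset.univ.filter fun p => p ∉ A ∧ ∀ q ∈ A, x (p, q) = true ∨ x (q, p) = true → q ∈ b

theorem mem_fre {X : Type} [Fintype X] (x : X × X → Bool) (A b : Finset X) (p : X) :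
    p ∈ fre x A b ↔ p ∉ A ∧ ∀ q ∈ A, x (p, q) = true ∨ x (q, p) = true → q ∈ b := by
  classical
  unfold fre
  rw [Finset.mem_filter]
  simp

/-- the satisfying assignments -/
def St {X : Type} (x : X × X → Bool) (a : X → Bool) : Prop :=
  ∀ p q, x (p, q) = true → a p = true ∨ a q = true

theorem out_true {X : Type} [Fintype X] (x : X × X → Bool) (A b : Finset X) (a : X → Bool)
    (ha : St x a) (hb : ∀ p, p ∈ b ↔ p ∈ A ∧ a p = true) (p : X) (hp : p ∉ A)
    (hf : p ∉ fre x A b) : a p = true := by
  rw [mem_fre, not_and] at hf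
  have h1 := hf hp
  push Not at h1
  obtain ⟨q, hq, hx, hqb⟩ := h1
  have h2 : ¬ a q = true := fun h => hqb ((hb q).2 ⟨hq, h⟩)
  rcases hx with hx | hx
  · exact (ha _ _ hx).resolve_right h2
  · exact (ha _ _ hx).resolve_left h2

open Classical in
theorem fib {X : Type} [Fintype X] (x : X × X → Bool) (A b : Finset X) (hA : IsCover x A)
    (hbA : b ⊆ A) (hC : ∀ p ∈ A, ∀ q ∈ A, x (p, q) = true → p ∈ b ∨ q ∈ b) :
    (Finset.univ.filter fun a : X → Bool => St x a ∧ ∀ p, p ∈ b ↔ p ∈ A ∧ a p = true).card =
      2 ^ (fre x A b).card := by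
  rw [← Finset.card_powerset]
  refine Finset.card_nbij' (fun a => (fre x A b).filter fun p => a p = true)
    (fun c p => decide (p ∈ b ∨ (p ∉ A ∧ (p ∈ c ∨ p ∉ fre x A b)))) ?_ ?_ ?_ ?_
  · intro a _
    exact Finset.mem_coe.2 (Finset.mem_powerset.2 (Finset.filter_subset _ _))
  · intro c hc
    refine Finset.mem_coe.2 (Finset.mem_filter.2 ⟨Finset.mem_univ _, ?_, ?_⟩)
    · intro p q hpq
      rw [decide_eq_true_iff, decide_eq_true_iff]
      by_cases hp : p ∈ A
      · by_cases hq : q ∈ A
        · exact (hC p hp q hq hpq).imp Or.inl Or.inl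
        · by_cases hpb : p ∈ b
          · exact Or.inl (Or.inl hpb)
          · refine Or.inr (Or.inr ⟨hq, Or.inr fun hf => hpb ?_⟩)
            exact ((mem_fre x A b q).1 hf).2 p hp (Or.inr hpq)
      · have hq : q ∈ A := (hA p q hpq).resolve_left hp
        by_cases hqb : q ∈ b
        · exact Or.inr (Or.inl hqb)
        · refine Or.inl (Or.inr ⟨hp, Or.inr fun hf => hqb ?_⟩)
          exact ((mem_fre x A b p).1 hf).2 q hq (Or.inl hpq)
    · intro p
      rw [decide_eq_true_iff]
      constructor
      · intro h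
        exact ⟨hbA h, Or.inl h⟩
      · rintro ⟨h1, h2 | h2⟩
        · exact h2
        · exact absurd h1 h2.1
  · intro a ha
    obtain ⟨-, h1, h2⟩ := Finset.mem_filter.1 (Finset.mem_coe.1 ha)
    funext p
    rw [Bool.eq_iff_iff, decide_eq_true_iff]
    constructor
    · rintro (h | ⟨h3, h4 | h4⟩)
      · exact ((h2 p).1 h).2
      · exact (Finset.mem_filter.1 h4).2
      · exact out_true x A b a h1 h2 p h3 h4
    · intro h
      by_cases hp : p ∈ A
      · exact Or.inl ((h2 p).2 ⟨hp, h⟩)
      · refine Or.inr ⟨hp, ?_⟩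
        by_cases hf : p ∈ fre x A b
        · exact Or.inl (Finset.mem_filter.2 ⟨hf, h⟩)
        · exact Or.inr hf
  · intro c hc
    have hc' : c ⊆ fre x A b := Finset.mem_powerset.1 (Finset.mem_coe.1 hc)
    ext p
    rw [Finset.mem_filter, decide_eq_true_iff]
    constructor
    · rintro ⟨h1, h2 | ⟨-, h2 | h2⟩⟩
      · exact absurd (hbA h2) ((mem_fre x A b p).1 h1).1
      · exact h2
      · exact absurd h1 h2
    · intro h
      have h1 := hc' h
      exact ⟨h1, Or.inr ⟨((mem_fre x A b p).1 h1).1, Or.inl h⟩⟩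

end SUM

open SUM in
theorem t_SUM : S_SUM := by
  classical
  intro X _ x A hA
  have h0 : numSat x = (Finset.univ.filter fun a : X → Bool => St x a).card := by
    rw [numSat, Nat.card_eq_fintype_card, Fintype.card_subtype]
    refine congrArg Finset.card ?_
    ext a
    simp only [Finset.mem_filter, St]
  rw [h0, Finset.card_eq_sum_card_fiberwise (f := fun a => A.filter fun p => a p = true)
    (t := A.powerset) (fun a _ => Finset.mem_coe.2
      (Finset.mem_powerset.2 (Finset.filter_subset _ _)))]
  unfold cnt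
  refine Finset.sum_congr rfl fun b hb => ?_
  have hbA := Finset.mem_powerset.1 hb
  have h1 : (Finset.univ.filter fun a : X → Bool => St x a).filter
      (fun a => (A.filter fun p => a p = true) = b) =
      Finset.univ.filter fun a : X → Bool => St x a ∧ ∀ p, p ∈ b ↔ p ∈ A ∧ a p = true := by
    ext a
    simp only [Finset.mem_filter, Finset.mem_univ, true_and]
    refine and_congr_right fun _ => ?_
    constructor
    · intro h p
      rw [← h, Finset.mem_filter]
    · intro h
      ext p
      rw [Finset.mem_filter]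
      exact (h p).symm
  rw [h1]
  split_ifs with hC
  · rw [fib x A b hA hbA hC]
    rfl
  · rw [Finset.card_eq_zero, Finset.filter_eq_empty_iff]
    rintro a - ⟨h2, h3⟩
    refine hC fun p hp q hq hpq => ?_
    rcases h2 p q hpq with h | h
    · exact Or.inl ((h3 p).2 ⟨hp, h⟩)
    · exact Or.inr ((h3 q).2 ⟨hq, h⟩)

end Pool.Agent.H5Thr
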