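import Pool.Agent.H5Thr.Stm

/-!
# Threshold counting: the upper bound, from the pieces COV, SUM, CIR
-/

set_option autoImplicit false

namespace Pool.Agent.H5Thr

open Module Equiv Pool.Agent.H5Sym Pool.Agent.H5Lin

universe u

theorem thr_up (hV : S_COV) (hS : S_SUM) (hI : S_CIR.{u}) (X : Type) [Finite X] (j T : ℕ)
    (hT : 2 ^ Nat.card X ≤ T * 2 ^ j) :
    ∃ C : LCircuit.{0, 0} (X × X) ℕ, Finite C.Gate ∧
      (∀ g, (∃ t, C.label g = .input t) ∨ ∃ f, C.label g = .sym f) ∧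
      C.size ≤ (Nat.card X + 2) ^ (12 * j + 4) ∧
      (∀ (V : Type u) [AddCommGroup V] (θ : V → Perm X), (∀ v w, θ (v + w) = θ v * θ w) →
        Nonempty (C.Action fun v => pairPerm (θ v))) ∧
      ∀ x : X × X → Bool, C.eval (fun t => if x t then 1 else 0) C.out = 1 ↔ T ≤ numSat x := by
  classical
  have : Fintype X := Fintype.ofFinite X
  have hT0 : 0 < T := by
    rcases Nat.eq_zero_or_pos T with rfl | h
    · rw [zero_mul] at hT
      have : 0 < 2 ^ Nat.card X := by positivity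
      omega
    · exact h
  obtain ⟨C, h1, h2, h3, h4, h5⟩ := hI X (6 * j) T hT0
  refine ⟨C, h1, h2, ?_, h4, fun x => (h5 x).trans ⟨?_, fun h => ?_⟩⟩
  · rwa [show 2 * (6 * j) + 4 = 12 * j + 4 by ring] at h3
  · rintro ⟨A, -, hA, hT⟩
    rwa [hS X x A hA]
  · obtain ⟨A, hA, hA'⟩ := hV X x j (hT.trans (Nat.mul_le_mul_right _ h))
    exact ⟨A, hA, hA', by rwa [← hS X x A hA']⟩

end Pool.Agent.H5Thr
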