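import Pool.Agent.H5Thr.Up
import Pool.Agent.H5Thr.Stm3

/-!
# Threshold counting: the upper bound at both ends
-/

set_option autoImplicit false

namespace Pool.Agent.H5Thr

open Module Equiv Pool.Agent.H5Sym Pool.Agent.H5Lin

universe u

theorem thr_up2 (hV : S_COV) (hS : S_SUM) (hI : S_CIR.{u}) (hM : S_SML) (hC : S_CR2.{u})
    (X : Type) [Finite X] (t T : ℕ)
    (hT : T ≤ Nat.card X + 2 ^ t ∨ 2 ^ Nat.card X ≤ T * 2 ^ t) :
    ∃ C : LCircuit.{0, 0} (X × X) ℕ, Finite C.Gate ∧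
      (∀ g, (∃ t, C.label g = .input t) ∨ ∃ f, C.label g = .sym f) ∧
      C.size ≤ (Nat.card X + 2) ^ (12 * t + 5) ∧
      (∀ (V : Type u) [AddCommGroup V] (θ : V → Perm X), (∀ v w, θ (v + w) = θ v * θ w) →
        Nonempty (C.Action fun v => pairPerm (θ v))) ∧
      ∀ x : X × X → Bool, (∀ p q, x (p, q) = x (q, p)) → (∀ p, x (p, p) = false) →
        (C.eval (fun t => if x t then 1 else 0) C.out = 1 ↔ T ≤ numSat x) := by
  classical
  have : Fintype X := Fintype.ofFinite X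
  rcases hT with hT | hT
  · obtain ⟨C, h1, h2, h3, h4, h5⟩ := hC X (t + 2) T
    refine ⟨C, h1, h2, h3.trans (Nat.pow_le_pow_right (by omega) (by omega)), h4,
      fun x hx hx' => (h5 x).trans (hM X x t T hx hx' hT).symm⟩
  · obtain ⟨C, h1, h2, h3, h4, h5⟩ := thr_up hV hS hI X t T hT
    exact ⟨C, h1, h2, h3.trans (Nat.pow_le_pow_right (by omega) (by omega)), h4,
      fun x _ _ => h5 x⟩

end Pool.Agent.H5Thr
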